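import Pool.Agent.H466.AL.Join
import Mathlib.Combinatorics.SimpleGraph.Tutte

set_option autoImplicit false

/-!
From the chromatic number to a join of parts.
-/

open Set Classical

namespace Pool.Agent.H466.AL

variable {V : Type}

theorem pm_color {W : Type} [Fintype W] (G : SimpleGraph V) (H : SimpleGraph W)
    (M : H.Subgraph) (hM : M.IsPerfectMatching) (f : V → W) (hf : Function.Injective f)
    (hfG : ∀ x y, H.Adj (f x) (f y) → ¬ G.Adj x y) (k : ℕ) (hk : Fintype.card W = 2 * k) :
    G.Colorable k := by
  rw [SimpleGraph.Subgraph.isPerfectMatching_iff] at hM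
  have hdeg : ∀ v, M.spanningCoe.degree v = 1 := by
    intro v
    rw [SimpleGraph.degree_eq_one_iff_existsUnique_adj]
    exact hM v
  have hsum := M.spanningCoe.sum_degrees_eq_twice_card_edges
  rw [Finset.sum_congr rfl (fun v _ => hdeg v), Finset.sum_const, Finset.card_univ, smul_eq_mul,
    mul_one, hk] at hsum
  choose g hg hg' using fun x => hM (f x)
  have C : G.Coloring {e // e ∈ M.spanningCoe.edgeFinset} := by
    refine SimpleGraph.Coloring.mk (fun x => ⟨s(f x, g x), ?_⟩) ?_
    · rw [SimpleGraph.mem_edgeFinset]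
      exact hg x
    · intro x y hxy h
      have h1 : s(f x, g x) = s(f y, g y) := congrArg Subtype.val h
      rcases Sym2.eq_iff.1 h1 with h2 | h2
      · exact hxy.ne (hf h2.1)
      · have h3 : M.Adj (f x) (g x) := hg x
        rw [h2.2] at h3
        exact hfG x y h3.adj_sub hxy
  have h1 := C.colorable
  rw [Fintype.card_coe] at h1
  have h2 : M.spanningCoe.edgeFinset.card = k := by
    omega
  rw [← h2]
  exact h1

theorem tut [Fintype V] (G : SimpleGraph V) (t : ℕ) (ht : 1 ≤ t)
    (hn : Fintype.card V ≤ 2 * t - 2) (hχ : ¬ G.Colorable (t - 1)) :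
    ∃ (ι : Type) (_ : Fintype ι) (S : Finset V) (p : V → ι),
      (∀ x ∈ S, ∀ y ∈ S, p x ≠ p y → G.Adj x y) ∧ t ≤ wt p S := by
  obtain ⟨d, hd⟩ : ∃ d, Fintype.card V + d = 2 * t - 2 := ⟨2 * t - 2 - Fintype.card V, by omega⟩
  let W := V ⊕ Fin d
  have hW : Fintype.card W = 2 * (t - 1) := by
    simp only [W, Fintype.card_sum, Fintype.card_fin]
    omega
  let H : SimpleGraph W := (G.map Function.Embedding.inl)ᶜ
  have hH1 : ∀ x y : V, H.Adj (Sum.inl x) (Sum.inl y) ↔ x ≠ y ∧ ¬ G.Adj x y := by
    intro x y
    simp only [H, SimpleGraph.compl_adj, SimpleGraph.map_adj, Function.Embedding.inl_apply]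
    constructor
    · rintro ⟨h1, h2⟩
      exact ⟨fun h => h1 (by rw [h]), fun h => h2 ⟨x, y, h, rfl, rfl⟩⟩
    · rintro ⟨h1, h2⟩
      refine ⟨fun h => h1 (Sum.inl.inj h), ?_⟩
      rintro ⟨u, v, h3, h4, h5⟩
      rw [Sum.inl.inj h4, Sum.inl.inj h5] at h3
      exact h2 h3
  have hH2 : ∀ (j : Fin d) (b : W), b ≠ Sum.inr j → H.Adj (Sum.inr j) b := by
    intro j b hb
    simp only [H, SimpleGraph.compl_adj, SimpleGraph.map_adj, Function.Embedding.inl_apply]
    refine ⟨hb.symm, ?_⟩
    rintro ⟨u, v, h3, h4, h5⟩
    exact Sum.inl_ne_inr h4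
  have hno : ∀ M : H.Subgraph, ¬ M.IsPerfectMatching := by
    intro M hM
    exact hχ (pm_color G H M hM Sum.inl Sum.inl_injective (fun x y h => ((hH1 x y).1 h).2)
      (t - 1) hW)
  obtain ⟨u, hu⟩ := SimpleGraph.exists_isTutteViolator hno (by
    rw [Nat.card_eq_fintype_card, hW]
    exact ⟨t - 1, by ring⟩)
  unfold SimpleGraph.IsTutteViolator at hu
  obtain ⟨K, hK⟩ : ∃ K, K = ((⊤ : H.Subgraph).deleteVerts u).coe := ⟨_, rfl⟩
  rw [← hK] at hu
  have hmem : ∀ w : W, w ∉ u → w ∈ ((⊤ : H.Subgraph).deleteVerts u).verts := by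
    intro w hw
    exact ⟨Set.mem_univ _, hw⟩
  have hmem' : ∀ w : ((⊤ : H.Subgraph).deleteVerts u).verts, w.1 ∉ u := fun w => w.2.2
  have hadj : ∀ a b : ((⊤ : H.Subgraph).deleteVerts u).verts, H.Adj a.1 b.1 → K.Adj a b := by
    intro a b hab
    rw [hK]
    simp only [SimpleGraph.Subgraph.coe_adj, SimpleGraph.Subgraph.deleteVerts_adj,
      SimpleGraph.Subgraph.verts_top, Set.mem_univ, true_and, SimpleGraph.Subgraph.top_adj]
    exact ⟨hmem' a, hmem' b, hab⟩
  have hX : Nat.card ((⊤ : H.Subgraph).deleteVerts u).verts = (uᶜ : Set W).ncard := by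
    rw [← Nat.card_coe_set_eq]
    have : ((⊤ : H.Subgraph).deleteVerts u).verts = (uᶜ : Set W) := by
      ext w
      exact ⟨fun h => h.2, fun h => ⟨Set.mem_univ _, h⟩⟩
    rw [this]
  have huc : u.ncard + (uᶜ : Set W).ncard = 2 * (t - 1) := by
    rw [Set.ncard_add_ncard_compl, Nat.card_eq_fintype_card, hW]
  have hpar := SimpleGraph.odd_ncard_oddComponents (G := K)
  rw [hX] at hpar
  -- all the universal vertices are in `u`
  have hinr : ∀ j : Fin d, (Sum.inr j : W) ∈ u := by
    intro j
    by_contra hj
    have hsub : ∀ c c' : K.ConnectedComponent, c = c' := by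
      have h1 : ∀ c : K.ConnectedComponent,
          c = K.connectedComponentMk ⟨Sum.inr j, hmem _ hj⟩ := by
        intro c
        induction c using SimpleGraph.ConnectedComponent.ind with
        | _ w =>
          by_cases hw : w.1 = Sum.inr j
          · congr 1
            exact Subtype.ext hw
          · rw [SimpleGraph.ConnectedComponent.eq]
            exact (hadj ⟨Sum.inr j, hmem _ hj⟩ w (hH2 j w.1 hw)).reachable.symm
      intro c c'
      rw [h1 c, h1 c']
    have h2 : K.oddComponents.ncard ≤ 1 := by
      rw [Set.ncard_le_one_iff]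
      intro a b _ _
      exact hsub a b
    have h3 : u.ncard = 0 := by omega
    have h4 : K.oddComponents.ncard = 1 := by omega
    rw [h4] at hpar
    have h5 := hpar.1 odd_one
    rw [h3, zero_add] at huc
    rw [huc] at h5
    exact (Nat.not_odd_iff_even.2 ⟨t - 1, by ring⟩) h5
  -- the parts
  let S : Finset V := Finset.univ.filter (fun x => (Sum.inl x : W) ∉ u)
  have hS : ∀ x, x ∈ S ↔ (Sum.inl x : W) ∉ u := by
    intro x
    simp only [S, Finset.mem_filter, Finset.mem_univ, true_and]
  let p : V → Option K.ConnectedComponent := fun x =>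
    if h : (Sum.inl x : W) ∉ u then some (K.connectedComponentMk ⟨Sum.inl x, hmem _ h⟩) else none
  have hp : ∀ x (h : (Sum.inl x : W) ∉ u), p x =
      some (K.connectedComponentMk ⟨Sum.inl x, hmem _ h⟩) := by
    intro x h
    simp only [p]
    rw [dif_pos h]
  haveI : Fintype K.ConnectedComponent := Fintype.ofFinite _
  refine ⟨Option K.ConnectedComponent, inferInstance, S, p, ?_, ?_⟩
  · intro x hx y hy hxy
    rw [hS] at hx hy
    by_contra hG
    apply hxy
    rw [hp x hx, hp y hy]
    congr 1
    rw [SimpleGraph.ConnectedComponent.eq]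
    refine (hadj ⟨Sum.inl x, hmem _ hx⟩ ⟨Sum.inl y, hmem _ hy⟩ ?_).reachable
    rw [hH1]
    refine ⟨?_, hG⟩
    rintro rfl
    exact hxy rfl
  · -- counting
    have hSc : S.card = (uᶜ : Set W).ncard := by
      have : (uᶜ : Set W) = Sum.inl '' (S : Set V) := by
        ext w
        rcases w with x | j
        · simp only [Set.mem_compl_iff, Set.mem_image, Finset.mem_coe]
          constructor
          · intro h
            exact ⟨x, (hS x).2 h, rfl⟩
          · rintro ⟨y, hy, hyx⟩
            rw [← hyx]
            exact (hS y).1 hy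
        · simp only [Set.mem_compl_iff, Set.mem_image, Finset.mem_coe]
          constructor
          · intro h
            exact absurd (hinr j) h
          · rintro ⟨y, hy, hyx⟩
            simp at hyx
      rw [this, Set.ncard_image_of_injective _ Sum.inl_injective, Set.ncard_coe_finset]
    have hfib : ∀ c : K.ConnectedComponent, (S.filter (fun x => p x = some c)).card =
        c.supp.ncard := by
      intro c
      rw [← Set.ncard_coe_finset, ← Set.ncard_image_of_injective _ Sum.inl_injective (β := V ⊕ Fin d),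
        ← Set.ncard_image_of_injective c.supp Subtype.val_injective]
      congr 1
      ext w
      simp only [Set.mem_image, Finset.coe_filter, Set.mem_setOf_eq,
        SimpleGraph.ConnectedComponent.mem_supp_iff]
      constructor
      · rintro ⟨x, ⟨h1, h2⟩, rfl⟩
        rw [hS] at h1
        rw [hp x h1] at h2
        exact ⟨⟨Sum.inl x, hmem _ h1⟩, Option.some.inj h2, rfl⟩
      · rintro ⟨a, ha, rfl⟩
        have h3 := hmem' a
        obtain ⟨a, ha'⟩ := a
        rcases a with x | j
        · refine ⟨x, ⟨(hS x).2 h3, ?_⟩, rfl⟩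
          rw [hp x h3]
          exact congrArg some ha
        · exact absurd (hinr j) h3
    have h1 : S.card = ∑ i, (S.filter (fun x => p x = i)).card :=
      Finset.card_eq_sum_card_fiberwise (f := p) (t := Finset.univ) (fun _ _ => Finset.mem_univ _)
    have h2 : K.oddComponents.ncard =
        ∑ c : K.ConnectedComponent, if Odd c.supp.ncard then 1 else 0 := by
      rw [← Finset.card_filter, ← Set.ncard_coe_finset]
      congr 1
      ext c
      simp
    have h3 : 2 * wt p S = ∑ i, 2 * (((S.filter (fun x => p x = i)).card + 1) / 2) := by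
      unfold wt
      rw [Finset.mul_sum]
      refine Finset.sum_congr rfl fun i _ => ?_
      congr!
    have h4 : S.card + K.oddComponents.ncard ≤ 2 * wt p S := by
      rw [h1, h2, h3, Fintype.sum_option, Fintype.sum_option, add_assoc, ← Finset.sum_add_distrib]
      refine Nat.add_le_add (by omega) (Finset.sum_le_sum fun c _ => ?_)
      rw [hfib c]
      by_cases ho : Odd c.supp.ncard
      · rw [if_pos ho]
        obtain ⟨e, he⟩ := ho
        rw [he]
        omega
      · rw [if_neg ho]
        omega
    have h5 : u.ncard + 2 ≤ K.oddComponents.ncard := by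
      by_contra hlt
      have h6 : K.oddComponents.ncard = u.ncard + 1 := by omega
      rw [h6] at hpar
      rcases Nat.even_or_odd u.ncard with h7 | h7
      · have h8 : Odd (u.ncard + 1) := h7.add_one
        have h9 := hpar.1 h8
        obtain ⟨a, ha⟩ := h7
        obtain ⟨b, hb⟩ := h9
        omega
      · have h8 : ¬ Odd (u.ncard + 1) := by
          rw [Nat.not_odd_iff_even]
          exact h7.add_one
        apply h8
        rw [hpar]
        obtain ⟨a, ha⟩ := h7
        refine ⟨t - 1 - a - 1, ?_⟩
        omega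
    omega

end Pool.Agent.H466.AL
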