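import Pool.Agent.H466.AL.Basic

set_option autoImplicit false

/-!
Upper bound for the crossing number of complete graphs: random geodesic drawings on the sphere.
-/

open Set Classical
open Pool.Agent.Helper770.Crossing Pool.Agent.NH90.CN

namespace Pool.Agent.H466.AL.Geo

/-- the projection -/
noncomputable def pr (A B C : ℝ) : ℂ :=
  ((Real.exp (C / Real.sqrt (A ^ 2 + B ^ 2)) / Real.sqrt (A ^ 2 + B ^ 2) : ℝ) : ℂ) * ⟨A, B⟩

theorem pr_norm {A B : ℝ} (C : ℝ) (h : A ≠ 0 ∨ B ≠ 0) :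
    0 < Real.sqrt (A ^ 2 + B ^ 2) ∧ ‖pr A B C‖ = Real.exp (C / Real.sqrt (A ^ 2 + B ^ 2)) := by
  have h1 : 0 < A ^ 2 + B ^ 2 := by
    rcases h with h | h <;> positivity
  have h2 : 0 < Real.sqrt (A ^ 2 + B ^ 2) := Real.sqrt_pos.2 h1
  refine ⟨h2, ?_⟩
  have h3 : ‖(⟨A, B⟩ : ℂ)‖ = Real.sqrt (A ^ 2 + B ^ 2) := by
    rw [Complex.norm_def, Complex.normSq_mk]
    congr 1; ring
  unfold pr
  rw [norm_mul, h3, Complex.norm_real, Real.norm_eq_abs, abs_of_pos (by positivity)]
  field_simp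

theorem pr_inj {A B C A' B' C' : ℝ} (h : A ≠ 0 ∨ B ≠ 0) (h' : A' ≠ 0 ∨ B' ≠ 0)
    (he : pr A B C = pr A' B' C') :
    ∃ l : ℝ, 0 < l ∧ A = l * A' ∧ B = l * B' ∧ C = l * C' := by
  obtain ⟨r1, n1⟩ := pr_norm C h
  obtain ⟨r2, n2⟩ := pr_norm C' h'
  have h3 : C / Real.sqrt (A ^ 2 + B ^ 2) = C' / Real.sqrt (A' ^ 2 + B' ^ 2) := by
    apply Real.exp_injective
    rw [← n1, ← n2, he]
  unfold pr at he
  rw [h3] at he
  set r := Real.sqrt (A ^ 2 + B ^ 2) with hr
  set r' := Real.sqrt (A' ^ 2 + B' ^ 2) with hr'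
  set E := Real.exp (C' / r') with hE
  have hE0 : 0 < E := Real.exp_pos _
  have hre := congrArg Complex.re he
  have him := congrArg Complex.im he
  rw [Complex.re_ofReal_mul, Complex.re_ofReal_mul] at hre
  rw [Complex.im_ofReal_mul, Complex.im_ofReal_mul] at him
  simp only at hre him
  refine ⟨r / r', by positivity, ?_, ?_, ?_⟩
  · field_simp at hre ⊢
    linarith
  · field_simp at him ⊢
    linarith
  · field_simp at h3 ⊢
    linarith

variable {n : ℕ}

/-- nodes -/
def nd (i : Fin n) : ℝ := ((i : ℕ) : ℝ)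

theorem nd_inj {i j : Fin n} (h : i ≠ j) : nd i - nd j ≠ 0 := by
  intro h'
  apply h
  apply Fin.ext
  have : nd i = nd j := by linarith
  unfold nd at this
  exact_mod_cast this

/-- sign -/
def sg' (b : Bool) : ℝ := if b then 1 else -1

theorem sg'_ne (b : Bool) : sg' b ≠ 0 := by
  unfold sg'; split_ifs <;> norm_num

theorem sg'_sq (b : Bool) : sg' b * sg' b = 1 := by
  unfold sg'; split_ifs <;> norm_num

variable (ε : Fin n → Bool)

/-- curve from vertex `i` to vertex `j` -/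
noncomputable def cv (i j : Fin n) (t : ℝ) : ℂ :=
  pr ((1 - t) * sg' (ε i) + t * sg' (ε j)) ((1 - t) * sg' (ε i) * nd i + t * sg' (ε j) * nd j)
    ((1 - t) * sg' (ε i) * nd i ^ 2 + t * sg' (ε j) * nd j ^ 2)

theorem nz {i j : Fin n} (h : i ≠ j) (t : ℝ) :
    (1 - t) * sg' (ε i) + t * sg' (ε j) ≠ 0 ∨
      (1 - t) * sg' (ε i) * nd i + t * sg' (ε j) * nd j ≠ 0 := by
  by_contra hc
  push Not at hc
  obtain ⟨h1, h2⟩ := hc
  have h3 : (1 - t) * sg' (ε i) * (nd i - nd j) = 0 := by linear_combination h2 - nd j * h1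
  have h4 : 1 - t = 0 := by
    rcases mul_eq_zero.1 h3 with h5 | h5
    · rcases mul_eq_zero.1 h5 with h6 | h6
      · exact h6
      · exact absurd h6 (sg'_ne _)
    · exact absurd h5 (nd_inj h)
  rw [h4] at h1
  have h5 : t = 1 := by linarith
  rw [h5] at h1
  exact sg'_ne (ε j) (by linarith)

theorem nz' {i : Fin n} :
    (1 - (0 : ℝ)) * sg' (ε i) + 0 * sg' (ε i) ≠ 0 ∨
      (1 - (0 : ℝ)) * sg' (ε i) * nd i + 0 * sg' (ε i) * nd i ≠ 0 := by
  left
  have := sg'_ne (ε i)
  simpa using this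

/-- the basic identity -/
theorem ident {i j k l : Fin n} {s t : ℝ}
    (h1 : (1 - s) * sg' (ε i) + s * sg' (ε j) ≠ 0 ∨
      (1 - s) * sg' (ε i) * nd i + s * sg' (ε j) * nd j ≠ 0)
    (h2 : (1 - t) * sg' (ε k) + t * sg' (ε l) ≠ 0 ∨
      (1 - t) * sg' (ε k) * nd k + t * sg' (ε l) * nd l ≠ 0)
    (he : cv ε i j s = cv ε k l t) : ∃ r : ℝ, 0 < r ∧ ∀ α β : ℝ,
      (1 - s) * sg' (ε i) * ((nd i - α) * (nd i - β)) +
        s * sg' (ε j) * ((nd j - α) * (nd j - β)) =
      r * ((1 - t) * sg' (ε k) * ((nd k - α) * (nd k - β)) +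
        t * sg' (ε l) * ((nd l - α) * (nd l - β))) := by
  obtain ⟨r, hr, e1, e2, e3⟩ := pr_inj h1 h2 he
  refine ⟨r, hr, fun α β => ?_⟩
  linear_combination e3 - (α + β) * e2 + α * β * e1

theorem out_ne {e : Sym2 (Fin n)} (he : e ∈ (K n).edgeSet) : e.out.1 ≠ e.out.2 := by
  intro h
  have hd : ¬ e.IsDiag := SimpleGraph.not_isDiag_of_mem_edgeSet _ he
  apply hd
  have he' : s(e.out.1, e.out.2) = e := e.out_eq
  rw [← he', Sym2.mk_isDiag_iff]
  exact h

theorem cv_self (i j : Fin n) : cv ε i i 0 = cv ε i j 0 := by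
  unfold cv; simp

/-- the drawing -/
noncomputable def Dr : Drawing (K n) where
  pos i := cv ε i i 0
  pos_injective := by
    intro i j h
    obtain ⟨r, hr, H⟩ := ident ε (nz' ε) (nz' ε) h
    by_contra hij
    have h1 := H (nd j) (nd j)
    have h2 := mul_ne_zero (sg'_ne (ε i)) (mul_ne_zero (nd_inj hij) (nd_inj hij))
    apply h2
    linear_combination h1
  arc e := cv ε e.out.1 e.out.2
  arc_continuousOn e he := by
    unfold cv pr
    have hne := out_ne he
    have hs : ∀ t ∈ Icc (0 : ℝ) 1, Real.sqrt (((1 - t) * sg' (ε e.out.1) + t * sg' (ε e.out.2)) ^ 2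
      + ((1 - t) * sg' (ε e.out.1) * nd e.out.1 + t * sg' (ε e.out.2) * nd e.out.2) ^ 2) ≠ 0 :=
      fun t _ => (pr_norm 0 (nz ε hne t)).1.ne'
    have hc : Continuous (fun t : ℝ =>
        (⟨(1 - t) * sg' (ε e.out.1) + t * sg' (ε e.out.2),
        (1 - t) * sg' (ε e.out.1) * nd e.out.1 + t * sg' (ε e.out.2) * nd e.out.2⟩ : ℂ)) := by
      have : (fun t : ℝ =>
        (⟨(1 - t) * sg' (ε e.out.1) + t * sg' (ε e.out.2),
        (1 - t) * sg' (ε e.out.1) * nd e.out.1 + t * sg' (ε e.out.2) * nd e.out.2⟩ : ℂ)) =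
        fun t : ℝ => (((1 - t) * sg' (ε e.out.1) + t * sg' (ε e.out.2) : ℝ) : ℂ) +
        (((1 - t) * sg' (ε e.out.1) * nd e.out.1 + t * sg' (ε e.out.2) * nd e.out.2 : ℝ) : ℂ)
          * Complex.I := by
        funext t; exact Complex.mk_eq_add_mul_I _ _
      rw [this]; fun_prop
    refine ContinuousOn.mul ?_ hc.continuousOn
    refine Complex.continuous_ofReal.comp_continuousOn ?_
    refine ContinuousOn.div ?_ (by fun_prop) hs
    refine Real.continuous_exp.comp_continuousOn ?_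
    exact ContinuousOn.div (by fun_prop) (by fun_prop) hs
  arc_injOn e he := by
    intro s _ t _ hst
    have hne := out_ne he
    obtain ⟨r, hr, H⟩ := ident ε (nz ε hne s) (nz ε hne t) hst
    have h1 := H (nd e.out.1) (nd e.out.1)
    have h2 := H (nd e.out.2) (nd e.out.2)
    have n1 := nd_inj hne
    have n2 := sg'_ne (ε e.out.1)
    have n3 := sg'_ne (ε e.out.2)
    have h3 : s = r * t := by
      have : sg' (ε e.out.2) * ((nd e.out.1 - nd e.out.2) * (nd e.out.1 - nd e.out.2)) *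
        (s - r * t) = 0 := by linear_combination h1
      rcases mul_eq_zero.1 this with h4 | h4
      · exact absurd h4 (mul_ne_zero n3 (mul_ne_zero n1 n1))
      · linarith
    have h4 : 1 - s = r * (1 - t) := by
      have : sg' (ε e.out.1) * ((nd e.out.1 - nd e.out.2) * (nd e.out.1 - nd e.out.2)) *
        ((1 - s) - r * (1 - t)) = 0 := by linear_combination h2
      rcases mul_eq_zero.1 this with h4 | h4
      · exact absurd h4 (mul_ne_zero n2 (mul_ne_zero n1 n1))
      · linarith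
    have h5 : r = 1 := by linarith
    rw [h5] at h3
    linarith
  arc_ends u v huv := by
    have he : s((s(u, v)).out.1, (s(u, v)).out.2) = s(u, v) := (s(u, v)).out_eq
    have h1 : ∀ i j : Fin n, cv ε i j 1 = cv ε j j 0 := by
      intro i j; unfold cv; simp
    rcases Sym2.eq_iff.mp he with h | h
    · left; rw [h.1, h.2]; exact ⟨(cv_self ε u v).symm, h1 u v⟩
    · right; rw [h.1, h.2]; exact ⟨(cv_self ε v u).symm, h1 v u⟩
  arc_avoids e he t ht w hw := by
    have hne := out_ne he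
    obtain ⟨r, hr, H⟩ := ident ε (nz ε hne t) (nz' ε) hw
    have n1 := nd_inj hne
    by_cases hwi : w = e.out.1
    · have h1 := H (nd e.out.1) (nd e.out.1)
      rw [hwi] at h1
      have : t * sg' (ε e.out.2) * ((nd e.out.1 - nd e.out.2) * (nd e.out.1 - nd e.out.2)) = 0 := by
        linear_combination h1
      exact mul_ne_zero (mul_ne_zero ht.1.ne' (sg'_ne _)) (mul_ne_zero n1 n1) this
    · have h1 := H (nd w) (nd e.out.2)
      have : (1 - t) * sg' (ε e.out.1) * ((nd e.out.1 - nd w) * (nd e.out.1 - nd e.out.2)) = 0 := by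
        linear_combination h1
      exact mul_ne_zero (mul_ne_zero (by linarith [ht.2]) (sg'_ne _))
        (mul_ne_zero (nd_inj (Ne.symm hwi)) n1) this

/-- the sign condition for a crossing -/
def cond (i j k l : Fin n) : Prop :=
  i ≠ j ∧ i ≠ k ∧ i ≠ l ∧ j ≠ k ∧ j ≠ l ∧ k ≠ l ∧
  sg' (ε i) * sg' (ε j) *
    (((nd i - nd k) * (nd i - nd l)) * ((nd j - nd k) * (nd j - nd l))) < 0 ∧
  0 < sg' (ε i) * sg' (ε k) *
    (((nd i - nd j) * (nd i - nd l)) * ((nd k - nd j) * (nd k - nd l))) ∧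
  sg' (ε k) * sg' (ε l) *
    (((nd k - nd i) * (nd k - nd j)) * ((nd l - nd i) * (nd l - nd j))) < 0

theorem sign_aux {a b x y : ℝ} (ha : 0 < a) (hb : 0 < b) (hx : x ≠ 0) (h : a * x + b * y = 0) :
    x * y < 0 := by
  have h1 : y = -(a * x) / b := by field_simp; linarith
  have h2 : 0 < x * x := mul_self_pos.2 hx
  rw [h1]
  have : x * (-(a * x) / b) = -(a / b * (x * x)) := by field_simp
  rw [this]
  have := mul_pos (div_pos ha hb) h2
  linarith

theorem cross_cond {i j k l : Fin n} (hij : i ≠ j) (hkl : k ≠ l) (hne : s(i, j) ≠ s(k, l))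
    {s t : ℝ} (hs : s ∈ Ioo (0 : ℝ) 1) (ht : t ∈ Ioo (0 : ℝ) 1) (he : cv ε i j s = cv ε k l t) :
    cond ε i j k l ∧
      (1 - s) * (sg' (ε i) * ((nd i - nd k) * (nd i - nd l))) +
        s * (sg' (ε j) * ((nd j - nd k) * (nd j - nd l))) = 0 := by
  obtain ⟨r, hr, H⟩ := ident ε (nz ε hij s) (nz ε hkl t) he
  have s1 : 0 < 1 - s := by linarith [hs.2]
  have t1 : 0 < 1 - t := by linarith [ht.2]
  have hne' : ¬ ((i = k ∧ j = l) ∨ (i = l ∧ j = k)) := fun h => hne (Sym2.eq_iff.2 h)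
  push Not at hne'
  have hik : i ≠ k := by
    rintro rfl
    have hjl := hne'.1 rfl
    have h1 := H (nd i) (nd l)
    have : s * sg' (ε j) * ((nd j - nd i) * (nd j - nd l)) = 0 := by linear_combination h1
    exact mul_ne_zero (mul_ne_zero hs.1.ne' (sg'_ne _)) (mul_ne_zero (nd_inj hij.symm)
      (nd_inj hjl)) this
  have hil : i ≠ l := by
    rintro rfl
    have hjk := hne'.2 rfl
    have h1 := H (nd i) (nd k)
    have : s * sg' (ε j) * ((nd j - nd i) * (nd j - nd k)) = 0 := by linear_combination h1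
    exact mul_ne_zero (mul_ne_zero hs.1.ne' (sg'_ne _)) (mul_ne_zero (nd_inj hij.symm)
      (nd_inj hjk)) this
  have hjk : j ≠ k := by
    rintro rfl
    have h1 := H (nd j) (nd l)
    have : (1 - s) * sg' (ε i) * ((nd i - nd j) * (nd i - nd l)) = 0 := by linear_combination h1
    exact mul_ne_zero (mul_ne_zero s1.ne' (sg'_ne _)) (mul_ne_zero (nd_inj hij)
      (nd_inj hil)) this
  have hjl : j ≠ l := by
    rintro rfl
    have h1 := H (nd j) (nd k)
    have : (1 - s) * sg' (ε i) * ((nd i - nd j) * (nd i - nd k)) = 0 := by linear_combination h1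
    exact mul_ne_zero (mul_ne_zero s1.ne' (sg'_ne _)) (mul_ne_zero (nd_inj hij)
      (nd_inj hik)) this
  have e1 : (1 - s) * (sg' (ε i) * ((nd i - nd k) * (nd i - nd l))) +
        s * (sg' (ε j) * ((nd j - nd k) * (nd j - nd l))) = 0 := by
    have := H (nd k) (nd l)
    linear_combination this
  refine ⟨⟨hij, hik, hil, hjk, hjl, hkl, ?_, ?_, ?_⟩, e1⟩
  · have := sign_aux s1 hs.1 (mul_ne_zero (sg'_ne (ε i)) (mul_ne_zero (nd_inj hik)
      (nd_inj hil))) e1
    calc _ = _ := by ring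
      _ < 0 := this
  · have e2 : (1 - s) * (sg' (ε i) * ((nd i - nd j) * (nd i - nd l))) +
        (r * (1 - t)) * (-(sg' (ε k) * ((nd k - nd j) * (nd k - nd l)))) = 0 := by
      have := H (nd j) (nd l)
      linear_combination this
    have := sign_aux s1 (mul_pos hr t1) (mul_ne_zero (sg'_ne (ε i)) (mul_ne_zero (nd_inj hij)
      (nd_inj hil))) e2
    have h3 : sg' (ε i) * sg' (ε k) *
      (((nd i - nd j) * (nd i - nd l)) * ((nd k - nd j) * (nd k - nd l))) =
      -(sg' (ε i) * ((nd i - nd j) * (nd i - nd l)) *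
        -(sg' (ε k) * ((nd k - nd j) * (nd k - nd l)))) := by ring
    rw [h3]
    linarith
  · have e3 : (r * (1 - t)) * (sg' (ε k) * ((nd k - nd i) * (nd k - nd j))) +
        (r * t) * (sg' (ε l) * ((nd l - nd i) * (nd l - nd j))) = 0 := by
      have := H (nd i) (nd j)
      linear_combination -this
    have := sign_aux (mul_pos hr t1) (mul_pos hr ht.1) (mul_ne_zero (sg'_ne (ε k))
      (mul_ne_zero (nd_inj hik.symm) (nd_inj hjk.symm))) e3
    calc _ = _ := by ring
      _ < 0 := this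

theorem DX_le (e f : Sym2 (Fin n)) (he : e ∈ (K n).edgeSet) (hf : f ∈ (K n).edgeSet)
    (hef : e ≠ f) :
    ((Dr ε).arc e '' Ioo (0 : ℝ) 1 ∩ (Dr ε).arc f '' Ioo (0 : ℝ) 1).Subsingleton ∧
    (((Dr ε).arc e '' Ioo (0 : ℝ) 1 ∩ (Dr ε).arc f '' Ioo (0 : ℝ) 1).Nonempty →
      cond ε e.out.1 e.out.2 f.out.1 f.out.2) := by
  have hne : s(e.out.1, e.out.2) ≠ s(f.out.1, f.out.2) := by
    have he' : s(e.out.1, e.out.2) = e := e.out_eq
    have hf' : s(f.out.1, f.out.2) = f := f.out_eq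
    rw [he', hf']; exact hef
  constructor
  · rintro z ⟨⟨s, hs, h1⟩, ⟨t, ht, h2⟩⟩ z' ⟨⟨s', hs', h3⟩, ⟨t', ht', h4⟩⟩
    have k1 := cross_cond ε (out_ne he) (out_ne hf) hne hs ht (h1.trans h2.symm)
    have k2 := cross_cond ε (out_ne he) (out_ne hf) hne hs' ht' (h3.trans h4.symm)
    obtain ⟨⟨-, hik, hil, hjk, hjl, hkl, c1, -, -⟩, e1⟩ := k1
    obtain ⟨-, e2⟩ := k2
    have hss : s = s' := by
      set X := sg' (ε e.out.1) * ((nd e.out.1 - nd f.out.1) * (nd e.out.1 - nd f.out.2)) with hX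
      set Y := sg' (ε e.out.2) * ((nd e.out.2 - nd f.out.1) * (nd e.out.2 - nd f.out.2)) with hY
      have hXY : X * Y < 0 := by
        calc X * Y = _ := by rw [hX, hY]; ring
          _ < 0 := c1
      have h5 : (s - s') * (Y - X) = 0 := by linear_combination e1 - e2
      rcases mul_eq_zero.1 h5 with h6 | h6
      · linarith
      · exfalso
        have : Y = X := by linarith
        rw [this] at hXY
        nlinarith [mul_self_nonneg X]
    rw [← h1, ← h3, hss]
  · rintro ⟨z, ⟨s, hs, h1⟩, ⟨t, ht, h2⟩⟩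
    exact (cross_cond ε (out_ne he) (out_ne hf) hne hs ht (h1.trans h2.symm)).1

theorem fin_cross : (Dr ε).crossings.Finite := by
  rw [(t_CNT _ _ (Dr ε)).1]
  intro e he f hf hef
  exact (DX_le ε e f he hf hef).1.finite

theorem DX_le' (e f : Sym2 (Fin n)) (he : e ∈ (K n).edgeSet) (hf : f ∈ (K n).edgeSet) :
    DX (Dr ε) e f ≤ if cond ε e.out.1 e.out.2 f.out.1 f.out.2 then 1 else 0 := by
  by_cases h0 : DX (Dr ε) e f = 0
  · rw [h0]; exact Nat.zero_le _
  · obtain ⟨-, -, hef⟩ := DX_ne h0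
    obtain ⟨h1, h2⟩ := DX_le ε e f he hf hef
    have h3 : DX (Dr ε) e f =
        ((Dr ε).arc e '' Ioo (0 : ℝ) 1 ∩ (Dr ε).arc f '' Ioo (0 : ℝ) 1).ncard := by
      unfold DX
      rw [if_pos ⟨he, hf, hef⟩]
    rw [h3] at h0 ⊢
    have h4 := Set.nonempty_of_ncard_ne_zero h0
    rw [if_pos (h2 h4)]
    have := h1.finite.to_subtype
    exact Set.ncard_le_one_iff_subsingleton.2 h1

/-- flipping -/
def fl (a : Fin n) (b : Bool) (ε : Fin n → Bool) : Fin n → Bool :=
  Function.update ε a (xor (ε a) b)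

theorem sign_det {x y c : ℝ} (hx : x * x = 1) (hy : y * y = 1) {u v : ℝ} (hc1 : u * x * c < 0)
    (hc2 : u * y * c < 0) : x = y := by
  have hx' : x = 1 ∨ x = -1 := by
    have : (x - 1) * (x + 1) = 0 := by linear_combination hx
    rcases mul_eq_zero.1 this with h | h
    · left; linarith
    · right; linarith
  have hy' : y = 1 ∨ y = -1 := by
    have : (y - 1) * (y + 1) = 0 := by linear_combination hy
    rcases mul_eq_zero.1 this with h | h
    · left; linarith
    · right; linarith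
  rcases hx' with rfl | rfl <;> rcases hy' with rfl | rfl
  · rfl
  · linarith
  · linarith
  · rfl

theorem sg'_inj {a b : Bool} (h : sg' a = sg' b) : a = b := by
  unfold sg' at h
  cases a <;> cases b <;> simp at h ⊢ <;> norm_num at h

theorem count (i j k l : Fin n) :
    8 * (Finset.univ.filter (fun ε : Fin n → Bool => cond ε i j k l)).card ≤ 2 ^ n := by
  have h1 : (Finset.univ.filter (fun ε : Fin n → Bool => cond ε i j k l) ×ˢ
      (Finset.univ : Finset (Bool × Bool × Bool))).card ≤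
      (Finset.univ : Finset (Fin n → Bool)).card := by
    refine Finset.card_le_card_of_injOn
      (fun p => fl j p.2.1 (fl k p.2.2.1 (fl l p.2.2.2 p.1))) (fun _ _ => Finset.mem_univ _) ?_
    rintro ⟨ε, b1, b2, b3⟩ hp ⟨ε', b1', b2', b3'⟩ hp' heq
    simp only [Finset.coe_product, Set.mem_prod, Finset.mem_coe, Finset.mem_filter,
      Finset.mem_univ, true_and, and_true] at hp hp'
    obtain ⟨hij, hik, hil, hjk, hjl, hkl, c1, c2, c3⟩ := hp
    obtain ⟨-, -, -, -, -, -, c1', c2', c3'⟩ := hp'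
    simp only at heq
    have hoth : ∀ m, m ≠ j → m ≠ k → m ≠ l → ε m = ε' m := by
      intro m m1 m2 m3
      have := congrFun heq m
      simpa [fl, Function.update_of_ne m1, Function.update_of_ne m2,
        Function.update_of_ne m3] using this
    have hi := hoth i hij hik hil
    have hj : ε j = ε' j := by
      apply sg'_inj
      refine sign_det (u := sg' (ε i)) (v := 0) (sg'_sq _) (sg'_sq _) c1 ?_
      rw [hi]; exact c1'
    have hk : ε k = ε' k := by
      apply sg'_inj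
      refine sign_det (u := sg' (ε i)) (v := 0)
        (c := -(((nd i - nd j) * (nd i - nd l)) * ((nd k - nd j) * (nd k - nd l))))
        (sg'_sq _) (sg'_sq _) ?_ ?_
      · rw [mul_neg]; linarith
      · rw [hi, mul_neg]; linarith
    have hl : ε l = ε' l := by
      apply sg'_inj
      refine sign_det (u := sg' (ε k)) (v := 0) (sg'_sq _) (sg'_sq _) c3 ?_
      rw [hk]; exact c3'
    have hε : ε = ε' := by
      funext m
      by_cases m1 : m = j
      · rw [m1, hj]
      by_cases m2 : m = k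
      · rw [m2, hk]
      by_cases m3 : m = l
      · rw [m3, hl]
      exact hoth m m1 m2 m3
    subst hε
    have hb1 := congrFun heq j
    have hb2 := congrFun heq k
    have hb3 := congrFun heq l
    simp only [fl, Function.update_self, Function.update_of_ne hjk, Function.update_of_ne hjl,
      Function.update_of_ne hkl, Function.update_of_ne hjk.symm, Function.update_of_ne hjl.symm,
      Function.update_of_ne hkl.symm] at hb1 hb2 hb3
    have hx : ∀ a b c : Bool, (xor a b) = (xor a c) → b = c := by decide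
    rw [hx _ _ _ hb1, hx _ _ _ hb2, hx _ _ _ hb3]
  rw [Finset.card_product, Finset.card_univ, Finset.card_univ] at h1
  simp only [Fintype.card_prod, Fintype.card_bool, Fintype.card_fun, Fintype.card_fin] at h1
  omega

theorem cr_K_le (n : ℕ) : 64 * crossingNumber (K n) ≤ n ^ 4 := by
  have h1 : ∀ ε : Fin n → Bool, 2 * crossingNumber (K n) ≤
      ∑ e ∈ eF (K n), ∑ f ∈ eF (K n), if cond ε e.out.1 e.out.2 f.out.1 f.out.2 then 1 else 0 := by
    intro ε
    have h2 := cr_le_sum' (Dr ε) (fin_cross ε) (K n) le_rfl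
    refine h2.trans (Finset.sum_le_sum fun e he => Finset.sum_le_sum fun f hf => ?_)
    exact DX_le' ε e f (DEL.mem_eF.1 he) (DEL.mem_eF.1 hf)
  have h2 : ∑ ε : Fin n → Bool, 2 * crossingNumber (K n) ≤
      ∑ ε : Fin n → Bool, ∑ e ∈ eF (K n), ∑ f ∈ eF (K n),
        if cond ε e.out.1 e.out.2 f.out.1 f.out.2 then 1 else 0 :=
    Finset.sum_le_sum fun ε _ => h1 ε
  have h3 : ∑ ε : Fin n → Bool, ∑ e ∈ eF (K n), ∑ f ∈ eF (K n),
        (if cond ε e.out.1 e.out.2 f.out.1 f.out.2 then 1 else 0) =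
      ∑ e ∈ eF (K n), ∑ f ∈ eF (K n), (Finset.univ.filter (fun ε : Fin n → Bool =>
        cond ε e.out.1 e.out.2 f.out.1 f.out.2)).card := by
    rw [Finset.sum_comm]
    refine Finset.sum_congr rfl fun e _ => ?_
    rw [Finset.sum_comm]
    refine Finset.sum_congr rfl fun f _ => ?_
    rw [Finset.card_filter]
  have h4 : 8 * ∑ e ∈ eF (K n), ∑ f ∈ eF (K n), (Finset.univ.filter (fun ε : Fin n → Bool =>
        cond ε e.out.1 e.out.2 f.out.1 f.out.2)).card ≤ (eF (K n)).card * (eF (K n)).card * 2 ^ n := by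
    rw [Finset.mul_sum]
    have : ∀ e ∈ eF (K n), 8 * ∑ f ∈ eF (K n), (Finset.univ.filter (fun ε : Fin n → Bool =>
        cond ε e.out.1 e.out.2 f.out.1 f.out.2)).card ≤ (eF (K n)).card * 2 ^ n := by
      intro e _
      rw [Finset.mul_sum]
      have := Finset.sum_le_card_nsmul (eF (K n)) (fun f => 8 * (Finset.univ.filter
        (fun ε : Fin n → Bool => cond ε e.out.1 e.out.2 f.out.1 f.out.2)).card) (2 ^ n)
        (fun f _ => count _ _ _ _)
      simpa [smul_eq_mul] using this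
    have h5 := Finset.sum_le_card_nsmul (eF (K n)) _ _ this
    rw [smul_eq_mul] at h5
    rw [mul_assoc]
    exact h5
  have h5 : 2 * (eF (K n)).card ≤ n ^ 2 := by
    have h6 : (eF (K n)).card ≤ n.choose 2 := by
      have h7 : eF (K n) = (K n).edgeFinset := by
        ext e
        rw [DEL.mem_eF, SimpleGraph.mem_edgeFinset]
      rw [h7]
      simpa using (K n).card_edgeFinset_le_card_choose_two
    have h8 : 2 * n.choose 2 ≤ n ^ 2 := by
      rw [Nat.choose_two_right]
      have := Nat.div_mul_le_self (n * (n - 1)) 2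
      have h9 : n * (n - 1) ≤ n ^ 2 := by
        rw [sq]; exact Nat.mul_le_mul_left _ (Nat.sub_le _ _)
      omega
    omega
  rw [Finset.sum_const, Finset.card_univ, Fintype.card_fun, Fintype.card_bool, Fintype.card_fin,
    smul_eq_mul, h3] at h2
  have h6 : 16 * crossingNumber (K n) * 2 ^ n ≤ (eF (K n)).card * (eF (K n)).card * 2 ^ n := by
    calc 16 * crossingNumber (K n) * 2 ^ n = 8 * (2 ^ n * (2 * crossingNumber (K n))) := by ring
      _ ≤ _ := Nat.mul_le_mul_left 8 h2
      _ ≤ _ := h4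
  have h7 : 16 * crossingNumber (K n) ≤ (eF (K n)).card * (eF (K n)).card :=
    Nat.le_of_mul_le_mul_right h6 (by positivity)
  calc 64 * crossingNumber (K n) = 4 * (16 * crossingNumber (K n)) := by ring
    _ ≤ 4 * ((eF (K n)).card * (eF (K n)).card) := Nat.mul_le_mul_left 4 h7
    _ = (2 * (eF (K n)).card) * (2 * (eF (K n)).card) := by ring
    _ ≤ n ^ 2 * n ^ 2 := Nat.mul_le_mul h5 h5
    _ = n ^ 4 := by ring

end Pool.Agent.H466.AL.Geo
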