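import Pool.Agent.H466.AL.OnePl
import Pool.Agent.H466.AL.Geo

set_option autoImplicit false

/-!
The limit of `cr(K_n) / n^4`.
-/

open Set Classical
open Pool.Agent.Helper770.Crossing Pool.Agent.NH90.CN
open Pool.Agent.Helper770.Levels (inside inside_le)

namespace Pool.Agent.H466.AL

/-- falling factorial -/
def ff (n : ℕ) : ℝ := (n : ℝ) * (n - 1) * (n - 2) * (n - 3)

theorem ff_pos {n : ℕ} (h : 4 ≤ n) : 0 < ff n := by
  have : (4 : ℝ) ≤ n := by exact_mod_cast h
  unfold ff
  have h1 : (0 : ℝ) < n := by linarith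
  have h2 : (0 : ℝ) < n - 1 := by linarith
  have h3 : (0 : ℝ) < n - 2 := by linarith
  have h4 : (0 : ℝ) < n - 3 := by linarith
  positivity

theorem step (n : ℕ) (hn : 4 ≤ n) :
    ((n : ℝ) + 1) * crossingNumber (K n) ≤ ((n : ℝ) - 3) * crossingNumber (K (n + 1)) := by
  have h := lp (K (n + 1)) (Finset.univ : Finset (Fin (n + 1)))
    (fun v => Finset.univ.erase v) (fun _ => 1) ((n : ℝ) - 3) (fun _ _ => zero_le_one) (by
      intro a b c d hab hcd h1 h2 h3 h4
      have hab' : a ≠ b := hab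
      have hcd' : c ≠ d := hcd
      rw [Finset.sum_const, nsmul_eq_mul, mul_one]
      have key : ∀ S : Finset (Fin (n + 1)), S = Finset.univ \ {a, b, c, d} →
          (S.card : ℝ) ≤ (n : ℝ) - 3 := by
        rintro _ rfl
        rw [Finset.card_sdiff_of_subset (Finset.subset_univ _)]
        have h5 : ({a, b, c, d} : Finset (Fin (n + 1))).card = 4 := by
          rw [Finset.card_insert_of_notMem, Finset.card_insert_of_notMem, Finset.card_pair hcd']
          · simp [h3, h4]
          · simp [hab', h1, h2]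
        rw [h5, Finset.card_univ, Fintype.card_fin]
        have : (((n + 1 - 4 : ℕ) : ℕ) : ℝ) = (n : ℝ) - 3 := by
          rw [Nat.cast_sub (by omega)]
          push_cast; ring
        rw [this]
      apply key
      ext ω
      simp only [Finset.mem_filter, Finset.mem_univ, true_and, Finset.mem_erase, ne_eq, and_true,
        Finset.mem_sdiff, Finset.mem_insert, Finset.mem_singleton, not_or]
      constructor
      · rintro ⟨h5, h6, h7, h8⟩
        exact ⟨fun h => h5 h.symm, fun h => h6 h.symm, fun h => h7 h.symm, fun h => h8 h.symm⟩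
      · rintro ⟨h5, h6, h7, h8⟩
        exact ⟨fun h => h5 h.symm, fun h => h6 h.symm, fun h => h7 h.symm, fun h => h8 h.symm⟩)
  simp only [one_mul] at h
  refine le_trans ?_ h
  have h6 : ∀ v ∈ (Finset.univ : Finset (Fin (n + 1))), (crossingNumber (K n) : ℝ) ≤
      (crossingNumber (inside (K (n + 1)) (Finset.univ.erase v)) : ℝ) := by
    intro v _
    have h7 := cr_clique (G := K (n + 1)) (Finset.univ.erase v) (fun x _ y _ hxy => hxy)
    rw [Finset.card_erase_of_mem (Finset.mem_univ v), Finset.card_univ, Fintype.card_fin] at h7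
    exact_mod_cast h7
  have h8 := Finset.card_nsmul_le_sum _ _ _ h6
  rw [Finset.card_univ, Fintype.card_fin, nsmul_eq_mul] at h8
  push_cast at h8
  exact h8

/-- the ratio -/
noncomputable def q (n : ℕ) : ℝ := crossingNumber (K n) / ff n

theorem q_step (n : ℕ) (hn : 4 ≤ n) : q n ≤ q (n + 1) := by
  unfold q
  rw [div_le_div_iff₀ (ff_pos hn) (ff_pos (by omega))]
  have h := step n hn
  have h1 : (4 : ℝ) ≤ n := by exact_mod_cast hn
  have e1 : ff (n + 1) = ((n : ℝ) + 1) * (n * (n - 1) * (n - 2)) := by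
    unfold ff; push_cast; ring
  have e2 : ff n = ((n : ℝ) - 3) * (n * (n - 1) * (n - 2)) := by
    unfold ff; ring
  rw [e1, e2]
  have h2 : (0 : ℝ) ≤ n * (n - 1) * (n - 2) :=
    mul_nonneg (mul_nonneg (by linarith) (by linarith)) (by linarith)
  nlinarith [mul_le_mul_of_nonneg_right h h2]

theorem q_mono {m n : ℕ} (hm : 4 ≤ m) (h : m ≤ n) : q m ≤ q n := by
  induction n, h using Nat.le_induction with
  | base => exact le_rfl
  | succ n hn ih => exact ih.trans (q_step n (hm.trans hn))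

theorem q_le (n : ℕ) (hn : 4 ≤ n) : q n ≤ (n : ℝ) ^ 4 / (64 * ff n) := by
  unfold q
  have h := Geo.cr_K_le n
  have h1 : (64 : ℝ) * crossingNumber (K n) ≤ (n : ℝ) ^ 4 := by exact_mod_cast h
  have h2 := ff_pos hn
  rw [div_le_div_iff₀ h2 (by positivity)]
  nlinarith

theorem q_le' (n : ℕ) (hn : 4 ≤ n) : q n ≤ 1 / 64 := by
  apply le_of_forall_pos_le_add
  intro ε hε
  -- choose a large number
  obtain ⟨m, hm⟩ := exists_nat_gt (max ((n : ℝ) + 12) (1 / ε))
  have hm1 : (n : ℝ) + 12 < m := lt_of_le_of_lt (le_max_left _ _) hm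
  have hm2 : 1 / ε < m := lt_of_le_of_lt (le_max_right _ _) hm
  have hnm : n ≤ m := by
    have : (n : ℝ) < m := by linarith
    exact_mod_cast this.le
  have h1 := q_mono hn hnm
  have h2 := q_le m (hn.trans hnm)
  refine h1.trans (h2.trans ?_)
  have hf := ff_pos (hn.trans hnm)
  have hn' : (0 : ℝ) ≤ n := Nat.cast_nonneg n
  have hm12 : (12 : ℝ) < m := by linarith
  have h3 : 1 < ε * m := by
    rw [div_lt_iff₀ hε] at hm2
    linarith
  rw [div_le_iff₀ (by positivity)]
  have h4 : (m : ℝ) ^ 4 - 6 * m ^ 3 ≤ ff m := by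
    unfold ff
    have : (m : ℝ) * (m - 1) * (m - 2) * (m - 3) = m ^ 4 - 6 * m ^ 3 + (11 * m ^ 2 - 6 * m) := by
      ring
    rw [this]
    nlinarith
  have h5 : (m : ℝ) ^ 3 ≤ ε * m * m ^ 3 := by
    have : (0 : ℝ) ≤ (m : ℝ) ^ 3 := by positivity
    nlinarith
  have h6 : ff m ≥ (m : ℝ) ^ 4 / 2 := by nlinarith [pow_pos (show (0 : ℝ) < m by linarith) 3]
  have h7 : (1 / 64 + ε) * (64 * ff m) = ff m + 64 * ε * ff m := by ring
  rw [h7]
  have h8 : 64 * ε * ff m ≥ 64 * ε * ((m : ℝ) ^ 4 / 2) :=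
    mul_le_mul_of_nonneg_left h6 (by positivity)
  nlinarith

/-- the limit constant -/
noncomputable def kap : ℝ := ⨆ n : ℕ, q (n + 4)

theorem kap_bdd : BddAbove (Set.range (fun n : ℕ => q (n + 4))) := by
  refine ⟨1 / 64, ?_⟩
  rintro _ ⟨n, rfl⟩
  exact q_le' _ (by omega)

theorem kap_le : kap ≤ 1 / 64 := ciSup_le (fun n => q_le' _ (by omega))

theorem q_le_kap {n : ℕ} (hn : 4 ≤ n) : q n ≤ kap := by
  have := le_ciSup kap_bdd (n - 4)
  have e : n - 4 + 4 = n := by omega
  simp only [e] at this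
  exact this

theorem cr_K5 : 1 ≤ crossingNumber (K 5) := by
  obtain ⟨D, h1, h2, h3⟩ := p_GOOD (Fin 5) (K 5)
  have h := del_bound (V := Fin 5) (by simp) _ (K 5) D rfl h1
  rw [h3] at h
  have h7 : eF (K 5) = (K 5).edgeFinset := by
    ext e
    rw [DEL.mem_eF, SimpleGraph.mem_edgeFinset]
  have h8 : (eF (K 5)).card = 10 := by
    rw [h7]
    have := SimpleGraph.card_edgeFinset_top_eq_card_choose_two (V := Fin 5)
    simp only [Fintype.card_fin] at this
    rw [show Nat.choose 5 2 = 10 by decide] at this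
    rw [← this]
  rw [h8, Fintype.card_fin] at h
  omega

theorem kap_ge : 1 / 120 ≤ kap := by
  refine le_trans ?_ (q_le_kap (n := 5) (by norm_num))
  unfold q
  have h1 : (1 : ℝ) ≤ crossingNumber (K 5) := by exact_mod_cast cr_K5
  have h2 : ff 5 = 120 := by unfold ff; norm_num
  rw [h2]
  linarith

theorem cr_le_kap (n : ℕ) : (crossingNumber (K n) : ℝ) ≤ kap * n ^ 4 := by
  by_cases hn : 4 ≤ n
  · have h1 := q_le_kap hn
    unfold q at h1
    rw [div_le_iff₀ (ff_pos hn)] at h1
    have h2 : ff n ≤ (n : ℝ) ^ 4 := by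
      have : (4 : ℝ) ≤ n := by exact_mod_cast hn
      unfold ff
      nlinarith [mul_nonneg (show (0:ℝ) ≤ n by linarith) (show (0:ℝ) ≤ 6 * (n:ℝ) ^ 2 - 11 * n + 6 by nlinarith)]
    have h3 := kap_ge
    nlinarith
  · have h1 : crossingNumber (K n) ≤ crossingNumber (K 4) := cr_K_mono (by omega)
    have h2 : crossingNumber (K 4) = 0 := by
      -- K 4 is contained in the drawing bound
      have := step 4 (by norm_num)
      by_contra hc
      have h3 := Geo.cr_K_le 4
      -- use a plane drawing of K 4: bound by ratio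
      have h4 : q 4 ≤ 1 / 64 := q_le' 4 le_rfl
      unfold q at h4
      have h5 : ff 4 = 24 := by unfold ff; norm_num
      rw [h5] at h4
      have h6 : (1 : ℝ) ≤ crossingNumber (K 4) := by
        exact_mod_cast Nat.one_le_iff_ne_zero.2 hc
      linarith
    have h3 : crossingNumber (K n) = 0 := by omega
    rw [h3]
    have := kap_ge
    push_cast
    positivity

/-- lower bound for all sizes -/
theorem cr_ge_kap (ε : ℝ) (hε : 0 < ε) : ∃ C : ℝ, 0 ≤ C ∧ ∀ n : ℕ,
    (kap - ε) * (n : ℝ) ^ 4 - C * (n : ℝ) ^ 3 ≤ crossingNumber (K n) := by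
  obtain ⟨m, hm⟩ := exists_lt_of_lt_ciSup (show kap - ε < ⨆ n : ℕ, q (n + 4) from by
    have : kap = ⨆ n : ℕ, q (n + 4) := rfl
    linarith)
  refine ⟨(m : ℝ) + 4 + 6, by positivity, fun n => ?_⟩
  have hk := kap_le
  have hk' := kap_ge
  have hn0 : (0 : ℝ) ≤ n := Nat.cast_nonneg n
  have hm0 : (0 : ℝ) ≤ m := Nat.cast_nonneg m
  have hcr : (0 : ℝ) ≤ crossingNumber (K n) := Nat.cast_nonneg _
  have hn3 : (0 : ℝ) ≤ (n : ℝ) ^ 3 := by positivity
  by_cases hn : m + 4 ≤ n
  · have h1 := q_mono (by omega) hn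
    have h2 : kap - ε ≤ q n := hm.le.trans h1
    unfold q at h2
    rw [le_div_iff₀ (ff_pos (by omega))] at h2
    refine le_trans ?_ h2
    have h4 : (n : ℝ) ^ 4 - 6 * n ^ 3 ≤ ff n := by
      unfold ff
      have : (n : ℝ) * (n - 1) * (n - 2) * (n - 3) = n ^ 4 - 6 * n ^ 3 + (11 * n ^ 2 - 6 * n) := by
        ring
      rw [this]
      have : (4 : ℝ) ≤ n := by exact_mod_cast (show 4 ≤ n by omega)
      nlinarith
    by_cases hs : 0 ≤ kap - ε
    · have := mul_le_mul_of_nonneg_left h4 hs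
      nlinarith
    · push Not at hs
      have h5 : ff n ≤ (n : ℝ) ^ 4 := by
        have : (4 : ℝ) ≤ n := by exact_mod_cast (show 4 ≤ n by omega)
        unfold ff
        nlinarith [mul_nonneg (show (0:ℝ) ≤ n by linarith) (show (0:ℝ) ≤ 6 * (n:ℝ) ^ 2 - 11 * n + 6 by nlinarith)]
      nlinarith
  · push Not at hn
    have h1 : (n : ℝ) ≤ m + 4 := by exact_mod_cast (by omega : n ≤ m + 4)
    have h2 : (kap - ε) * (n : ℝ) ^ 4 ≤ (m + 4) * (n : ℝ) ^ 3 := by
      have h3 : (n : ℝ) ^ 4 = n * n ^ 3 := by ring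
      rw [h3, ← mul_assoc]
      apply mul_le_mul_of_nonneg_right _ hn3
      nlinarith
    nlinarith

end Pool.Agent.H466.AL
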