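import Pool.Agent.H466.AL.Par2

set_option autoImplicit false

/-!
Rerouting: adding edges that follow two-edge paths of a drawn graph.
-/

open Set Classical
open Pool.Agent.Helper770.Crossing Pool.Agent.NH90.CN

namespace Pool.Agent.H466.AL

open Par

variable {V : Type}

/-- the edges used by a pair -/
noncomputable def pth (G : SimpleGraph V) (mid : Sym2 V → V) (x : Sym2 V) : Finset (Sym2 V) :=
  if x ∈ G.edgeSet then {x} else x.toFinset.image (fun v => s(v, mid x))

/-- extra crossings near the middle vertices -/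
noncomputable def lcc (G : SimpleGraph V) (mid : Sym2 V → V) (x y : Sym2 V) : ℕ :=
  (if x ∉ G.edgeSet ∧ mid x ∈ y then 2 else 0) + (if y ∉ G.edgeSet ∧ mid y ∈ x then 2 else 0) +
    if x ∉ G.edgeSet ∧ y ∉ G.edgeSet ∧ mid x = mid y then 4 else 0

/-- bound for the number of crossings -/
noncomputable def cst {G : SimpleGraph V} (D : Drawing G) (mid : Sym2 V → V) (x y : Sym2 V) : ℕ :=
  ∑ e ∈ pth G mid x, ∑ f ∈ pth G mid y, DX D e f + lcc G mid x y

theorem lcc_comm (G : SimpleGraph V) (mid : Sym2 V → V) (x y : Sym2 V) :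
    lcc G mid x y = lcc G mid y x := by
  unfold lcc
  have : (x ∉ G.edgeSet ∧ y ∉ G.edgeSet ∧ mid x = mid y) ↔
      (y ∉ G.edgeSet ∧ x ∉ G.edgeSet ∧ mid y = mid x) := by
    constructor
    · rintro ⟨h1, h2, h3⟩; exact ⟨h2, h1, h3.symm⟩
    · rintro ⟨h1, h2, h3⟩; exact ⟨h2, h1, h3.symm⟩
  simp only [this]
  omega

theorem cst_comm {G : SimpleGraph V} (D : Drawing G) (mid : Sym2 V → V) (x y : Sym2 V) :
    cst D mid x y = cst D mid y x := by
  unfold cst
  rw [lcc_comm, Finset.sum_comm]
  congr 1
  refine Finset.sum_congr rfl fun e _ => Finset.sum_congr rfl fun f _ => ?_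
  exact DEL.DX_comm D _ _

theorem cst_edge {G : SimpleGraph V} (D : Drawing G) (mid : Sym2 V → V) {x y : Sym2 V}
    (hx : x ∈ G.edgeSet) (hy : y ∈ G.edgeSet) : cst D mid x y = DX D x y := by
  unfold cst pth lcc
  simp [hx, hy]

theorem lb_en' {I : Type} {A : Finset I} {hd tl : I → V} {loc : V → ℂ} {W : I → List ℂ}
    (hL : Lb A hd tl loc W) {i : I} (hi : i ∈ A) {v : V} (hv : v ∈ s(hd i, tl i)) :
    loc v ∈ W i := GOOD.en_mem (GOOD.lb_en hL hi hv)

variable [Fintype V]

/-- the family of polylines for a set of added pairs -/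
def Fam {G : SimpleGraph V} (D : Drawing G) (mid : Sym2 V → V) (A : Finset (Sym2 V)) : Prop :=
  ∃ (loc : V → ℂ) (W : Sym2 V → List ℂ), PL A W ∧ PO A W ∧
    Lb A (fun e => e.out.1) (fun e => e.out.2) loc W ∧ (∀ i ∈ A, Nx (W i) (W i) = 0) ∧
    ∀ i ∈ A, ∀ j ∈ A, i ≠ j → Nx (W i) (W j) ≤ cst D mid i j

omit [Fintype V] in
theorem out_eq' (e : Sym2 V) : s(e.out.1, e.out.2) = e := e.out_eq

/-- from a family to one in general position -/
theorem fam_gp {G : SimpleGraph V} (D : Drawing G) (mid : Sym2 V → V) (A : Finset (Sym2 V))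
    (loc : V → ℂ) (W : Sym2 V → List ℂ) (hP : PL A W)
    (hL : Lb A (fun e => e.out.1) (fun e => e.out.2) loc W)
    (hN : ∀ i ∈ A, ∀ j ∈ A, i ≠ j → Nx (W i) (W j) ≤ cst D mid i j) : Fam D mid A := by
  obtain ⟨φ, hφ, hP1, hO1, hT1, hN1⟩ := p_GP (Sym2 V) A W hP
  have hL1 := GOOD.lb_map hL hφ
  obtain ⟨W2, hP2, hO2, hT2, hE2, hS2, hN2⟩ := t_SIMP (Sym2 V) A _ hP1 hO1 hT1
  have hL2 := GOOD.lb_of hL1 hE2
  exact ⟨_, W2, hP2, hO2, hL2, hS2, fun i hi j hj hij =>
    (hN2 i hi j hj).trans ((hN1 i hi j hj).trans (hN i hi j hj hij))⟩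

theorem fam_base {G : SimpleGraph V} (D : Drawing G) (mid : Sym2 V → V)
    (hfin : D.crossings.Finite) : Fam D mid (eF G) := by
  obtain ⟨W0, hP0, hL0, hN0⟩ := p_T1 V G D (fun e => e.out.1) (fun e => e.out.2) hfin
    (fun e _ => e.out_eq)
  refine fam_gp D mid (eF G) D.pos W0 hP0 hL0 ?_
  intro i hi j hj hij
  rw [DEL.mem_eF] at hi hj
  rw [cst_edge D mid hi hj]
  exact hN0 i hi j hj hij

theorem fam_step {G : SimpleGraph V} (D : Drawing G) (mid : Sym2 V → V)
    (hg : Good D) (A : Finset (Sym2 V)) (hA : eF G ⊆ A) (hF : Fam D mid A)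
    (g : Sym2 V) (hgA : g ∉ A) (hgd : ¬ g.IsDiag) (hadj : ∀ v ∈ g, G.Adj v (mid g)) :
    Fam D mid (insert g A) := by
  obtain ⟨loc, W, hP, hO, hL, hS, hN⟩ := hF
  obtain ⟨a, b, hab⟩ : ∃ a b, a = g.out.1 ∧ b = g.out.2 := ⟨_, _, rfl, rfl⟩
  have hgab : g = s(a, b) := by rw [hab.1, hab.2]; exact (out_eq' g).symm
  have hne : a ≠ b := by
    intro h
    apply hgd
    rw [hgab, h]
    simp
  obtain ⟨w, hw⟩ : ∃ w, w = mid g := ⟨_, rfl⟩
  have haw : G.Adj a w := by rw [hw]; exact hadj a (by rw [hgab]; simp)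
  have hbw : G.Adj b w := by rw [hw]; exact hadj b (by rw [hgab]; simp)
  have hr1 : s(a, w) ∈ eF G := DEL.mem_eF.2 haw
  have hr2 : s(b, w) ∈ eF G := DEL.mem_eF.2 hbw
  have hr12 : s(a, w) ≠ s(b, w) := by
    intro h
    rcases Sym2.eq_iff.1 h with h | h
    · exact hne h.1
    · exact haw.ne h.1
  have hgE : g ∉ G.edgeSet := fun h => hgA (hA (DEL.mem_eF.2 h))
  -- orientation
  have orient : ∀ x y : V, x ≠ y → s(x, y) ∈ A → ∃ L : List ℂ,
      (L = W s(x, y) ∨ L = (W s(x, y)).reverse) ∧ L.head? = some (loc x) ∧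
        L.getLast? = some (loc y) := by
    intro x y hxy hA'
    have h1 := hL.head _ hA'
    have h2 := hL.last _ hA'
    rcases Sym2.eq_iff.1 (out_eq' s(x, y)) with ⟨h3, h4⟩ | ⟨h3, h4⟩
    · refine ⟨_, Or.inl rfl, ?_, ?_⟩
      · rw [h1, h3]
      · rw [h2, h4]
    · refine ⟨_, Or.inr rfl, ?_, ?_⟩
      · rw [List.head?_reverse, h2, h4]
      · rw [List.getLast?_reverse, h1, h3]
  obtain ⟨L1, hL1, k1, k2⟩ := orient a w haw.ne (hA hr1)
  obtain ⟨L2, hL2, k3, k4⟩ := orient b w hbw.ne (hA hr2)
  have hlab : ∀ i : Sym2 V, s(i.out.1, i.out.2) = i := fun i => out_eq' i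
  have hinj : ∀ i ∈ A, ∀ j ∈ A, ∀ u ∈ i, ∀ v ∈ j, loc u = loc v → u = v := by
    intro i hi j hj u hu v hv h
    exact hL.inj i hi j hj u (by rw [hlab]; exact hu) v (by rw [hlab]; exact hv) h
  have hlocab : loc a ≠ loc b := by
    intro h
    exact hne (hinj _ (hA hr1) _ (hA hr2) a (by simp) b (by simp) h)
  have n12 : Nx (W s(a, w)) (W s(b, w)) = 0 := by
    have h1 := hN _ (hA hr1) _ (hA hr2) hr12
    rw [cst_edge D mid haw hbw] at h1
    have h2 : DX D s(a, w) s(b, w) = 0 := by
      unfold DX
      rw [if_pos ⟨haw, hbw, hr12⟩, hg _ haw _ hbw hr12 w (by simp) (by simp), Set.ncard_empty]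
    omega
  obtain ⟨l, l1, l2, l3, l4, l5, l6⟩ := par_list A W hP hO _ _ (hA hr1) (hA hr2) hr12
    (loc a) (loc w) (loc b) hlocab L1 L2.reverse hL1
    (by
      rcases hL2 with h | h
      · right; rw [h]
      · left; rw [h, List.reverse_reverse]) k1 k2
    (by rw [List.head?_reverse]; exact k4) (by rw [List.getLast?_reverse]; exact k3)
    (hS _ (hA hr1)) (hS _ (hA hr2)) n12
  -- the new family
  set W' : Sym2 V → List ℂ := Function.update W g l with hW'
  have hWg : W' g = l := Function.update_self _ _ _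
  have hWi : ∀ i ∈ A, W' i = W i := by
    intro i hi
    exact Function.update_of_ne (by rintro rfl; exact hgA hi) _ _
  have hP' : PL (insert g A) W' := by
    refine ⟨?_, ?_, ?_⟩
    · intro i hi
      rcases Finset.mem_insert.1 hi with rfl | hi
      · rw [hWg]; exact l1
      · rw [hWi i hi]; exact hP.len i hi
    · intro i hi
      rcases Finset.mem_insert.1 hi with rfl | hi
      · rw [hWg]; exact l2
      · rw [hWi i hi]; exact hP.nd i hi
    · intro i hi j hj hij q hq hq'
      rcases Finset.mem_insert.1 hi with hi' | hi'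
      · rcases Finset.mem_insert.1 hj with hj' | hj'
        · exact absurd (hi'.trans hj'.symm) hij
        · subst hi'
          rw [hWg] at hq ⊢
          rw [hWi j hj'] at hq' ⊢
          exact l5 j hj' q hq hq'
      · rcases Finset.mem_insert.1 hj with hj' | hj'
        · subst hj'
          rw [hWg] at hq' ⊢
          rw [hWi i hi'] at hq ⊢
          exact (l5 i hi' q hq' hq).symm
        · rw [hWi i hi'] at hq ⊢
          rw [hWi j hj'] at hq' ⊢
          exact hP.sep i hi' j hj' hij q hq hq'
  have hL' : Lb (insert g A) (fun e => e.out.1) (fun e => e.out.2) loc W' := by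
    refine ⟨?_, ?_, ?_⟩
    · intro i hi j hj u hu v hv huv
      have hu' : u ∈ i := by rw [← out_eq' i]; exact hu
      have hv' : v ∈ j := by rw [← out_eq' j]; exact hv
      have hred : ∀ i ∈ insert g A, ∀ u ∈ i, ∃ i' ∈ A, u ∈ i' := by
        intro i hi u hu
        rcases Finset.mem_insert.1 hi with h | h
        · rw [h, hgab, Sym2.mem_iff] at hu
          rcases hu with rfl | rfl
          · exact ⟨_, hA hr1, by simp⟩
          · exact ⟨_, hA hr2, by simp⟩
        · exact ⟨i, h, hu⟩
      obtain ⟨i', hi', hui⟩ := hred i hi u hu'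
      obtain ⟨j', hj', hvj⟩ := hred j hj v hv'
      exact hinj i' hi' j' hj' u hui v hvj huv
    · intro i hi
      rcases Finset.mem_insert.1 hi with rfl | hi
      · rw [hWg, l3, hab.1]
      · rw [hWi i hi]; exact hL.head i hi
    · intro i hi
      rcases Finset.mem_insert.1 hi with rfl | hi
      · rw [hWg, l4, hab.2]
      · rw [hWi i hi]; exact hL.last i hi
  have hkey : ∀ j ∈ A, Nx l (W j) ≤ cst D mid g j := by
    intro j hj
    refine (l6 j hj).trans ?_
    by_cases hjr : j = s(a, w) ∨ j = s(b, w)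
    · rw [if_pos hjr]; exact Nat.zero_le _
    · rw [if_neg hjr]
      push Not at hjr
      have b1 := hN _ (hA hr1) j hj hjr.1.symm
      have b2 := hN _ (hA hr2) j hj hjr.2.symm
      have p1 : pth G mid s(a, w) = {s(a, w)} := by
        unfold pth; rw [if_pos (show s(a, w) ∈ G.edgeSet from haw)]
      have p2 : pth G mid s(b, w) = {s(b, w)} := by
        unfold pth; rw [if_pos (show s(b, w) ∈ G.edgeSet from hbw)]
      have p3 : pth G mid g = {s(a, w), s(b, w)} := by
        unfold pth
        rw [if_neg hgE, ← hw, hgab]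
        ext x
        simp only [Finset.mem_image, Sym2.mem_toFinset, Sym2.mem_iff, Finset.mem_insert,
          Finset.mem_singleton]
        constructor
        · rintro ⟨v, rfl | rfl, rfl⟩
          · exact Or.inl rfl
          · exact Or.inr rfl
        · rintro (rfl | rfl)
          · exact ⟨a, Or.inl rfl, rfl⟩
          · exact ⟨b, Or.inr rfl, rfl⟩
      unfold cst at b1 b2 ⊢
      rw [p1, Finset.sum_singleton] at b1
      rw [p2, Finset.sum_singleton] at b2
      rw [p3, Finset.sum_pair hr12]
      have hloc : lcc G mid s(a, w) j + lcc G mid s(b, w) j +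
          (if loc w ∈ W j then 2 else 0) ≤ lcc G mid g j := by
        have g1 : loc w ∈ W j → w ∈ j := by
          intro h
          have h1 : loc w ∈ W s(a, w) := by
            have := lb_en' hL (hA hr1) (v := w) (by rw [hlab]; simp)
            exact this
          have h2 := (hP.sep _ (hA hr1) j hj hjr.1.symm _ h1 h).2
          obtain ⟨u, hu, hu'⟩ := GOOD.en_lb hL hj h2
          have hu2 : u ∈ j := by rw [← out_eq' j]; exact hu
          have := hinj j hj _ (hA hr1) u hu2 w (by simp) hu'
          rw [← this]; exact hu2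
        have e1 : s(a, w) ∈ G.edgeSet := haw
        have e2 : s(b, w) ∈ G.edgeSet := hbw
        unfold lcc
        simp only [e1, e2, hgE, not_true_eq_false, false_and, if_false, not_false_eq_true,
          true_and, and_false, zero_add, add_zero, ← hw]
        have g2 : (if loc w ∈ W j then 2 else 0) ≤ (if w ∈ j then 2 else 0) := by
          by_cases h : loc w ∈ W j
          · rw [if_pos h, if_pos (g1 h)]
          · rw [if_neg h]; exact Nat.zero_le _
        by_cases hjE : j ∈ G.edgeSet
        · simp only [hjE, not_true_eq_false, false_and, if_false, zero_add, add_zero]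
          exact g2
        · simp only [hjE, not_false_eq_true, true_and]
          by_cases hmw : mid j = w
          · have q1 : mid j ∈ s(a, w) := by rw [hmw]; simp
            have q2 : mid j ∈ s(b, w) := by rw [hmw]; simp
            rw [if_pos q1, if_pos q2, if_pos hmw.symm]
            omega
          · have q3 : (if mid j ∈ s(a, w) then 2 else 0) + (if mid j ∈ s(b, w) then 2 else 0) ≤
                (if mid j ∈ g then 2 else 0) := by
              by_cases h1 : mid j = a
              · have h2 : mid j ∉ s(b, w) := by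
                  rw [Sym2.mem_iff, h1]
                  rintro (h | h)
                  · exact hne h
                  · exact haw.ne h
                have h3 : mid j ∈ g := by rw [hgab, h1]; simp
                rw [if_neg h2, if_pos h3]
                split_ifs <;> omega
              · have h2 : mid j ∉ s(a, w) := by
                  rw [Sym2.mem_iff]
                  rintro (h | h)
                  · exact h1 h
                  · exact hmw h
                rw [if_neg h2, zero_add]
                by_cases h3 : mid j ∈ s(b, w)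
                · have h4 : mid j = b := by
                    rw [Sym2.mem_iff] at h3
                    rcases h3 with h | h
                    · exact h
                    · exact absurd h hmw
                  have h5 : mid j ∈ g := by rw [hgab, h4]; simp
                  rw [if_pos h3, if_pos h5]
                · rw [if_neg h3]; exact Nat.zero_le _
            have q4 : ¬ (w = mid j) := fun h => hmw h.symm
            rw [if_neg q4]
            omega
      omega
  refine fam_gp D mid (insert g A) loc W' hP' hL' ?_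
  intro i hi j hj hij
  rcases Finset.mem_insert.1 hi with hi' | hi'
  · rcases Finset.mem_insert.1 hj with hj' | hj'
    · exact absurd (hi'.trans hj'.symm) hij
    · subst hi'
      rw [hWg, hWi j hj']
      exact hkey j hj'
  · rcases Finset.mem_insert.1 hj with hj' | hj'
    · subst hj'
      rw [hWg, hWi i hi', Nx_comm, cst_comm]
      exact hkey i hi'
    · rw [hWi i hi', hWi j hj']
      exact hN i hi' j hj' hij

theorem fam_all {G : SimpleGraph V} (D : Drawing G) (mid : Sym2 V → V)
    (hfin : D.crossings.Finite) (hg : Good D) (R : Finset (Sym2 V))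
    (hR1 : ∀ g ∈ R, g ∉ G.edgeSet) (hR2 : ∀ g ∈ R, ¬ g.IsDiag)
    (hR3 : ∀ g ∈ R, ∀ v ∈ g, G.Adj v (mid g)) : Fam D mid (eF G ∪ R) := by
  induction R using Finset.induction_on with
  | empty => rw [Finset.union_empty]; exact fam_base D mid hfin
  | insert g R hgR ih =>
    have ih' := ih (fun x hx => hR1 x (Finset.mem_insert_of_mem hx))
      (fun x hx => hR2 x (Finset.mem_insert_of_mem hx))
      (fun x hx => hR3 x (Finset.mem_insert_of_mem hx))
    rw [Finset.union_insert]
    refine fam_step D mid hg _ Finset.subset_union_left ih' g ?_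
      (hR2 g (Finset.mem_insert_self _ _)) (hR3 g (Finset.mem_insert_self _ _))
    rw [Finset.mem_union, not_or]
    exact ⟨fun h => hR1 g (Finset.mem_insert_self _ _) (DEL.mem_eF.1 h), hgR⟩

/-- **Rerouting.** -/
theorem reroute {G : SimpleGraph V} (D : Drawing G) (mid : Sym2 V → V)
    (hfin : D.crossings.Finite) (hg : Good D) (G' : SimpleGraph V)
    (h : ∀ e ∈ eF G', e ∉ G.edgeSet → ∀ v ∈ e, G.Adj v (mid e)) :
    2 * crossingNumber G' ≤ ∑ e ∈ eF G', ∑ f ∈ (eF G').erase e, cst D mid e f := by
  set R := (eF G').filter (fun e => e ∉ G.edgeSet) with hR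
  obtain ⟨loc, W, hP, hO, hL, -, hN⟩ := fam_all D mid hfin hg R
    (fun g hg' => (Finset.mem_filter.1 hg').2)
    (fun g hg' => by
      have := DEL.mem_eF.1 (Finset.mem_filter.1 hg').1
      exact G'.not_isDiag_of_mem_edgeSet this)
    (fun g hg' => h g (Finset.mem_filter.1 hg').1 (Finset.mem_filter.1 hg').2)
  have hsub : eF G' ⊆ eF G ∪ R := by
    intro e he
    rw [Finset.mem_union]
    by_cases h1 : e ∈ G.edgeSet
    · exact Or.inl (DEL.mem_eF.2 h1)
    · exact Or.inr (Finset.mem_filter.2 ⟨he, h1⟩)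
  obtain ⟨D', hf', hD'⟩ := p_T3 V G' (fun e => e.out.1) (fun e => e.out.2) loc W
    (fun e _ => out_eq' e) (IIa.PL_mono hP hsub) (IIa.PO_mono hO hsub) (IIa.Lb_mono hL hsub)
  have h1 := GOOD.cr_le D' hf'
  have h2 := (t_CNT V G' D').2 hf'
  rw [GOOD.sumDX] at h2
  have h3 : ∑ e ∈ eF G', ∑ f ∈ eF G', (if e = f then 0 else DX D' e f) ≤
      ∑ e ∈ eF G', ∑ f ∈ (eF G').erase e, cst D mid e f := by
    refine Finset.sum_le_sum fun e he => ?_
    rw [← Finset.add_sum_erase (eF G') _ he, if_pos rfl, zero_add]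
    refine Finset.sum_le_sum fun f hf => ?_
    obtain ⟨hfe, hf⟩ := Finset.mem_erase.1 hf
    rw [if_neg (Ne.symm hfe)]
    exact (hD' e (DEL.mem_eF.1 he) f (DEL.mem_eF.1 hf) (Ne.symm hfe)).trans
      (hN e (hsub he) f (hsub hf) (Ne.symm hfe))
  omega

end Pool.Agent.H466.AL
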