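import Pool.Agent.H466.AL.Half

set_option autoImplicit false

/-!
Edge bounds: plane graphs, graphs drawn with at most one crossing per edge, and the resulting
lower bound on crossing numbers.
-/

open Set Classical
open Pool.Agent.Helper770.Crossing Pool.Agent.NH90.CN
open Pool.Agent.Helper531_Thick (IsPlane plane_bip plane_bip6)
open Pool.Agent.Helper770.Levels (inside inside_le restrict restrict_crossings_subset)

namespace Pool.Agent.H466.AL

variable {V : Type} [Fintype V]

theorem planar_bound {G : SimpleGraph V} (D : Drawing G) (h : D.crossings = ∅)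
    (hn : 3 ≤ Fintype.card V) : (eF G).card + 6 ≤ 3 * Fintype.card V := by
  have hno : ∀ e ∈ G.edgeSet, ∀ e' ∈ G.edgeSet, e ≠ e' → ∀ y, y ∈ D.arc e '' Ioo (0 : ℝ) 1 →
      y ∈ D.arc e' '' Ioo (0 : ℝ) 1 → False := by
    intro e he e' he' hne y h1 h2
    have : ((s(e, e'), y) : Sym2 (Sym2 V) × ℂ) ∈ D.crossings := ⟨e, he, e', he', hne, rfl, h1, h2⟩
    rw [h] at this
    exact this
  have hhalf : (1 / 2 : ℝ) ∈ Ioo (0 : ℝ) 1 := ⟨by norm_num, by norm_num⟩
  let B := {e : Sym2 V // e ∈ eF G}
  have hB : ∀ b : B, b.1 ∈ G.edgeSet := fun b => DEL.mem_eF.1 b.2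
  have hpl : IsPlane (hg (fun b : B => ({b.1} : Set (Sym2 V)))) := by
    refine hg_plane D (fun b => D.arc b.1 (1 / 2)) ?_ _ ?_ ?_ ?_ ?_
    · intro b b' hbb
      by_contra hne
      exact hno _ (hB b) _ (hB b') (fun h' => hne (Subtype.ext h')) _ ⟨1 / 2, hhalf, rfl⟩
        ⟨1 / 2, hhalf, hbb.symm⟩
    · intro b
      exact ⟨b.1, rfl⟩
    · intro b e he
      rw [Set.mem_singleton_iff] at he
      subst he
      exact ⟨hB b, 1 / 2, hhalf, rfl⟩
    · intro b b' e he e' he' hne y h1 h2
      rw [Set.mem_singleton_iff] at he he'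
      subst he; subst he'
      exact absurd (hno _ (hB b) _ (hB b') hne y h1 h2) id
    · intro b b' e he he'
      rw [Set.mem_singleton_iff] at he he'
      exact Subtype.ext (he.symm.trans he')
  let E : Finset (V × B) := Finset.univ.filter (fun p => p.1 ∈ p.2.1)
  have hcard : Fintype.card B = (eF G).card := Fintype.card_coe _
  have hEc : E.card = 2 * (eF G).card := by
    have h1 : E.card = ∑ b : B, (Finset.univ.filter (fun v : V => v ∈ b.1)).card := by
      rw [Finset.card_eq_sum_card_fiberwise (f := Prod.snd) (t := Finset.univ)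
        (fun _ _ => Finset.mem_univ _)]
      refine Finset.sum_congr rfl fun b _ => ?_
      refine Finset.card_bij (fun p _ => p.1) ?_ ?_ ?_
      · rintro ⟨v, b'⟩ hp
        simp only [E, Finset.mem_filter, Finset.mem_univ, true_and] at hp ⊢
        obtain ⟨hp1, rfl⟩ := hp
        exact hp1
      · rintro ⟨v, b1⟩ hp ⟨v', b2⟩ hp' hvv
        simp only [Finset.mem_filter] at hp hp' hvv
        rw [hvv, hp.2, ← hp'.2]
      · intro v hv
        simp only [Finset.mem_filter, Finset.mem_univ, true_and] at hv
        exact ⟨(v, b), by simp [E, hv], rfl⟩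
    rw [h1, ← hcard]
    rw [Finset.sum_const_nat (m := 2), Finset.card_univ, mul_comm]
    rintro ⟨b, hb⟩ _
    simp only
    have hb' := DEL.mem_eF.1 hb
    induction b with
    | _ x y =>
      have hxy : x ≠ y := (show G.Adj x y from hb').ne
      have : Finset.univ.filter (fun v : V => v ∈ s(x, y)) = {x, y} := by
        ext v; simp
      rw [this, Finset.card_pair hxy]
  by_cases hm : (eF G).card = 0
  · omega
  have := plane_bip6 _ hpl E (by
    intro p hp
    rw [hg_adj]
    exact ⟨p.2.1, rfl, (Finset.mem_filter.1 hp).2⟩) (by rw [hcard]; omega) (by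
    intro a a' b b' haa hbb h1 h2 h3 h4
    simp only [E, Finset.mem_filter, Finset.mem_univ, true_and] at h1 h2 h3 h4
    apply hbb
    apply Subtype.ext
    rw [(Sym2.mem_and_mem_iff haa).1 ⟨h1, h2⟩, (Sym2.mem_and_mem_iff haa).1 ⟨h3, h4⟩])
  rw [hcard, hEc] at this
  omega

theorem eF_deleteEdges (G : SimpleGraph V) {e : Sym2 V} (he : e ∈ eF G) :
    (eF (G.deleteEdges {e})).card + 1 = (eF G).card := by
  have heF : eF (G.deleteEdges {e}) = (eF G).erase e := by
    ext g
    rw [DEL.mem_eF, Finset.mem_erase, DEL.mem_eF, SimpleGraph.edgeSet_deleteEdges]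
    simp only [Set.mem_sdiff, Set.mem_singleton_iff]
    tauto
  rw [heF, Finset.card_erase_add_one he]

omit [Fintype V] in
theorem not_mem_deleted {G : SimpleGraph V} (D : Drawing G) (e : Sym2 V)
    (hle : G.deleteEdges {e} ≤ G) (x : Sym2 (Sym2 V) × ℂ) (hx : x ∈ (restrict D hle).crossings) :
    e ∉ x.1 := by
  obtain ⟨a, ha, b, hb, -, hxe, -, -⟩ := hx
  rw [hxe, Sym2.mem_iff]
  rw [SimpleGraph.edgeSet_deleteEdges] at ha hb
  rintro (rfl | rfl)
  · exact ha.2 rfl
  · exact hb.2 rfl

theorem del_bound (hn : 3 ≤ Fintype.card V) : ∀ (k : ℕ) (G : SimpleGraph V)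
    (D : Drawing G), (eF G).card = k → D.crossings.Finite →
    (eF G).card + 6 ≤ 3 * Fintype.card V + D.crossings.ncard := by
  intro k
  induction k with
  | zero =>
    intro G D hk _
    omega
  | succ k ih =>
    intro G D hk hfin
    by_cases hex : D.crossings = ∅
    · have := planar_bound D hex hn
      omega
    · obtain ⟨x, hx⟩ := Set.nonempty_iff_ne_empty.2 hex
      obtain ⟨e, he, f, hf, hef, hxe, -, -⟩ := id hx
      have hle : G.deleteEdges {e} ≤ G := SimpleGraph.deleteEdges_le _
      have h1 := eF_deleteEdges G (DEL.mem_eF.2 he)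
      have h2 := ih (G.deleteEdges {e}) (restrict D hle) (by omega)
        (hfin.subset (restrict_crossings_subset D hle))
      have h3 : (restrict D hle).crossings ⊆ D.crossings \ {x} := by
        intro y hy
        refine ⟨restrict_crossings_subset D hle hy, ?_⟩
        rintro rfl
        exact not_mem_deleted D e hle _ hy (by rw [hxe]; simp)
      have h4 := Set.ncard_le_ncard h3 (hfin.subset diff_subset)
      have h5 := Set.ncard_diff_singleton_add_one hx hfin
      omega

theorem cross_bound {G : SimpleGraph V} (D : Drawing G) (hfin : D.crossings.Finite)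
    (hg' : Good D)
    (H : ∀ e, ∀ x ∈ D.crossings, ∀ y ∈ D.crossings, e ∈ x.1 → e ∈ y.1 → x = y)
    (hn : 3 ≤ Fintype.card V) : D.crossings.ncard + 2 ≤ Fintype.card V := by
  let B := {x : Sym2 (Sym2 V) × ℂ // x ∈ hfin.toFinset}
  have hB : ∀ b : B, b.1 ∈ D.crossings := fun b => hfin.mem_toFinset.1 b.2
  have hmem : ∀ x ∈ D.crossings, ∀ e ∈ x.1, e ∈ G.edgeSet ∧ x.2 ∈ D.arc e '' Ioo (0 : ℝ) 1 := by
    rintro x ⟨a, ha, b, hb, -, hxe, h1, h2⟩ e he
    rw [hxe, Sym2.mem_iff] at he
    rcases he with rfl | rfl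
    · exact ⟨ha, h1⟩
    · exact ⟨hb, h2⟩
  have hex : ∀ x ∈ D.crossings, ∃ e, e ∈ x.1 := by
    rintro x ⟨a, ha, b, hb, -, hxe, -⟩
    exact ⟨a, by rw [hxe]; simp⟩
  have key : ∀ x ∈ D.crossings, ∀ e ∈ x.1, ∀ e' ∈ G.edgeSet, e ≠ e' → ∀ y,
      y ∈ D.arc e '' Ioo (0 : ℝ) 1 → y ∈ D.arc e' '' Ioo (0 : ℝ) 1 → x.2 = y ∧ e' ∈ x.1 := by
    intro x hx e he e' he' hne y h1 h2
    have h3 : ((s(e, e'), y) : Sym2 (Sym2 V) × ℂ) ∈ D.crossings :=
      ⟨e, (hmem x hx e he).1, e', he', hne, rfl, h1, h2⟩
    have h4 := H e x hx _ h3 he (by simp)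
    rw [h4]
    exact ⟨rfl, by simp⟩
  have hpl : IsPlane (hg (fun b : B => {e | e ∈ b.1.1})) := by
    refine hg_plane D (fun b => b.1.2) ?_ _ ?_ ?_ ?_ ?_
    · intro b b' hbb
      simp only at hbb
      apply Subtype.ext
      obtain ⟨e, he⟩ := hex _ (hB b)
      obtain ⟨e', he'⟩ := hex _ (hB b')
      by_cases hee : e = e'
      · subst hee
        exact H e _ (hB b) _ (hB b') he he'
      · have h1 := hmem _ (hB b) e he
        have h2 := hmem _ (hB b') e' he'
        rw [← hbb] at h2
        have h3 := key _ (hB b) e he e' h2.1 hee _ h1.2 h2.2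
        exact H e' _ (hB b) _ (hB b') h3.2 he'
    · intro b
      exact hex _ (hB b)
    · intro b e he
      exact hmem _ (hB b) e he
    · intro b b' e he e' he' hne y h1 h2
      exact (key _ (hB b) e he e' (hmem _ (hB b') e' he').1 hne y h1 h2).1.symm
    · intro b b' e he he'
      exact Subtype.ext (H e _ (hB b) _ (hB b') he he')
  let E : Finset (V × B) := Finset.univ.filter (fun p => ∃ e ∈ p.2.1.1, p.1 ∈ e)
  have hcard : Fintype.card B = D.crossings.ncard := by
    rw [Set.ncard_eq_toFinset_card _ hfin]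
    exact Fintype.card_coe _
  have hEc : E.card = 4 * D.crossings.ncard := by
    have h1 : E.card = ∑ b : B,
        (Finset.univ.filter (fun v : V => ∃ e ∈ b.1.1, v ∈ e)).card := by
      rw [Finset.card_eq_sum_card_fiberwise (f := Prod.snd) (t := Finset.univ)
        (fun _ _ => Finset.mem_univ _)]
      refine Finset.sum_congr rfl fun b _ => ?_
      refine Finset.card_bij (fun p _ => p.1) ?_ ?_ ?_
      · rintro ⟨v, b'⟩ hp
        simp only [E, Finset.mem_filter, Finset.mem_univ, true_and] at hp ⊢
        obtain ⟨hp1, rfl⟩ := hp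
        exact hp1
      · rintro ⟨v, b1⟩ hp ⟨v', b2⟩ hp' hvv
        simp only [Finset.mem_filter] at hp hp' hvv
        rw [hvv, hp.2, ← hp'.2]
      · intro v hv
        simp only [Finset.mem_filter, Finset.mem_univ, true_and] at hv
        exact ⟨(v, b), by simp only [E, Finset.mem_filter, Finset.mem_univ, true_and]; exact ⟨hv, trivial⟩, rfl⟩
    rw [h1, ← hcard]
    rw [Finset.sum_const_nat (m := 4), Finset.card_univ, mul_comm]
    intro b _
    obtain ⟨e, he, f, hf, hef, hxe, h2, h3⟩ := hB b
    have hd : ∀ v, v ∈ e → v ∉ f := by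
      intro v hv hv'
      have := hg' e he f hf hef v hv hv'
      have h4 : b.1.2 ∈ D.arc e '' Ioo (0 : ℝ) 1 ∩ D.arc f '' Ioo (0 : ℝ) 1 := ⟨h2, h3⟩
      rw [this] at h4
      exact h4
    induction e with
    | _ a1 a2 =>
      induction f with
      | _ c1 c2 =>
        have h12 : a1 ≠ a2 := (show G.Adj a1 a2 from he).ne
        have h34 : c1 ≠ c2 := (show G.Adj c1 c2 from hf).ne
        have n1 := hd a1 (by simp)
        have n2 := hd a2 (by simp)
        rw [Sym2.mem_iff, not_or] at n1 n2
        have : Finset.univ.filter (fun v : V => ∃ e ∈ b.1.1, v ∈ e) = {a1, a2, c1, c2} := by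
          ext v
          simp only [Finset.mem_filter, Finset.mem_univ, true_and, Finset.mem_insert,
            Finset.mem_singleton]
          rw [hxe]
          simp only [Sym2.mem_iff, exists_eq_or_imp, exists_eq_left]
          tauto
        rw [this, Finset.card_insert_of_notMem, Finset.card_insert_of_notMem,
          Finset.card_pair h34]
        · simp only [Finset.mem_insert, Finset.mem_singleton, not_or]
          exact n2
        · simp only [Finset.mem_insert, Finset.mem_singleton, not_or]
          exact ⟨h12, n1⟩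
  have := plane_bip _ hpl E (by
    intro p hp
    rw [hg_adj]
    exact (Finset.mem_filter.1 hp).2) (by omega)
  rw [hcard, hEc] at this
  omega

theorem one_pl_bound (hn : 3 ≤ Fintype.card V) : ∀ (k : ℕ) (G : SimpleGraph V)
    (D : Drawing G), (eF G).card = k → D.crossings.Finite → Good D →
    2 * (eF G).card + 14 ≤ 7 * Fintype.card V + D.crossings.ncard := by
  intro k
  induction k with
  | zero =>
    intro G D hk _ _
    omega
  | succ k ih =>
    intro G D hk hfin hgood
    by_cases H : ∀ e, ∀ x ∈ D.crossings, ∀ y ∈ D.crossings, e ∈ x.1 → e ∈ y.1 → x = y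
    · have h1 := cross_bound D hfin hgood H hn
      have h2 := del_bound hn _ G D rfl hfin
      omega
    · push Not at H
      obtain ⟨e, x, hx, y, hy, hex, hey, hxy⟩ := H
      have he : e ∈ G.edgeSet := by
        obtain ⟨a, ha, b, hb, -, hxe, -, -⟩ := id hx
        rw [hxe, Sym2.mem_iff] at hex
        rcases hex with rfl | rfl
        · exact ha
        · exact hb
      have hle : G.deleteEdges {e} ≤ G := SimpleGraph.deleteEdges_le _
      have h1 := eF_deleteEdges G (DEL.mem_eF.2 he)
      have hgood' : Good (restrict D hle) := by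
        intro a ha b hb hab v hva hvb
        exact hgood a (SimpleGraph.edgeSet_mono hle ha) b (SimpleGraph.edgeSet_mono hle hb) hab v
          hva hvb
      have h2 := ih (G.deleteEdges {e}) (restrict D hle) (by omega)
        (hfin.subset (restrict_crossings_subset D hle)) hgood'
      have h3 : (restrict D hle).crossings ⊆ (D.crossings \ {x}) \ {y} := by
        intro w hw
        refine ⟨⟨restrict_crossings_subset D hle hw, ?_⟩, ?_⟩
        · rintro rfl
          exact not_mem_deleted D e hle _ hw hex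
        · rintro rfl
          exact not_mem_deleted D e hle _ hw hey
      have h4 := Set.ncard_le_ncard h3 ((hfin.subset diff_subset).subset diff_subset)
      have h5 := Set.ncard_diff_singleton_add_one hx hfin
      have h6 := Set.ncard_diff_singleton_add_one (show y ∈ D.crossings \ {x} from
        ⟨hy, fun h => hxy h.symm⟩) (hfin.subset diff_subset)
      omega

/-- the lower bound on the crossing number -/
theorem cr_ge (G : SimpleGraph V) (hn : 3 ≤ Fintype.card V) :
    2 * (eF G).card + 14 ≤ 7 * Fintype.card V + crossingNumber G := by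
  obtain ⟨D, h1, h2, h3⟩ := p_GOOD V G
  have := one_pl_bound hn _ G D rfl h1 h2
  omega

end Pool.Agent.H466.AL
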