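import Pool.Agent.H466.AL.Main

set_option autoImplicit false

/-!
Albertson's conjecture for graphs of independence number at most two and all large `t`.
-/

open Pool.Agent.Helper770.Crossing

namespace Pool.Agent.H466.AL.AlphaTwo

/-- There is `t₀` such that for all `t ≥ t₀`, every finite graph with independence number at most
two and chromatic number at least `t` has crossing number at least that of `K_t`. -/
theorem result : ∃ t₀ : ℕ, ∀ t : ℕ, t₀ ≤ t → ∀ (V : Type) [Fintype V] (G : SimpleGraph V),
    G.indepNum ≤ 2 → (t : ℕ∞) ≤ G.chromaticNumber →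
      crossingNumber (⊤ : SimpleGraph (Fin t)) ≤ crossingNumber G := by
  obtain ⟨t₀, h⟩ := Pool.Agent.H466.AL.alpha_two
  refine ⟨t₀, fun t ht V _ G hG hχ => h t ht V G ?_ hχ⟩
  intro x y z hxy hxz hyz
  by_contra hno
  push Not at hno
  classical
  have hind : G.IsIndepSet (({x, y, z} : Finset V) : Set V) := by
    intro a ha b hb hab
    simp only [Finset.coe_insert, Finset.coe_singleton, Set.mem_insert_iff,
      Set.mem_singleton_iff] at ha hb
    rcases ha with rfl | rfl | rfl <;> rcases hb with rfl | rfl | rfl
    · exact absurd rfl hab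
    · exact hno.1
    · exact hno.2.1
    · exact fun h' => hno.1 h'.symm
    · exact absurd rfl hab
    · exact hno.2.2
    · exact fun h' => hno.2.1 h'.symm
    · exact fun h' => hno.2.2 h'.symm
    · exact absurd rfl hab
  have h1 := hind.card_le_indepNum
  have h2 : ({x, y, z} : Finset V).card = 3 := by
    rw [Finset.card_insert_of_notMem, Finset.card_pair hyz]
    simp [hxy, hxz]
  omega

end Pool.Agent.H466.AL.AlphaTwo
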