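import Pool.Agent.H466.AL.Samp

set_option autoImplicit false

/-!
Lower bounds from the cliques formed by the non-neighbours of a vertex, in graphs without
independent triples, together with part of a set of universal vertices.
-/

open Set Classical
open Pool.Agent.Helper770.Crossing Pool.Agent.NH90.CN
open Pool.Agent.Helper770.Levels (inside inside_le)

namespace Pool.Agent.H466.AL

variable {V : Type}

theorem chs_step (a b j : ℕ) (θ : ℝ) (h0 : 0 ≤ θ) (h1 : θ ≤ 1) (hb : (b : ℝ) ≤ θ * a)
    (hj : j ≤ b) (hba : b ≤ a) :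
    (((a - j).choose (b - j) : ℕ) : ℝ) ≤ θ ^ j * ((a.choose b : ℕ) : ℝ) := by
  induction j with
  | zero => simp
  | succ j ih =>
    have h2 := ih (by omega)
    obtain ⟨m, hm⟩ : ∃ m, a = m + 1 + j := ⟨a - 1 - j, by omega⟩
    obtain ⟨k, hk⟩ : ∃ k, b = k + 1 + j := ⟨b - 1 - j, by omega⟩
    have e1 : a - j = m + 1 := by omega
    have e2 : b - j = k + 1 := by omega
    have e3 : a - (j + 1) = m := by omega
    have e4 : b - (j + 1) = k := by omega
    rw [e1, e2] at h2
    rw [e3, e4]
    have h3 := Nat.add_one_mul_choose_eq m k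
    have h4 : ((m : ℝ) + 1) * (m.choose k : ℕ) = ((m + 1).choose (k + 1) : ℕ) * ((k : ℝ) + 1) := by
      exact_mod_cast h3
    have h5 : (k : ℝ) + 1 ≤ θ * ((m : ℝ) + 1) := by
      rw [hm, hk] at hb
      push_cast at hb
      have hj0 : (0 : ℝ) ≤ j := Nat.cast_nonneg j
      nlinarith
    have h6 : (0 : ℝ) < (m : ℝ) + 1 := by positivity
    have h7 : (0 : ℝ) ≤ ((m + 1).choose (k + 1) : ℕ) := Nat.cast_nonneg _
    have h8 : ((m.choose k : ℕ) : ℝ) ≤ θ * ((m + 1).choose (k + 1) : ℕ) := by
      have h9 : ((m : ℝ) + 1) * (m.choose k : ℕ) ≤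
          ((m : ℝ) + 1) * (θ * ((m + 1).choose (k + 1) : ℕ)) := by
        rw [h4]
        nlinarith
      exact le_of_mul_le_mul_left h9 h6
    rw [pow_succ]
    nlinarith [mul_le_mul_of_nonneg_left h2 h0]

theorem cnt_le (A Q : Finset V) (hQ : Q ⊆ A) (b : ℕ) (θ : ℝ) (h0 : 0 ≤ θ) (h1 : θ ≤ 1)
    (hb : (b : ℝ) ≤ θ * A.card) :
    (((Finset.powersetCard b A).filter (fun S => Q ⊆ S)).card : ℝ) ≤
      θ ^ Q.card * ((A.card.choose b : ℕ) : ℝ) := by
  have hba : b ≤ A.card := by
    have : (b : ℝ) ≤ A.card := hb.trans (by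
      have : (0 : ℝ) ≤ A.card := Nat.cast_nonneg _
      nlinarith)
    exact_mod_cast this
  by_cases hk : Q.card ≤ b
  · rw [cnt_sup A Q hQ b hk]
    exact chs_step _ _ _ θ h0 h1 hb hk hba
  · have : (Finset.powersetCard b A).filter (fun S => Q ⊆ S) = ∅ := by
      rw [Finset.filter_eq_empty_iff]
      intro S hS hQS
      have := Finset.card_le_card hQS
      rw [(Finset.mem_powersetCard.1 hS).2] at this
      omega
    rw [this, Finset.card_empty, Nat.cast_zero]
    positivity

/-- no independent triple -/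
def A2 (G : SimpleGraph V) : Prop :=
  ∀ x y z, x ≠ y → x ≠ z → y ≠ z → G.Adj x y ∨ G.Adj x z ∨ G.Adj y z

variable [Fintype V]

theorem nb_clique {G : SimpleGraph V} (hG : A2 G) (v : V) :
    ∀ x ∈ nb G v, ∀ y ∈ nb G v, x ≠ y → G.Adj x y := by
  intro x hx y hy hxy
  rw [mem_nb] at hx hy
  rcases hG v x y hx.1.symm hy.1.symm hxy with h | h | h
  · exact absurd h hx.2
  · exact absurd h hy.2
  · exact h

theorem cliq (G : SimpleGraph V) (hG : A2 G) (A : Finset V)
    (hA : ∀ a ∈ A, ∀ v, v ≠ a → G.Adj a v) (b : ℕ) (θ : ℝ) (h0 : 0 ≤ θ) (h1 : θ ≤ 1)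
    (hb : (b : ℝ) ≤ θ * A.card) (ρ : V → ℝ) (hρ : ∀ v, 0 ≤ ρ v) (hρA : ∀ v ∈ A, ρ v = 0)
    (M : ℝ) (hM0 : 0 ≤ M) (hM1 : ∀ x ∉ A, ∑ v ∈ nb G x, ρ v ≤ M)
    (hM2 : θ ^ 4 * ∑ v, ρ v ≤ M) :
    ∑ v, ρ v * crossingNumber (K ((nb G v).card + b)) ≤ M * crossingNumber G := by
  have hba : b ≤ A.card := by
    have : (b : ℝ) ≤ A.card := hb.trans (by
      have : (0 : ℝ) ≤ A.card := Nat.cast_nonneg _
      nlinarith)
    exact_mod_cast this
  have hC : (0 : ℝ) < (A.card.choose b : ℕ) := by
    exact_mod_cast Nat.choose_pos hba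
  have hnbA : ∀ v ∉ A, ∀ x ∈ A, x ∉ nb G v := by
    intro v hv x hx hx'
    rw [mem_nb] at hx'
    exact hx'.2 (hA x hx v (fun h => hv (h ▸ hx))).symm
  have key := lp G ((Finset.univ : Finset V) ×ˢ Finset.powersetCard b A)
    (fun ω => nb G ω.1 ∪ ω.2) (fun ω => ρ ω.1) ((A.card.choose b : ℕ) * M)
    (fun ω _ => hρ ω.1) (by
      intro x1 x2 x3 x4 h12 h34 h13 h14 h23 h24
      by_cases hU : ∃ x, (x = x1 ∨ x = x2 ∨ x = x3 ∨ x = x4) ∧ x ∉ A
      · obtain ⟨x, hx, hxA⟩ := hU
        calc _ ≤ ∑ ω ∈ (nb G x) ×ˢ Finset.powersetCard b A, ρ ω.1 := by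
              refine Finset.sum_le_sum_of_subset_of_nonneg ?_ (fun ω _ _ => hρ ω.1)
              intro ω hω
              rw [Finset.mem_filter, Finset.mem_product] at hω
              obtain ⟨⟨-, g2⟩, g3, g4, g5, g6⟩ := hω
              rw [Finset.mem_product]
              refine ⟨?_, g2⟩
              have g7 : x ∈ nb G ω.1 ∪ ω.2 := by
                rcases hx with rfl | rfl | rfl | rfl <;> assumption
              rw [Finset.mem_union] at g7
              rcases g7 with g7 | g7
              · exact nb_symm g7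
              · exact absurd ((Finset.mem_powersetCard.1 g2).1 g7) hxA
          _ = (A.card.choose b : ℕ) * ∑ v ∈ nb G x, ρ v := by
              rw [Finset.sum_product, Finset.mul_sum]
              refine Finset.sum_congr rfl fun v _ => ?_
              show ∑ _y ∈ Finset.powersetCard b A, ρ v = _
              rw [Finset.sum_const, Finset.card_powersetCard, nsmul_eq_mul]
          _ ≤ _ := mul_le_mul_of_nonneg_left (hM1 x hxA) hC.le
      · push Not at hU
        have g1 := hU x1 (Or.inl rfl)
        have g2 := hU x2 (Or.inr (Or.inl rfl))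
        have g3 := hU x3 (Or.inr (Or.inr (Or.inl rfl)))
        have g4 := hU x4 (Or.inr (Or.inr (Or.inr rfl)))
        have h5 : ({x1, x2, x3, x4} : Finset V).card = 4 := by
          rw [Finset.card_insert_of_notMem, Finset.card_insert_of_notMem,
            Finset.card_pair h34.ne]
          · simp [h23, h24]
          · simp [h12.ne, h13, h14]
        have h6 := cnt_le A {x1, x2, x3, x4} (by
          simp only [Finset.insert_subset_iff, Finset.singleton_subset_iff]
          exact ⟨g1, g2, g3, g4⟩) b θ h0 h1 hb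
        rw [h5] at h6
        calc _ ≤ ∑ ω ∈ (Finset.univ : Finset V) ×ˢ ((Finset.powersetCard b A).filter
              (fun S => ({x1, x2, x3, x4} : Finset V) ⊆ S)), ρ ω.1 := by
              rw [← Finset.sum_filter_ne_zero]
              refine Finset.sum_le_sum_of_subset_of_nonneg ?_ (fun ω _ _ => hρ ω.1)
              intro ω hω
              rw [Finset.mem_filter, Finset.mem_filter, Finset.mem_product] at hω
              obtain ⟨⟨⟨-, k2⟩, k3, k4, k5, k6⟩, k7⟩ := hω
              have k8 : ω.1 ∉ A := fun h => k7 (hρA _ h)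
              rw [Finset.mem_product, Finset.mem_filter]
              refine ⟨Finset.mem_univ _, k2, ?_⟩
              simp only [Finset.insert_subset_iff, Finset.singleton_subset_iff]
              have k9 : ∀ x ∈ A, x ∈ nb G ω.1 ∪ ω.2 → x ∈ ω.2 := by
                intro x hx hx'
                rcases Finset.mem_union.1 hx' with h | h
                · exact absurd h (hnbA _ k8 x hx)
                · exact h
              exact ⟨k9 _ g1 k3, k9 _ g2 k4, k9 _ g3 k5, k9 _ g4 k6⟩
          _ = (((Finset.powersetCard b A).filter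
              (fun S => ({x1, x2, x3, x4} : Finset V) ⊆ S)).card : ℝ) * ∑ v, ρ v := by
              rw [Finset.sum_product, Finset.mul_sum]
              refine Finset.sum_congr rfl fun v _ => ?_
              show ∑ _y ∈ (Finset.powersetCard b A).filter
                (fun S => ({x1, x2, x3, x4} : Finset V) ⊆ S), ρ v = _
              rw [Finset.sum_const, nsmul_eq_mul]
          _ ≤ (θ ^ 4 * (A.card.choose b : ℕ)) * ∑ v, ρ v :=
              mul_le_mul_of_nonneg_right h6 (Finset.sum_nonneg fun v _ => hρ v)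
          _ = (A.card.choose b : ℕ) * (θ ^ 4 * ∑ v, ρ v) := by ring
          _ ≤ _ := mul_le_mul_of_nonneg_left hM2 hC.le)
  have h2 : ((A.card.choose b : ℕ) : ℝ) *
      ∑ v, ρ v * crossingNumber (K ((nb G v).card + b)) ≤
      (A.card.choose b : ℕ) * (M * crossingNumber G) := by
    rw [← mul_assoc]
    refine le_trans ?_ key
    rw [Finset.sum_product, Finset.mul_sum]
    refine Finset.sum_le_sum fun v _ => ?_
    by_cases hv : v ∈ A
    · simp [hρA v hv]
    · have h3 : ∀ S ∈ Finset.powersetCard b A,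
          ρ v * crossingNumber (K ((nb G v).card + b)) ≤
            ρ v * crossingNumber (inside G (nb G v ∪ S)) := by
        intro S hS
        obtain ⟨k1, k2⟩ := Finset.mem_powersetCard.1 hS
        have k3 : Disjoint (nb G v) S := by
          rw [Finset.disjoint_left]
          intro x hx hx'
          exact hnbA v hv x (k1 hx') hx
        have k4 := cr_clique (G := G) (nb G v ∪ S) (by
          intro x hx y hy hxy
          rw [Finset.mem_union] at hx hy
          rcases hx with hx | hx
          · rcases hy with hy | hy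
            · exact nb_clique hG v x hx y hy hxy
            · exact (hA y (k1 hy) x hxy).symm
          · exact hA x (k1 hx) y hxy.symm)
        rw [Finset.card_union_of_disjoint k3, k2] at k4
        exact mul_le_mul_of_nonneg_left (by exact_mod_cast k4) (hρ v)
      have h4 := Finset.card_nsmul_le_sum _ _ _ h3
      rw [Finset.card_powersetCard, nsmul_eq_mul] at h4
      exact h4
  exact le_of_mul_le_mul_left h2 hC

end Pool.Agent.H466.AL
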