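import Pool.Agent.H466.AL.Rer
import Pool.Agent.H466.AL.Cliq

set_option autoImplicit false

/-!
Counting for the random choice of a set of branch vertices and of middle vertices.
-/

open Set Classical
open Pool.Agent.Helper770.Crossing Pool.Agent.NH90.CN

namespace Pool.Agent.H466.AL

section functions

variable {ι κ : Type} [Fintype ι] [Fintype κ] [DecidableEq ι]

theorem mcnt1 (g : ι) (w : κ) :
    (Finset.univ.filter (fun m : ι → κ => m g = w)).card * Fintype.card κ ≤
      Fintype.card (ι → κ) := by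
  rw [← Finset.card_univ (α := κ), ← Finset.card_univ (α := ι → κ), ← Finset.card_product]
  refine Finset.card_le_card_of_injOn (fun p => Function.update p.1 g p.2)
    (fun _ _ => Finset.mem_univ _) ?_
  rintro ⟨m, x⟩ hm ⟨m', x'⟩ hm' h
  simp only [Finset.coe_product, Set.mem_prod, Finset.mem_coe, Finset.mem_filter,
    Finset.mem_univ, true_and, and_true] at hm hm'
  simp only at h
  have h1 := congrFun h g
  rw [Function.update_self, Function.update_self] at h1
  refine Prod.ext ?_ h1
  funext i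
  by_cases hi : i = g
  · simp only; rw [hi, hm, hm']
  · have h2 := congrFun h i
    rw [Function.update_of_ne hi, Function.update_of_ne hi] at h2
    exact h2

theorem mcnt2 {g g' : ι} (hg : g ≠ g') (w w' : κ) :
    (Finset.univ.filter (fun m : ι → κ => m g = w ∧ m g' = w')).card * Fintype.card κ ^ 2 ≤
      Fintype.card (ι → κ) := by
  rw [← Finset.card_univ (α := κ), ← Finset.card_univ (α := ι → κ), sq, ← Finset.card_product,
    ← Finset.card_product]
  refine Finset.card_le_card_of_injOn
    (fun p => Function.update (Function.update p.1 g p.2.1) g' p.2.2)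
    (fun _ _ => Finset.mem_univ _) ?_
  rintro ⟨m, x, y⟩ hm ⟨m', x', y'⟩ hm' h
  simp only [Finset.coe_product, Set.mem_prod, Finset.mem_coe, Finset.mem_filter,
    Finset.mem_univ, true_and, and_true] at hm hm'
  simp only at h
  have h1 := congrFun h g'
  rw [Function.update_self, Function.update_self] at h1
  have h2 := congrFun h g
  rw [Function.update_of_ne hg, Function.update_of_ne hg, Function.update_self,
    Function.update_self] at h2
  refine Prod.ext ?_ (Prod.ext h2 h1)
  funext i
  simp only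
  by_cases hi : i = g
  · rw [hi, hm.1, hm'.1]
  · by_cases hi' : i = g'
    · rw [hi', hm.2, hm'.2]
    · have h3 := congrFun h i
      rw [Function.update_of_ne hi', Function.update_of_ne hi', Function.update_of_ne hi,
        Function.update_of_ne hi] at h3
      exact h3

theorem mcnt3 {g g' : ι} (hg : g ≠ g') :
    (Finset.univ.filter (fun m : ι → κ => m g = m g')).card * Fintype.card κ ≤
      Fintype.card (ι → κ) := by
  rw [← Finset.card_univ (α := κ), ← Finset.card_univ (α := ι → κ), ← Finset.card_product]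
  refine Finset.card_le_card_of_injOn (fun p => Function.update p.1 g p.2)
    (fun _ _ => Finset.mem_univ _) ?_
  rintro ⟨m, x⟩ hm ⟨m', x'⟩ hm' h
  simp only [Finset.coe_product, Set.mem_prod, Finset.mem_coe, Finset.mem_filter,
    Finset.mem_univ, true_and, and_true] at hm hm'
  simp only at h
  have h1 := congrFun h g
  rw [Function.update_self, Function.update_self] at h1
  refine Prod.ext ?_ h1
  funext i
  have h2 := congrFun h g'
  rw [Function.update_of_ne hg.symm, Function.update_of_ne hg.symm] at h2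
  by_cases hi : i = g
  · simp only; rw [hi, hm, hm', h2]
  · have h2 := congrFun h i
    rw [Function.update_of_ne hi, Function.update_of_ne hi] at h2
    exact h2

end functions

variable {V : Type} [Fintype V]

/-- number of `t`-subsets of `U` that contain `T` -/
noncomputable def bet (U : Finset V) (t : ℕ) (T : Finset V) : ℝ :=
  (((Finset.powersetCard t U).filter (fun B => T ⊆ B)).card : ℝ)

omit [Fintype V] in
theorem bet_nonneg (U : Finset V) (t : ℕ) (T : Finset V) : 0 ≤ bet U t T := Nat.cast_nonneg _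

omit [Fintype V] in
theorem bet_le (U : Finset V) (t : ℕ) (ht : 1 ≤ t) (hU : U.card + 1 = 2 * t) (T : Finset V)
    (hT : T ⊆ U) (j : ℕ) (hj : T.card = j + 1) :
    bet U t T ≤ (1 / 2) ^ j * ((U.card.choose t : ℕ) * ((t : ℝ) / U.card)) := by
  have hU0 : 1 ≤ U.card := by omega
  have hUr : (0 : ℝ) < U.card := by exact_mod_cast hU0
  have h1 : ((U.card.choose t : ℕ) : ℝ) * ((t : ℝ) / U.card) =
      (((U.card - 1).choose (t - 1) : ℕ) : ℝ) := by
    obtain ⟨m, hm⟩ : ∃ m, U.card = m + 1 := ⟨U.card - 1, by omega⟩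
    obtain ⟨s, hs⟩ : ∃ s, t = s + 1 := ⟨t - 1, by omega⟩
    have h2 := Nat.add_one_mul_choose_eq m s
    rw [hm, hs]
    have e1 : m + 1 - 1 = m := by omega
    have e2 : s + 1 - 1 = s := by omega
    rw [e1, e2]
    have h3 : ((m : ℝ) + 1) * (m.choose s : ℕ) = ((m + 1).choose (s + 1) : ℕ) * ((s : ℝ) + 1) := by
      exact_mod_cast h2
    push_cast
    have : (0 : ℝ) < (m : ℝ) + 1 := by positivity
    field_simp
    linarith
  rw [h1]
  unfold bet
  by_cases hk : T.card ≤ t
  · rw [cnt_sup U T hT t hk, hj]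
    have h2 := chs_step (U.card - 1) (t - 1) j (1 / 2) (by norm_num) (by norm_num) (by
      have e : ((U.card - 1 : ℕ) : ℝ) = 2 * ((t - 1 : ℕ) : ℝ) := by
        have : U.card - 1 = 2 * (t - 1) := by omega
        rw [this]; push_cast; ring
      rw [e]; linarith) (by omega) (by omega)
    have e1 : U.card - (j + 1) = U.card - 1 - j := by omega
    have e2 : t - (j + 1) = t - 1 - j := by omega
    rw [e1, e2]
    exact h2
  · have : (Finset.powersetCard t U).filter (fun S => T ⊆ S) = ∅ := by
      rw [Finset.filter_eq_empty_iff]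
      intro S hS hQS
      have := Finset.card_le_card hQS
      rw [(Finset.mem_powersetCard.1 hS).2] at this
      omega
    rw [this, Finset.card_empty, Nat.cast_zero]
    positivity

/-- indicator -/
noncomputable def ind (p : Prop) : ℝ := if p then 1 else 0

theorem ind_nonneg (p : Prop) : 0 ≤ ind p := by unfold ind; split_ifs <;> norm_num
theorem ind_le_one (p : Prop) : ind p ≤ 1 := by unfold ind; split_ifs <;> norm_num
theorem ind_and (p q : Prop) : ind (p ∧ q) = ind p * ind q := by
  unfold ind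
  by_cases hp : p <;> by_cases hq : q <;> simp [hp, hq]

theorem sum_ind {α : Type} (S : Finset α) (p : α → Prop) :
    ∑ x ∈ S, ind (p x) = ((S.filter p).card : ℝ) := by
  unfold ind
  rw [Finset.sum_ite, Finset.sum_const_zero, add_zero, Finset.sum_const, nsmul_eq_mul, mul_one]

/-- the load of an edge between `u ∈ U` and `w ∉ U` -/
noncomputable def Lam {κ : Type} (G : SimpleGraph V) (B : Finset V) (m : Sym2 V → κ) (u : V)
    (w : κ) : ℝ :=
  ind (u ∈ B) + ∑ z ∈ nb G u, ind (u ∈ B ∧ z ∈ B ∧ m s(u, z) = w)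

theorem Lam_nonneg {κ : Type} (G : SimpleGraph V) (B : Finset V) (m : Sym2 V → κ) (u : V)
    (w : κ) : 0 ≤ Lam G B m u w :=
  add_nonneg (ind_nonneg _) (Finset.sum_nonneg fun _ _ => ind_nonneg _)

section expectation

variable {κ : Type} [Fintype κ] (G : SimpleGraph V) (U : Finset V) (t : ℕ)

/-- basic double sum -/
theorem dsum (T : Finset V) (Pm : (Sym2 V → κ) → Prop) :
    ∑ B ∈ Finset.powersetCard t U, ∑ m : Sym2 V → κ, ind (T ⊆ B) * ind (Pm m) =
      bet U t T * ∑ m : Sym2 V → κ, ind (Pm m) := by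
  have h1 : bet U t T = ∑ B ∈ Finset.powersetCard t U, ind (T ⊆ B) := by
    unfold bet
    rw [sum_ind]
    congr
  rw [h1, Finset.sum_mul]
  refine Finset.sum_congr rfl fun B _ => ?_
  rw [Finset.mul_sum]

theorem dsumT (T : Finset V) :
    ∑ B ∈ Finset.powersetCard t U, ∑ _m : Sym2 V → κ, ind (T ⊆ B) * ind True =
      bet U t T * (Fintype.card (Sym2 V → κ) : ℝ) := by
  rw [dsum]
  congr 1
  rw [sum_ind, Finset.filter_true, Finset.card_univ]

variable (ht : 1 ≤ t) (hU : U.card + 1 = 2 * t) (r : ℝ) (hr : r = Fintype.card κ) (hr0 : 0 < r)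
  (N Mt τ Dg : ℝ) (hN : N = ((U.card.choose t : ℕ) : ℝ))
  (hMt : Mt = (Fintype.card (Sym2 V → κ) : ℝ)) (hτ : τ = (t : ℝ) / U.card)
  (hD : ∀ u ∈ U, ((nb G u).card : ℝ) ≤ Dg)

include hr hr0 hMt in
theorem mc1 (g : Sym2 V) (w : κ) :
    ∑ m : Sym2 V → κ, ind (m g = w) ≤ Mt / r := by
  rw [sum_ind, le_div_iff₀ hr0, hr, hMt]
  have := mcnt1 (ι := Sym2 V) (κ := κ) g w
  exact_mod_cast this

include hr hr0 hMt in
theorem mc2 {g g' : Sym2 V} (hg : g ≠ g') (w w' : κ) :
    ∑ m : Sym2 V → κ, ind (m g = w ∧ m g' = w') ≤ Mt / r ^ 2 := by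
  rw [le_div_iff₀ (by positivity), hr, hMt]
  have h := mcnt2 (ι := Sym2 V) (κ := κ) hg w w'
  have h3 : ∑ m : Sym2 V → κ, ind (m g = w ∧ m g' = w') =
      ((Finset.univ.filter (fun m : Sym2 V → κ => m g = w ∧ m g' = w')).card : ℝ) := by
    rw [sum_ind]
    congr
  rw [h3]
  exact_mod_cast h

include ht hU hN hτ in
omit [Fintype V] in
theorem bt (T : Finset V) (hT : T ⊆ U) (j : ℕ) (hj : T.card = j + 1) :
    bet U t T ≤ (1 / 2) ^ j * (N * τ) := by
  rw [hN, hτ]
  exact bet_le U t ht hU T hT j hj

include ht hU hr hr0 hN hMt hτ hD in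
theorem E1 (u : V) (hu : u ∈ U) (hnb : nb G u ⊆ U) (w : κ) :
    ∑ B ∈ Finset.powersetCard t U, ∑ m : Sym2 V → κ, Lam G B m u w ≤
      N * Mt * (τ * (1 + Dg / (2 * r))) := by
  have hNτ : 0 ≤ N * τ := by rw [hN, hτ]; positivity
  have hMt0 : 0 ≤ Mt := by rw [hMt]; positivity
  have e1 : ∑ B ∈ Finset.powersetCard t U, ∑ m : Sym2 V → κ, Lam G B m u w =
      ∑ B ∈ Finset.powersetCard t U, ∑ m : Sym2 V → κ, ind ({u} ⊆ B) * ind True +
      ∑ z ∈ nb G u, ∑ B ∈ Finset.powersetCard t U, ∑ m : Sym2 V → κ,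
        ind ({u, z} ⊆ B) * ind (m s(u, z) = w) := by
    rw [Finset.sum_comm (s := nb G u), ← Finset.sum_add_distrib]
    refine Finset.sum_congr rfl fun B _ => ?_
    rw [Finset.sum_comm (s := nb G u), ← Finset.sum_add_distrib]
    refine Finset.sum_congr rfl fun m _ => ?_
    unfold Lam
    congr 1
    · have : ({u} ⊆ B) = (u ∈ B) := propext Finset.singleton_subset_iff
      rw [this]
      unfold ind
      simp
    · refine Finset.sum_congr rfl fun z _ => ?_
      rw [← ind_and]
      congr 1
      rw [Finset.insert_subset_iff, Finset.singleton_subset_iff]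
      exact propext and_assoc.symm
  rw [e1, dsumT, ← hMt]
  have h1 : bet U t {u} ≤ (1 / 2) ^ 0 * (N * τ) :=
    bt U t ht hU N τ hN hτ {u} (by simpa using hu) 0 (by simp)
  have h2 : ∀ z ∈ nb G u, ∑ B ∈ Finset.powersetCard t U, ∑ m : Sym2 V → κ,
        ind ({u, z} ⊆ B) * ind (m s(u, z) = w) ≤ (1 / 2) ^ 1 * (N * τ) * (Mt / r) := by
    intro z hz
    rw [dsum]
    have hzU := hnb hz
    have hne : u ≠ z := (mem_nb.1 hz).1.symm
    refine mul_le_mul (bt U t ht hU N τ hN hτ {u, z} ?_ 1 (Finset.card_pair hne))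
      (mc1 r hr hr0 Mt hMt _ w) (Finset.sum_nonneg fun _ _ => ind_nonneg _) (by positivity)
    rw [Finset.insert_subset_iff, Finset.singleton_subset_iff]
    exact ⟨hu, hzU⟩
  have h3 := Finset.sum_le_card_nsmul _ _ _ h2
  rw [nsmul_eq_mul] at h3
  have h5 : bet U t {u} * Mt ≤ N * τ * Mt := by
    rw [pow_zero, one_mul] at h1
    exact mul_le_mul_of_nonneg_right h1 hMt0
  have h6 : ((nb G u).card : ℝ) * ((1 / 2) ^ 1 * (N * τ) * (Mt / r)) ≤
      Dg * ((1 / 2) ^ 1 * (N * τ) * (Mt / r)) :=
    mul_le_mul_of_nonneg_right (hD u hu) (by positivity)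
  have h7 : N * τ * Mt + Dg * ((1 / 2) ^ 1 * (N * τ) * (Mt / r)) =
      N * Mt * (τ * (1 + Dg / (2 * r))) := by
    field_simp
  linarith

include ht hU hr hr0 hN hMt hτ hD in
theorem E2 (u u' : V) (hu : u ∈ U) (hu' : u' ∈ U) (huu : u ≠ u') (hnb : nb G u ⊆ U)
    (hnb' : nb G u' ⊆ U) (w w' : κ) (hww : w ≠ w') (hD0 : 0 ≤ Dg) :
    ∑ B ∈ Finset.powersetCard t U, ∑ m : Sym2 V → κ, Lam G B m u w * Lam G B m u' w' ≤
      N * Mt * (τ / 2 * (1 + (Dg + 1) / r + (Dg ^ 2 + 3 * Dg) / (4 * r ^ 2))) := by
  have hNτ : 0 ≤ N * τ := by rw [hN, hτ]; positivity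
  have hMt0 : 0 ≤ Mt := by rw [hMt]; positivity
  have e1 : ∑ B ∈ Finset.powersetCard t U, ∑ m : Sym2 V → κ, Lam G B m u w * Lam G B m u' w' =
      ∑ B ∈ Finset.powersetCard t U, ∑ m : Sym2 V → κ, ind ({u, u'} ⊆ B) * ind True +
      ∑ z ∈ nb G u, ∑ B ∈ Finset.powersetCard t U, ∑ m : Sym2 V → κ,
        ind ({u, u', z} ⊆ B) * ind (m s(u, z) = w) +
      ∑ z' ∈ nb G u', ∑ B ∈ Finset.powersetCard t U, ∑ m : Sym2 V → κ,
        ind ({u, u', z'} ⊆ B) * ind (m s(u', z') = w') +
      ∑ z ∈ nb G u, ∑ z' ∈ nb G u', ∑ B ∈ Finset.powersetCard t U, ∑ m : Sym2 V → κ,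
        ind ({u, u', z, z'} ⊆ B) * ind (m s(u, z) = w ∧ m s(u', z') = w') := by
    have c1 : ∑ z ∈ nb G u, ∑ z' ∈ nb G u', ∑ B ∈ Finset.powersetCard t U, ∑ m : Sym2 V → κ,
        ind ({u, u', z, z'} ⊆ B) * ind (m s(u, z) = w ∧ m s(u', z') = w') =
        ∑ B ∈ Finset.powersetCard t U, ∑ m : Sym2 V → κ, ∑ z ∈ nb G u, ∑ z' ∈ nb G u',
        ind ({u, u', z, z'} ⊆ B) * ind (m s(u, z) = w ∧ m s(u', z') = w') := by
      calc _ = ∑ z ∈ nb G u, ∑ B ∈ Finset.powersetCard t U, ∑ z' ∈ nb G u',
            ∑ m : Sym2 V → κ,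
            ind ({u, u', z, z'} ⊆ B) * ind (m s(u, z) = w ∧ m s(u', z') = w') :=
              Finset.sum_congr rfl fun z _ => Finset.sum_comm
        _ = ∑ B ∈ Finset.powersetCard t U, ∑ z ∈ nb G u, ∑ z' ∈ nb G u',
            ∑ m : Sym2 V → κ,
            ind ({u, u', z, z'} ⊆ B) * ind (m s(u, z) = w ∧ m s(u', z') = w') :=
              Finset.sum_comm
        _ = ∑ B ∈ Finset.powersetCard t U, ∑ z ∈ nb G u, ∑ m : Sym2 V → κ, ∑ z' ∈ nb G u',
            ind ({u, u', z, z'} ⊆ B) * ind (m s(u, z) = w ∧ m s(u', z') = w') :=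
              Finset.sum_congr rfl fun B _ => Finset.sum_congr rfl fun z _ => Finset.sum_comm
        _ = _ := Finset.sum_congr rfl fun B _ => Finset.sum_comm
    rw [c1, Finset.sum_comm (s := nb G u), Finset.sum_comm (s := nb G u'),
      ← Finset.sum_add_distrib, ← Finset.sum_add_distrib, ← Finset.sum_add_distrib]
    refine Finset.sum_congr rfl fun B _ => ?_
    rw [Finset.sum_comm (s := nb G u) (t := Finset.univ),
      Finset.sum_comm (s := nb G u') (t := Finset.univ),
      ← Finset.sum_add_distrib, ← Finset.sum_add_distrib, ← Finset.sum_add_distrib]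
    refine Finset.sum_congr rfl fun m _ => ?_
    unfold Lam
    rw [add_mul, mul_add, mul_add, Finset.sum_mul_sum, Finset.sum_mul, Finset.mul_sum]
    have d1 : ind (u ∈ B) * ind (u' ∈ B) = ind ({u, u'} ⊆ B) * ind True := by
      rw [← ind_and, ← ind_and]
      congr 1
      rw [Finset.insert_subset_iff, Finset.singleton_subset_iff]
      simp
    have d2 : ∑ z ∈ nb G u', ind (u ∈ B) * ind (u' ∈ B ∧ z ∈ B ∧ m s(u', z) = w') =
        ∑ z' ∈ nb G u', ind ({u, u', z'} ⊆ B) * ind (m s(u', z') = w') := by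
      refine Finset.sum_congr rfl fun z _ => ?_
      rw [← ind_and, ← ind_and]
      congr 1
      rw [Finset.insert_subset_iff, Finset.insert_subset_iff, Finset.singleton_subset_iff]
      apply propext
      tauto
    have d3 : ∑ z ∈ nb G u, ind (u ∈ B ∧ z ∈ B ∧ m s(u, z) = w) * ind (u' ∈ B) =
        ∑ z ∈ nb G u, ind ({u, u', z} ⊆ B) * ind (m s(u, z) = w) := by
      refine Finset.sum_congr rfl fun z _ => ?_
      rw [← ind_and, ← ind_and]
      congr 1
      rw [Finset.insert_subset_iff, Finset.insert_subset_iff, Finset.singleton_subset_iff]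
      apply propext
      tauto
    have d4 : ∑ z ∈ nb G u, ∑ z' ∈ nb G u', ind (u ∈ B ∧ z ∈ B ∧ m s(u, z) = w) *
          ind (u' ∈ B ∧ z' ∈ B ∧ m s(u', z') = w') =
        ∑ z ∈ nb G u, ∑ z' ∈ nb G u', ind ({u, u', z, z'} ⊆ B) *
          ind (m s(u, z) = w ∧ m s(u', z') = w') := by
      refine Finset.sum_congr rfl fun z _ => Finset.sum_congr rfl fun z' _ => ?_
      rw [← ind_and, ← ind_and]
      congr 1
      rw [Finset.insert_subset_iff, Finset.insert_subset_iff, Finset.insert_subset_iff,
        Finset.singleton_subset_iff]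
      apply propext
      tauto
    rw [d1, d2, d3, d4]
    ring
  rw [e1, dsumT, ← hMt]
  have sub2 : ∀ z ∈ U, ({u, u', z} : Finset V) ⊆ U := by
    intro z hz
    rw [Finset.insert_subset_iff, Finset.insert_subset_iff, Finset.singleton_subset_iff]
    exact ⟨hu, hu', hz⟩
  have t1 : bet U t {u, u'} * Mt ≤ (1 / 2) ^ 1 * (N * τ) * Mt := by
    refine mul_le_mul_of_nonneg_right (bt U t ht hU N τ hN hτ {u, u'} ?_ 1
      (Finset.card_pair huu)) hMt0
    rw [Finset.insert_subset_iff, Finset.singleton_subset_iff]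
    exact ⟨hu, hu'⟩
  -- three or two points
  have b3 : ∀ z, z ∈ U → ∀ v, v ∈ ({u, u'} : Finset V) → z ≠ v → ∀ v', v' ∈ ({u, u'} : Finset V) →
      v' ≠ v → bet U t {u, u', z} ≤ (1 / 4 + 1 / 4 * ind (z = v')) * (N * τ) := by
    intro z hz v hv hzv v' hv' hvv
    by_cases hzv' : z = v'
    · have : ({u, u', z} : Finset V) = {u, u'} := by
        rw [hzv']
        ext x
        simp only [Finset.mem_insert, Finset.mem_singleton] at hv' ⊢
        constructor
        · rintro (h | h | h)
          · exact Or.inl h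
          · exact Or.inr h
          · rw [h]; exact hv'
        · rintro (h | h)
          · exact Or.inl h
          · exact Or.inr (Or.inl h)
      rw [this]
      have h5 := bt U t ht hU N τ hN hτ {u, u'} (by
        rw [Finset.insert_subset_iff, Finset.singleton_subset_iff]
        exact ⟨hu, hu'⟩) 1 (Finset.card_pair huu)
      have : ind (z = v') = 1 := by unfold ind; rw [if_pos hzv']
      rw [this]
      linarith
    · have hzu : z ≠ u ∧ z ≠ u' := by
        simp only [Finset.mem_insert, Finset.mem_singleton] at hv hv'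
        rcases hv with rfl | rfl <;> rcases hv' with rfl | rfl
        · exact absurd rfl hvv
        · exact ⟨hzv, hzv'⟩
        · exact ⟨hzv', hzv⟩
        · exact absurd rfl hvv
      have hc : ({u, u', z} : Finset V).card = 2 + 1 := by
        rw [Finset.card_insert_of_notMem, Finset.card_pair hzu.2.symm]
        rw [Finset.mem_insert, Finset.mem_singleton, not_or]
        exact ⟨huu, hzu.1.symm⟩
      have h5 := bt U t ht hU N τ hN hτ {u, u', z} (sub2 z hz) 2 hc
      have : ind (z = v') = 0 := by unfold ind; rw [if_neg hzv']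
      rw [this]
      linarith
  have hsumind : ∀ (S : Finset V) (v : V), ∑ z ∈ S, ind (z = v) ≤ 1 := by
    intro S v
    rw [sum_ind]
    have : (S.filter (fun z => z = v)).card ≤ 1 := by
      rw [Finset.card_le_one]
      intro x hx y hy
      rw [(Finset.mem_filter.1 hx).2, (Finset.mem_filter.1 hy).2]
    exact_mod_cast this
  have hMr : 0 ≤ Mt / r := by positivity
  have hMr2 : 0 ≤ Mt / r ^ 2 := by positivity
  have t2 : ∑ z ∈ nb G u, ∑ B ∈ Finset.powersetCard t U, ∑ m : Sym2 V → κ,
        ind ({u, u', z} ⊆ B) * ind (m s(u, z) = w) ≤ (Dg + 1) / 4 * (N * τ) * (Mt / r) := by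
    calc _ ≤ ∑ z ∈ nb G u, (1 / 4 + 1 / 4 * ind (z = u')) * (N * τ) * (Mt / r) := by
          refine Finset.sum_le_sum fun z hz => ?_
          rw [dsum]
          refine mul_le_mul (b3 z (hnb hz) u (by simp) (mem_nb.1 hz).1 u' (by simp) huu.symm)
            (mc1 r hr hr0 Mt hMt _ w) (Finset.sum_nonneg fun _ _ => ind_nonneg _) ?_
          have := ind_nonneg (z = u')
          positivity
      _ = (1 / 4 * (nb G u).card + 1 / 4 * ∑ z ∈ nb G u, ind (z = u')) * (N * τ) * (Mt / r) := by
          rw [← Finset.sum_mul, ← Finset.sum_mul, Finset.sum_add_distrib, Finset.sum_const,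
            nsmul_eq_mul, ← Finset.mul_sum]
          ring
      _ ≤ _ := by
          refine mul_le_mul_of_nonneg_right (mul_le_mul_of_nonneg_right ?_ hNτ) hMr
          have h5 := hsumind (nb G u) u'
          have h6 := hD u hu
          linarith
  have t3 : ∑ z' ∈ nb G u', ∑ B ∈ Finset.powersetCard t U, ∑ m : Sym2 V → κ,
        ind ({u, u', z'} ⊆ B) * ind (m s(u', z') = w') ≤ (Dg + 1) / 4 * (N * τ) * (Mt / r) := by
    calc _ ≤ ∑ z ∈ nb G u', (1 / 4 + 1 / 4 * ind (z = u)) * (N * τ) * (Mt / r) := by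
          refine Finset.sum_le_sum fun z hz => ?_
          rw [dsum]
          refine mul_le_mul (b3 z (hnb' hz) u' (by simp) (mem_nb.1 hz).1 u (by simp) huu)
            (mc1 r hr hr0 Mt hMt _ w') (Finset.sum_nonneg fun _ _ => ind_nonneg _) ?_
          have := ind_nonneg (z = u)
          positivity
      _ = (1 / 4 * (nb G u').card + 1 / 4 * ∑ z ∈ nb G u', ind (z = u)) * (N * τ) * (Mt / r) := by
          rw [← Finset.sum_mul, ← Finset.sum_mul, Finset.sum_add_distrib, Finset.sum_const,
            nsmul_eq_mul, ← Finset.mul_sum]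
          ring
      _ ≤ _ := by
          refine mul_le_mul_of_nonneg_right (mul_le_mul_of_nonneg_right ?_ hNτ) hMr
          have h5 := hsumind (nb G u') u
          have h6 := hD u' hu'
          linarith
  have t4 : ∑ z ∈ nb G u, ∑ z' ∈ nb G u', ∑ B ∈ Finset.powersetCard t U, ∑ m : Sym2 V → κ,
        ind ({u, u', z, z'} ⊆ B) * ind (m s(u, z) = w ∧ m s(u', z') = w') ≤
        (Dg ^ 2 + 3 * Dg) / 8 * (N * τ) * (Mt / r ^ 2) := by
    have key : ∀ z ∈ nb G u, ∀ z' ∈ nb G u', ∑ B ∈ Finset.powersetCard t U,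
        ∑ m : Sym2 V → κ, ind ({u, u', z, z'} ⊆ B) * ind (m s(u, z) = w ∧ m s(u', z') = w') ≤
        (1 / 8 + 1 / 8 * (ind (z = u') + ind (z' = u) + ind (z' = z))) * (N * τ) *
          (Mt / r ^ 2) := by
      intro z hz z' hz'
      rw [dsum]
      have i1 := ind_nonneg (z = u')
      have i2 := ind_nonneg (z' = u)
      have i3 := ind_nonneg (z' = z)
      have hzu : z ≠ u := (mem_nb.1 hz).1
      have hzu' : z' ≠ u' := (mem_nb.1 hz').1
      have hzU := hnb hz
      have hzU' := hnb' hz'
      by_cases hs : s(u, z) = s(u', z')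
      · have : ∑ m : Sym2 V → κ, ind (m s(u, z) = w ∧ m s(u', z') = w') = 0 := by
          refine Finset.sum_eq_zero fun m _ => ?_
          unfold ind
          rw [if_neg]
          rintro ⟨k1, k2⟩
          rw [hs] at k1
          exact hww (k1.symm.trans k2)
        rw [this, mul_zero]
        positivity
      · refine mul_le_mul ?_ (mc2 r hr hr0 Mt hMt hs w w')
          (Finset.sum_nonneg fun _ _ => ind_nonneg _) (by positivity)
        have hsub : ({u, u', z, z'} : Finset V) ⊆ U := by
          rw [Finset.insert_subset_iff, Finset.insert_subset_iff, Finset.insert_subset_iff,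
            Finset.singleton_subset_iff]
          exact ⟨hu, hu', hzU, hzU'⟩
        -- three different points suffice in the exceptional cases
        have three : ∀ x y : V, x ∈ U → y ∈ ({u, u', z, z'} : Finset V) → y ≠ u → y ≠ u' →
            bet U t {u, u', z, z'} ≤ 1 / 4 * (N * τ) := by
          intro _ y _ hy hyu hyu'
          have h5 : bet U t {u, u', z, z'} ≤ bet U t {u, u', y} := by
            unfold bet
            have : ((Finset.powersetCard t U).filter (fun B => ({u, u', z, z'} : Finset V) ⊆ B)) ⊆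
                ((Finset.powersetCard t U).filter (fun B => ({u, u', y} : Finset V) ⊆ B)) := by
              intro B hB
              rw [Finset.mem_filter] at hB ⊢
              refine ⟨hB.1, ?_⟩
              rw [Finset.insert_subset_iff, Finset.insert_subset_iff,
                Finset.singleton_subset_iff]
              exact ⟨hB.2 (by simp), hB.2 (by simp), hB.2 hy⟩
            exact_mod_cast Finset.card_le_card this
          have hc : ({u, u', y} : Finset V).card = 2 + 1 := by
            rw [Finset.card_insert_of_notMem, Finset.card_pair hyu'.symm]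
            rw [Finset.mem_insert, Finset.mem_singleton, not_or]
            exact ⟨huu, hyu.symm⟩
          have h6 := bt U t ht hU N τ hN hτ {u, u', y} (sub2 y (hsub hy)) 2 hc
          linarith
        by_cases c1 : z = u'
        · have hz'u : z' ≠ u := by
            intro h
            apply hs
            rw [c1, h, Sym2.eq_swap]
          have h5 := three u z' hu (by simp) hz'u hzu'
          have : ind (z = u') = 1 := by unfold ind; rw [if_pos c1]
          rw [this]
          nlinarith [mul_nonneg i2 hNτ, mul_nonneg i3 hNτ]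
        · by_cases c2 : z' = u
          · have h5 := three u z hu (by simp) hzu c1
            have : ind (z' = u) = 1 := by unfold ind; rw [if_pos c2]
            rw [this]
            nlinarith [mul_nonneg i1 hNτ, mul_nonneg i3 hNτ]
          · by_cases c3 : z' = z
            · have h5 := three u z hu (by simp) hzu c1
              have : ind (z' = z) = 1 := by unfold ind; rw [if_pos c3]
              rw [this]
              nlinarith [mul_nonneg i1 hNτ, mul_nonneg i2 hNτ]
            · have hc : ({u, u', z, z'} : Finset V).card = 3 + 1 := by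
                rw [Finset.card_insert_of_notMem, Finset.card_insert_of_notMem,
                  Finset.card_pair (fun h => c3 h.symm)]
                · rw [Finset.mem_insert, Finset.mem_singleton, not_or]
                  exact ⟨fun h => c1 h.symm, hzu'.symm⟩
                · rw [Finset.mem_insert, Finset.mem_insert, Finset.mem_singleton, not_or, not_or]
                  exact ⟨huu, hzu.symm, fun h => c2 h.symm⟩
              have h6 := bt U t ht hU N τ hN hτ {u, u', z, z'} hsub 3 hc
              nlinarith [mul_nonneg i1 hNτ, mul_nonneg i2 hNτ, mul_nonneg i3 hNτ]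
    calc _ ≤ ∑ z ∈ nb G u, ∑ z' ∈ nb G u',
          (1 / 8 + 1 / 8 * (ind (z = u') + ind (z' = u) + ind (z' = z))) * (N * τ) *
          (Mt / r ^ 2) := Finset.sum_le_sum fun z hz => Finset.sum_le_sum fun z' hz' => key z hz z' hz'
      _ = (1 / 8 * ((nb G u).card * (nb G u').card) + 1 / 8 * ((∑ z ∈ nb G u, ind (z = u')) *
          (nb G u').card + (nb G u).card * (∑ z' ∈ nb G u', ind (z' = u)) +
            ∑ z ∈ nb G u, ∑ z' ∈ nb G u', ind (z' = z))) * (N * τ) * (Mt / r ^ 2) := by
          simp only [← Finset.sum_mul, Finset.sum_add_distrib, Finset.sum_const, nsmul_eq_mul,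
            ← Finset.mul_sum]
          ring
      _ ≤ _ := by
          refine mul_le_mul_of_nonneg_right (mul_le_mul_of_nonneg_right ?_ hNτ) hMr2
          have h5 := hsumind (nb G u) u'
          have h6 := hsumind (nb G u') u
          have h7 := hD u hu
          have h8 := hD u' hu'
          have h9 : ∑ z ∈ nb G u, ∑ z' ∈ nb G u', ind (z' = z) ≤ ∑ z ∈ nb G u, (1 : ℝ) :=
            Finset.sum_le_sum fun z _ => hsumind _ z
          rw [Finset.sum_const, nsmul_eq_mul, mul_one] at h9
          have n1 : (0 : ℝ) ≤ (nb G u).card := Nat.cast_nonneg _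
          have n2 : (0 : ℝ) ≤ (nb G u').card := Nat.cast_nonneg _
          have n3 : 0 ≤ ∑ z ∈ nb G u, ind (z = u') := Finset.sum_nonneg fun _ _ => ind_nonneg _
          have n4 : 0 ≤ ∑ z' ∈ nb G u', ind (z' = u) := Finset.sum_nonneg fun _ _ => ind_nonneg _
          have p1 : ((nb G u).card : ℝ) * (nb G u').card ≤ Dg * Dg :=
            mul_le_mul h7 h8 n2 hD0
          have p2 : (∑ z ∈ nb G u, ind (z = u')) * (nb G u').card ≤ 1 * Dg :=
            mul_le_mul h5 h8 n2 zero_le_one
          have p3 : ((nb G u).card : ℝ) * (∑ z' ∈ nb G u', ind (z' = u)) ≤ Dg * 1 :=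
            mul_le_mul h7 h6 n4 hD0
          nlinarith
  have hfin : (1 / 2) ^ 1 * (N * τ) * Mt + (Dg + 1) / 4 * (N * τ) * (Mt / r) +
      (Dg + 1) / 4 * (N * τ) * (Mt / r) + (Dg ^ 2 + 3 * Dg) / 8 * (N * τ) * (Mt / r ^ 2) =
      N * Mt * (τ / 2 * (1 + (Dg + 1) / r + (Dg ^ 2 + 3 * Dg) / (4 * r ^ 2))) := by
    field_simp
    ring
  linarith

end expectation

end Pool.Agent.H466.AL
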