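import Pool.Agent.NH90.CN.All
import Pool.Agent.Helper770.Straight
import Pool.Agent.Helper770.Levels
import Pool.Agent.Helper770.Exist

set_option autoImplicit false

/-!
Basic facts on crossing numbers: optimal good drawings, subgraphs, weighted families of subgraphs.
-/

open Set Classical
open Pool.Agent.Helper770.Crossing Pool.Agent.NH90.CN
open Pool.Agent.Helper770.Straight (pull)
open Pool.Agent.Helper770.Levels (inside inside_le restrict restrict_crossings_subset)

namespace Pool.Agent.H466.AL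

variable {V : Type} [Fintype V]

theorem exists_good (G : SimpleGraph V) :
    ∃ D : Drawing G, D.crossings.Finite ∧ Good D ∧
      2 * crossingNumber G = ∑ e : Sym2 V, ∑ f : Sym2 V, DX D e f := by
  obtain ⟨D, h1, h2, h3⟩ := p_GOOD V G
  refine ⟨D, h1, h2, ?_⟩
  rw [← h3]
  exact (t_CNT V G D).2 h1

omit [Fintype V] in
theorem DX_ne {G : SimpleGraph V} {D : Drawing G} {e f : Sym2 V} (h : DX D e f ≠ 0) :
    e ∈ G.edgeSet ∧ f ∈ G.edgeSet ∧ e ≠ f := by
  unfold DX at h
  by_contra hc
  rw [if_neg hc] at h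
  exact h rfl

omit [Fintype V] in
theorem DX_good {G : SimpleGraph V} {D : Drawing G} (hg : Good D) {e f : Sym2 V}
    (h : DX D e f ≠ 0) : e ∈ G.edgeSet ∧ f ∈ G.edgeSet ∧ ∀ v, v ∈ e → v ∉ f := by
  obtain ⟨h1, h2, h3⟩ := DX_ne h
  refine ⟨h1, h2, fun v hv hv' => h ?_⟩
  unfold DX
  rw [if_pos ⟨h1, h2, h3⟩, hg e h1 f h2 h3 v hv hv', Set.ncard_empty]

/-- crossing numbers of subgraphs in terms of a given drawing -/
theorem cr_le_sum {W : Type} [Fintype W] {G : SimpleGraph V} (D : Drawing G)
    (hD : D.crossings.Finite) (F : W ↪ V) (G' : SimpleGraph W) (h : G' ≤ G.comap F) :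
    2 * crossingNumber G' ≤ ∑ e ∈ eF G', ∑ f ∈ eF G', DX D (e.map F) (f.map F) := by
  have hinj : Function.Injective (Sym2.map F) := Sym2.map.injective F.injective
  have hedge : ∀ e : Sym2 W, e ∈ (G.comap F).edgeSet ↔ e.map F ∈ G.edgeSet := by
    intro e
    induction e with
    | _ x y => exact Iff.rfl
  have hsub : ∀ e : Sym2 W, e ∈ G'.edgeSet → e.map F ∈ G.edgeSet := fun e he =>
    (hedge e).1 (SimpleGraph.edgeSet_mono h he)
  set D' : Drawing G' := restrict (pull D F) h with hD'
  have hDX : ∀ e ∈ eF G', ∀ f ∈ eF G', DX D' e f = DX D (e.map F) (f.map F) := by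
    intro e he f hf
    rw [DEL.mem_eF] at he hf
    unfold DX
    by_cases hne : e = f
    · rw [if_neg (fun h' => h'.2.2 hne), if_neg (fun h' => h'.2.2 (by rw [hne]))]
    · rw [if_pos ⟨he, hf, hne⟩, if_pos ⟨hsub e he, hsub f hf, fun h' => hne (hinj h')⟩]
      rfl
  have hfin : D'.crossings.Finite := by
    rw [(t_CNT _ _ D').1]
    intro e he f hf hne
    exact ((t_CNT V G D).1.mp hD) (e.map F) (hsub e he) (f.map F) (hsub f hf)
      (fun h' => hne (hinj h'))
  have h1 := GOOD.cr_le D' hfin
  have h2 := (t_CNT _ _ D').2 hfin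
  have h3 : ∑ e : Sym2 W, ∑ f : Sym2 W, DX D' e f =
      ∑ e ∈ eF G', ∑ f ∈ eF G', DX D (e.map F) (f.map F) := by
    rw [GOOD.sumDX]
    refine Finset.sum_congr rfl fun e he => Finset.sum_congr rfl fun f hf => ?_
    rw [← hDX e he f hf]
    split_ifs with hef
    · rw [hef]
      unfold DX
      rw [if_neg (fun h' => h'.2.2 rfl)]
    · rfl
  omega

/-- the number of crossings between edges of a subgraph on the same vertices -/
theorem cr_le_sum' {G : SimpleGraph V} (D : Drawing G)
    (hD : D.crossings.Finite) (G' : SimpleGraph V) (h : G' ≤ G) :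
    2 * crossingNumber G' ≤ ∑ e ∈ eF G', ∑ f ∈ eF G', DX D e f := by
  have := cr_le_sum D hD (Function.Embedding.refl V) G' (by
    intro x y hxy
    exact h hxy)
  refine this.trans (le_of_eq ?_)
  refine Finset.sum_congr rfl fun e he => Finset.sum_congr rfl fun f hf => ?_
  have : ∀ e : Sym2 V, Sym2.map (Function.Embedding.refl V) e = e := by
    intro e
    induction e with
    | _ x y => rfl
  rw [this, this]

/-- monotonicity of the crossing number -/
theorem cr_mono {W : Type} [Fintype W] {G : SimpleGraph V} (F : W ↪ V) (G' : SimpleGraph W)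
    (h : G' ≤ G.comap F) : crossingNumber G' ≤ crossingNumber G := by
  obtain ⟨D, h1, h2, h3⟩ := exists_good G
  have h4 := cr_le_sum D h1 F G' h
  have hinj : Function.Injective (Sym2.map F) := Sym2.map.injective F.injective
  have h5 : ∑ e ∈ eF G', ∑ f ∈ eF G', DX D (e.map F) (f.map F) ≤
      ∑ e : Sym2 V, ∑ f : Sym2 V, DX D e f := by
    have : ∀ g : Sym2 V → ℕ, ∑ e ∈ eF G', g (e.map F) ≤ ∑ e : Sym2 V, g e := by
      intro g
      rw [← Finset.sum_image (f := g) (g := Sym2.map F) (fun a _ b _ hab => hinj hab)]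
      exact Finset.sum_le_sum_of_subset (Finset.subset_univ _)
    calc ∑ e ∈ eF G', ∑ f ∈ eF G', DX D (e.map F) (f.map F)
        ≤ ∑ e ∈ eF G', ∑ f : Sym2 V, DX D (e.map F) f :=
          Finset.sum_le_sum fun e _ => this (fun f => DX D (e.map F) f)
      _ ≤ ∑ e : Sym2 V, ∑ f : Sym2 V, DX D e f := this (fun e => ∑ f : Sym2 V, DX D e f)
  omega

/-- the complete graph -/
abbrev K (n : ℕ) : SimpleGraph (Fin n) := ⊤

/-- a clique of size `s` inside the set `S` -/
theorem cr_clique {G : SimpleGraph V} (S : Finset V)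
    (h : ∀ x ∈ S, ∀ y ∈ S, x ≠ y → G.Adj x y) :
    crossingNumber (K S.card) ≤ crossingNumber (inside G S) := by
  let e := S.equivFin.symm
  refine cr_mono (G := inside G S)
    ⟨fun i => (e i).1, fun i j hij => e.injective (Subtype.ext hij)⟩ _ ?_
  intro i j hij
  have hne : i ≠ j := hij
  refine ⟨h _ (e i).2 _ (e j).2 ?_, (e i).2, (e j).2⟩
  intro h'
  exact hne (e.injective (Subtype.ext h'))

theorem cr_K_mono {m n : ℕ} (h : m ≤ n) : crossingNumber (K m) ≤ crossingNumber (K n) := by
  refine cr_mono (G := K n) (Fin.castLEEmb h) _ ?_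
  intro i j hij
  exact fun h' => hij ((Fin.castLEEmb h).injective h')

theorem cr_inside_top (G : SimpleGraph V) {n : ℕ} (F : Fin n ↪ V)
    (h : ∀ i j, i ≠ j → G.Adj (F i) (F j)) : crossingNumber (K n) ≤ crossingNumber G := by
  refine cr_mono F _ ?_
  intro i j hij
  exact h i j hij

/-- Weighted families of vertex sets. -/
theorem lp {Ω : Type} (G : SimpleGraph V) (P : Finset Ω) (S : Ω → Finset V)
    (w : Ω → ℝ) (M : ℝ) (hw : ∀ ω ∈ P, 0 ≤ w ω)
    (h : ∀ a b c d, G.Adj a b → G.Adj c d → a ≠ c → a ≠ d → b ≠ c → b ≠ d →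
      ∑ ω ∈ P.filter (fun ω => a ∈ S ω ∧ b ∈ S ω ∧ c ∈ S ω ∧ d ∈ S ω), w ω ≤ M) :
    ∑ ω ∈ P, w ω * (crossingNumber (inside G (S ω)) : ℝ) ≤ M * crossingNumber G := by
  obtain ⟨D, h1, h2, h3⟩ := exists_good G
  have hcong : ∀ ω, (2 * crossingNumber (inside G (S ω)) : ℝ) ≤
      ∑ e : Sym2 V, ∑ f : Sym2 V, if (∀ v ∈ e, v ∈ S ω) ∧ (∀ v ∈ f, v ∈ S ω) then
        (DX D e f : ℝ) else 0 := by
    intro ω
    have h4 := cr_le_sum' D h1 (inside G (S ω)) (inside_le G (S ω))
    have h5 : (2 * crossingNumber (inside G (S ω)) : ℝ) ≤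
        ∑ e ∈ eF (inside G (S ω)), ∑ f ∈ eF (inside G (S ω)), (DX D e f : ℝ) := by
      exact_mod_cast h4
    refine h5.trans ?_
    have hmem : ∀ e ∈ eF (inside G (S ω)), ∀ v ∈ e, v ∈ S ω := by
      intro e he
      exact Pool.Agent.Helper770.Levels.mem_of_inside (DEL.mem_eF.1 he)
    calc ∑ e ∈ eF (inside G (S ω)), ∑ f ∈ eF (inside G (S ω)), (DX D e f : ℝ)
        = ∑ e ∈ eF (inside G (S ω)), ∑ f ∈ eF (inside G (S ω)),
          if (∀ v ∈ e, v ∈ S ω) ∧ (∀ v ∈ f, v ∈ S ω) then (DX D e f : ℝ) else 0 := by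
          refine Finset.sum_congr rfl fun e he => Finset.sum_congr rfl fun f hf => ?_
          rw [if_pos ⟨hmem e he, hmem f hf⟩]
      _ ≤ _ := by
          refine (Finset.sum_le_sum fun e _ => Finset.sum_le_sum_of_subset_of_nonneg
            (Finset.subset_univ _) ?_).trans (Finset.sum_le_sum_of_subset_of_nonneg
            (Finset.subset_univ _) ?_)
          · intro f _ _
            split_ifs <;> positivity
          · intro e _ _
            refine Finset.sum_nonneg fun f _ => ?_
            split_ifs <;> positivity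
  have hD2 : (2 * crossingNumber G : ℝ) = ∑ e : Sym2 V, ∑ f : Sym2 V, (DX D e f : ℝ) := by
    exact_mod_cast h3
  have key : 2 * ∑ ω ∈ P, w ω * (crossingNumber (inside G (S ω)) : ℝ) ≤
      2 * (M * crossingNumber G) := by
    calc 2 * ∑ ω ∈ P, w ω * (crossingNumber (inside G (S ω)) : ℝ)
        = ∑ ω ∈ P, w ω * (2 * crossingNumber (inside G (S ω)) : ℝ) := by
          rw [Finset.mul_sum]
          refine Finset.sum_congr rfl fun ω _ => ?_
          ring
      _ ≤ ∑ ω ∈ P, w ω * ∑ e : Sym2 V, ∑ f : Sym2 V,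
          (if (∀ v ∈ e, v ∈ S ω) ∧ (∀ v ∈ f, v ∈ S ω) then (DX D e f : ℝ) else 0) :=
          Finset.sum_le_sum fun ω hω => mul_le_mul_of_nonneg_left (hcong ω) (hw ω hω)
      _ = ∑ e : Sym2 V, ∑ f : Sym2 V, (∑ ω ∈ P,
          if (∀ v ∈ e, v ∈ S ω) ∧ (∀ v ∈ f, v ∈ S ω) then w ω else 0) * (DX D e f : ℝ) := by
          simp only [Finset.mul_sum]
          rw [Finset.sum_comm]
          refine Finset.sum_congr rfl fun e _ => ?_
          rw [Finset.sum_comm]
          refine Finset.sum_congr rfl fun f _ => ?_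
          rw [Finset.sum_mul]
          refine Finset.sum_congr rfl fun ω _ => ?_
          split_ifs <;> ring
      _ ≤ ∑ e : Sym2 V, ∑ f : Sym2 V, M * (DX D e f : ℝ) := by
          refine Finset.sum_le_sum fun e _ => Finset.sum_le_sum fun f _ => ?_
          by_cases h0 : DX D e f = 0
          · rw [h0]; simp
          · obtain ⟨he, hf, hd⟩ := DX_good h2 h0
            refine mul_le_mul_of_nonneg_right ?_ (Nat.cast_nonneg _)
            induction e with
            | _ a b =>
              induction f with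
              | _ c d =>
                rw [← Finset.sum_filter]
                refine le_trans (le_of_eq ?_) (h a b c d he hf ?_ ?_ ?_ ?_)
                · refine Finset.sum_congr ?_ fun _ _ => rfl
                  ext ω
                  simp only [Finset.mem_filter, Sym2.mem_iff, forall_eq_or_imp, forall_eq]
                  tauto
                · rintro rfl; exact hd a (by simp) (by simp)
                · rintro rfl; exact hd a (by simp) (by simp)
                · rintro rfl; exact hd b (by simp) (by simp)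
                · rintro rfl; exact hd b (by simp) (by simp)
      _ = 2 * (M * crossingNumber G) := by
          rw [show 2 * (M * (crossingNumber G : ℝ)) = M * (2 * crossingNumber G) by ring, hD2,
            Finset.mul_sum]
          refine Finset.sum_congr rfl fun e _ => ?_
          rw [Finset.mul_sum]
  linarith

end Pool.Agent.H466.AL
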