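import Pool.Agent.H466.AL.Kappa

set_option autoImplicit false

/-!
The lower bound for the crossing number from samples of fourteen vertices.
-/

open Set Classical
open Pool.Agent.Helper770.Crossing Pool.Agent.NH90.CN
open Pool.Agent.Helper770.Levels (inside inside_le)

namespace Pool.Agent.H466.AL

variable {V : Type}

/-- counting supersets -/
theorem cnt_sup (U Q : Finset V) (hQ : Q ⊆ U) (k : ℕ) (hk : Q.card ≤ k) :
    ((Finset.powersetCard k U).filter (fun S => Q ⊆ S)).card =
      (U.card - Q.card).choose (k - Q.card) := by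
  rw [← Finset.card_sdiff_of_subset hQ, ← Finset.card_powersetCard]
  refine Finset.card_nbij' (fun S => S \ Q) (fun S => S ∪ Q) ?_ ?_ ?_ ?_
  · intro S hS
    simp only [Finset.coe_filter, Finset.mem_powersetCard, Set.mem_setOf_eq,
      Finset.mem_coe] at hS ⊢
    obtain ⟨⟨h1, h2⟩, h3⟩ := hS
    refine ⟨Finset.sdiff_subset_sdiff h1 (Finset.Subset.refl _), ?_⟩
    rw [Finset.card_sdiff_of_subset h3, h2]
  · intro S hS
    simp only [Finset.coe_filter, Finset.mem_powersetCard, Set.mem_setOf_eq,
      Finset.mem_coe] at hS ⊢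
    obtain ⟨h1, h2⟩ := hS
    have h3 : Disjoint S Q := by
      rw [Finset.disjoint_left]
      intro x hx hx'
      exact (Finset.mem_sdiff.1 (h1 hx)).2 hx'
    refine ⟨⟨Finset.union_subset (h1.trans Finset.sdiff_subset) hQ, ?_⟩,
      Finset.subset_union_right⟩
    rw [Finset.card_union_of_disjoint h3, h2]
    omega
  · intro S hS
    simp only [Finset.coe_filter, Finset.mem_powersetCard, Set.mem_setOf_eq] at hS
    exact Finset.sdiff_union_of_subset hS.2
  · intro S hS
    simp only [Finset.mem_coe, Finset.mem_powersetCard] at hS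
    have h3 : Disjoint S Q := by
      rw [Finset.disjoint_left]
      intro x hx hx'
      exact (Finset.mem_sdiff.1 (hS.1 hx)).2 hx'
    simp only
    rw [Finset.union_sdiff_right]
    exact Finset.sdiff_eq_self_of_disjoint h3

variable [Fintype V]

theorem inside_ge (G : SimpleGraph V) (S : Finset V) (hS : 3 ≤ S.card) :
    2 * (eF (inside G S)).card + 14 ≤ 7 * S.card + crossingNumber (inside G S) := by
  set F : {v // v ∈ S} ↪ V := Function.Embedding.subtype (fun v => v ∈ S) with hF
  have hinj : Function.Injective (Sym2.map F) := Sym2.map.injective F.injective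
  have h1 := cr_ge (G.comap F) (by rw [Fintype.card_coe]; exact hS)
  have h2 : crossingNumber (G.comap F) ≤ crossingNumber (inside G S) := by
    refine cr_mono F _ ?_
    intro x y hxy
    exact ⟨hxy, x.2, y.2⟩
  have himg : eF (inside G S) = (eF (G.comap F)).image (Sym2.map F) := by
    ext e
    rw [Finset.mem_image, DEL.mem_eF]
    constructor
    · intro h1
      induction e with
      | _ x y =>
        have h1' : (inside G S).Adj x y := h1
        refine ⟨s(⟨x, h1'.2.1⟩, ⟨y, h1'.2.2⟩), ?_, rfl⟩
        rw [DEL.mem_eF]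
        exact h1'.1
    · rintro ⟨a, ha, rfl⟩
      rw [DEL.mem_eF] at ha
      induction a with
      | _ x y => exact ⟨ha, x.2, y.2⟩
  rw [Fintype.card_coe] at h1
  rw [himg, Finset.card_image_of_injective _ hinj]
  omega

theorem samp (G : SimpleGraph V) (hn : 14 ≤ Fintype.card V) :
    2 * (eF G).card * (Fintype.card V - 2).choose 12 ≤
      84 * (Fintype.card V).choose 14 + (Fintype.card V - 4).choose 10 * crossingNumber G := by
  have h := lp G (Finset.powersetCard 14 (Finset.univ : Finset V)) (fun S => S) (fun _ => 1)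
    (((Fintype.card V - 4).choose 10 : ℕ) : ℝ) (fun _ _ => zero_le_one) (by
      intro a b c d hab hcd h1 h2 h3 h4
      rw [Finset.sum_const, nsmul_eq_mul, mul_one]
      have h5 : ({a, b, c, d} : Finset V).card = 4 := by
        rw [Finset.card_insert_of_notMem, Finset.card_insert_of_notMem, Finset.card_pair hcd.ne]
        · simp [h3, h4]
        · simp [hab.ne, h1, h2]
      have h6 := cnt_sup (Finset.univ : Finset V) {a, b, c, d} (Finset.subset_univ _) 14
        (by rw [h5]; norm_num)
      rw [h5, Finset.card_univ] at h6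
      have h7 : (Fintype.card V - 4).choose 10 = (Fintype.card V - 4).choose (14 - 4) := rfl
      rw [h7, ← h6]
      refine le_of_eq ?_
      congr 2
      ext S
      simp only [Finset.mem_filter, Finset.insert_subset_iff, Finset.singleton_subset_iff])
  simp only [one_mul] at h
  have h1 : ∀ S ∈ Finset.powersetCard 14 (Finset.univ : Finset V),
      2 * (eF (inside G S)).card ≤ 84 + crossingNumber (inside G S) := by
    intro S hS
    have h2 := (Finset.mem_powersetCard.1 hS).2
    have h3 := inside_ge G S (by omega)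
    omega
  have h2 := Finset.sum_le_sum h1
  rw [Finset.sum_add_distrib, Finset.sum_const, Finset.card_powersetCard, Finset.card_univ,
    smul_eq_mul] at h2
  have h3 : ∑ S ∈ Finset.powersetCard 14 (Finset.univ : Finset V), 2 * (eF (inside G S)).card =
      2 * (eF G).card * (Fintype.card V - 2).choose 12 := by
    rw [← Finset.mul_sum, mul_assoc]
    congr 1
    have h4 : ∀ S : Finset V, (eF (inside G S)).card =
        ∑ e ∈ eF G, if (∀ v ∈ e, v ∈ S) then 1 else 0 := by
      intro S
      rw [← Finset.card_filter]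
      congr 1
      ext e
      rw [Finset.mem_filter, DEL.mem_eF, DEL.mem_eF]
      induction e with
      | _ x y =>
        constructor
        · rintro ⟨h5, h6, h7⟩
          exact ⟨h5, by simp [h6, h7]⟩
        · rintro ⟨h5, h6⟩
          exact ⟨h5, h6 x (by simp), h6 y (by simp)⟩
    rw [Finset.sum_congr rfl (fun S _ => h4 S), Finset.sum_comm]
    rw [Finset.sum_const_nat (m := (Fintype.card V - 2).choose 12)]
    intro e he
    rw [← Finset.card_filter]
    rw [DEL.mem_eF] at he
    induction e with
    | _ x y =>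
      have hxy : x ≠ y := (show G.Adj x y from he).ne
      have h5 : ({x, y} : Finset V).card = 2 := Finset.card_pair hxy
      have h6 := cnt_sup (Finset.univ : Finset V) {x, y} (Finset.subset_univ _) 14
        (by rw [h5]; norm_num)
      rw [h5, Finset.card_univ] at h6
      rw [show (Fintype.card V - 2).choose 12 = (Fintype.card V - 2).choose (14 - 2) from rfl,
        ← h6]
      congr 1
      ext S
      simp [Finset.insert_subset_iff]
  rw [h3] at h2
  have h4 : (∑ S ∈ Finset.powersetCard 14 (Finset.univ : Finset V),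
      crossingNumber (inside G S) : ℕ) ≤ (Fintype.card V - 4).choose 10 * crossingNumber G := by
    exact_mod_cast h
  omega

/-- non-neighbours -/
noncomputable def nb (G : SimpleGraph V) (v : V) : Finset V :=
  Finset.univ.filter (fun u => u ≠ v ∧ ¬ G.Adj v u)

theorem mem_nb {G : SimpleGraph V} {u v : V} : u ∈ nb G v ↔ u ≠ v ∧ ¬ G.Adj v u := by
  unfold nb; simp

theorem nb_symm {G : SimpleGraph V} {u v : V} (h : u ∈ nb G v) : v ∈ nb G u := by
  rw [mem_nb] at h ⊢
  exact ⟨h.1.symm, fun h' => h.2 h'.symm⟩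

/-- total degree of the complement -/
theorem sum_nb (G : SimpleGraph V) :
    ∑ v, (nb G v).card + 2 * (eF G).card = Fintype.card V * (Fintype.card V - 1) := by
  have h1 : ∀ v, (nb G v).card + G.degree v = Fintype.card V - 1 := by
    intro v
    rw [← SimpleGraph.card_neighborFinset_eq_degree]
    have h2 : Disjoint (nb G v) (G.neighborFinset v) := by
      rw [Finset.disjoint_left]
      intro x hx hx'
      rw [SimpleGraph.mem_neighborFinset] at hx'
      exact (mem_nb.1 hx).2 hx'
    rw [← Finset.card_union_of_disjoint h2]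
    have h3 : nb G v ∪ G.neighborFinset v = Finset.univ.erase v := by
      ext x
      rw [Finset.mem_union, mem_nb, SimpleGraph.mem_neighborFinset, Finset.mem_erase]
      constructor
      · rintro (h | h)
        · exact ⟨h.1, Finset.mem_univ _⟩
        · exact ⟨h.ne', Finset.mem_univ _⟩
      · rintro ⟨h, -⟩
        by_cases h' : G.Adj v x
        · exact Or.inr h'
        · exact Or.inl ⟨h, h'⟩
    rw [h3, Finset.card_erase_of_mem (Finset.mem_univ _), Finset.card_univ]
  have h2 : 2 * (eF G).card = ∑ v, G.degree v := by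
    rw [G.sum_degrees_eq_twice_card_edges]
    congr 2
    ext e
    rw [DEL.mem_eF, SimpleGraph.mem_edgeFinset]
  rw [h2, ← Finset.sum_add_distrib, Finset.sum_congr rfl (fun v _ => h1 v), Finset.sum_const,
    Finset.card_univ, smul_eq_mul]

theorem choose_ids (m : ℕ) :
    132 * (m + 2).choose 12 = (m + 2) * (m + 1) * m.choose 10 ∧
    24024 * (m + 4).choose 14 = (m + 4) * (m + 3) * (m + 2) * (m + 1) * m.choose 10 := by
  have h1 := Nat.add_one_mul_choose_eq m 10
  have h2 := Nat.add_one_mul_choose_eq (m + 1) 11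
  have h3 := Nat.add_one_mul_choose_eq (m + 2) 12
  have h4 := Nat.add_one_mul_choose_eq (m + 3) 13
  have e2 : 132 * (m + 2).choose 12 = (m + 2) * (m + 1) * m.choose 10 := by
    calc 132 * (m + 2).choose 12 = 11 * ((m + 1 + 1).choose (11 + 1) * (11 + 1)) := by ring
      _ = 11 * ((m + 1 + 1) * (m + 1).choose 11) := by rw [h2]
      _ = (m + 2) * ((m + 1).choose (10 + 1) * (10 + 1)) := by ring
      _ = (m + 2) * ((m + 1) * m.choose 10) := by rw [← h1]
      _ = _ := by ring
  refine ⟨e2, ?_⟩
  calc 24024 * (m + 4).choose 14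
      = 1716 * ((m + 3 + 1).choose (13 + 1) * (13 + 1)) := by ring
    _ = 1716 * ((m + 3 + 1) * (m + 3).choose 13) := by rw [h4]
    _ = 132 * (m + 4) * ((m + 2 + 1).choose (12 + 1) * (12 + 1)) := by ring
    _ = 132 * (m + 4) * ((m + 2 + 1) * (m + 2).choose 12) := by rw [h3]
    _ = (m + 4) * (m + 3) * (132 * (m + 2).choose 12) := by ring
    _ = _ := by rw [e2]; ring

/-- the density bound -/
theorem dens (G : SimpleGraph V) (hn : 14 ≤ Fintype.card V) (n D : ℝ)
    (hn' : n = Fintype.card V) (hD : D = ∑ v, ((nb G v).card : ℝ)) :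
    (n - 2) * (n - 3) * (7 * n * (n - 1) / 1716 - D / 132) ≤ crossingNumber G := by
  have h := samp G hn
  obtain ⟨m, hm⟩ : ∃ m, Fintype.card V = m + 4 := ⟨Fintype.card V - 4, by omega⟩
  have hs := sum_nb G
  rw [hm] at h hs hn'
  have e1 : m + 4 - 2 = m + 2 := by omega
  have e2 : m + 4 - 4 = m := by omega
  have e3 : m + 4 - 1 = m + 3 := by omega
  rw [e1, e2] at h
  rw [e3] at hs
  obtain ⟨i1, i2⟩ := choose_ids m
  have hC : (0 : ℝ) < (m.choose 10 : ℕ) := by
    exact_mod_cast Nat.choose_pos (by omega : 10 ≤ m)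
  have hr : (2 : ℝ) * (eF G).card * ((m + 2).choose 12 : ℕ) ≤
      84 * ((m + 4).choose 14 : ℕ) + (m.choose 10 : ℕ) * (crossingNumber G : ℝ) := by
    exact_mod_cast h
  have j1 : (132 : ℝ) * ((m + 2).choose 12 : ℕ) = (m + 2) * (m + 1) * (m.choose 10 : ℕ) := by
    exact_mod_cast i1
  have j2 : (24024 : ℝ) * ((m + 4).choose 14 : ℕ) =
      (m + 4) * (m + 3) * (m + 2) * (m + 1) * (m.choose 10 : ℕ) := by
    exact_mod_cast i2
  have js : D + 2 * (eF G).card = ((m : ℝ) + 4) * (m + 3) := by
    rw [hD]
    exact_mod_cast hs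
  have hn2 : n = (m : ℝ) + 4 := by rw [hn']; push_cast; ring
  rw [hn2]
  set c := ((m.choose 10 : ℕ) : ℝ)
  set X := ((m + 2).choose 12 : ℕ)
  have k1 : (X : ℝ) = (m + 2) * (m + 1) * c / 132 := by linarith
  have k2 : ((((m + 4).choose 14 : ℕ)) : ℝ) =
      (m + 4) * (m + 3) * (m + 2) * (m + 1) * c / 24024 := by linarith
  rw [k1, k2] at hr
  have k3 : (2 : ℝ) * (eF G).card = ((m : ℝ) + 4) * (m + 3) - D := by linarith
  rw [k3] at hr
  have k4 : c * (((m : ℝ) + 4 - 2) * ((m : ℝ) + 4 - 3) *
      (7 * ((m : ℝ) + 4) * ((m : ℝ) + 4 - 1) / 1716 - D / 132)) ≤ c * crossingNumber G := by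
    have : c * (((m : ℝ) + 4 - 2) * ((m : ℝ) + 4 - 3) *
      (7 * ((m : ℝ) + 4) * ((m : ℝ) + 4 - 1) / 1716 - D / 132)) =
      (((m : ℝ) + 4) * (m + 3) - D) * ((m + 2) * (m + 1) * c / 132) -
      84 * ((m + 4) * (m + 3) * (m + 2) * (m + 1) * c / 24024) := by ring
    rw [this]
    linarith
  exact le_of_mul_le_mul_left k4 hC

end Pool.Agent.H466.AL
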