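import Pool.Agent.H466.AL.OnePl
import Pool.Agent.H466.AL.Samp

set_option autoImplicit false

/-!
A lower bound for the crossing number of complete bipartite graphs.
-/

open Set Classical
open Pool.Agent.Helper770.Crossing Pool.Agent.NH90.CN
open Pool.Agent.Helper531_Thick (IsPlane plane_bip)
open Pool.Agent.Helper770.Levels (inside inside_le)

namespace Pool.Agent.H466.AL

theorem plane_of {V : Type} {G : SimpleGraph V} (D : Drawing G) (h : D.crossings = ∅) :
    IsPlane G := by
  have hno : ∀ e ∈ G.edgeSet, ∀ e' ∈ G.edgeSet, ∀ y, y ∈ D.arc e '' Ioo (0 : ℝ) 1 →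
      y ∈ D.arc e' '' Ioo (0 : ℝ) 1 → e = e' := by
    intro e he e' he' y h1 h2
    by_contra hne
    have : ((s(e, e'), y) : Sym2 (Sym2 V) × ℂ) ∈ D.crossings := ⟨e, he, e', he', hne, rfl, h1, h2⟩
    rw [h] at this
    exact this
  let R : ℂ → ℝ × ℝ := fun w => (w.re, w.im)
  have Rinj : Function.Injective R := fun a b h =>
    Complex.ext (congrArg Prod.fst h) (congrArg Prod.snd h)
  have Rcont : Continuous R := Complex.continuous_re.prodMk Complex.continuous_im
  let φ : V → V → unitInterval → ℝ := fun u v s =>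
    if D.arc s(u, v) 0 = D.pos u then (s : ℝ) else 1 - (s : ℝ)
  have hφc : ∀ u v, Continuous (φ u v) := by
    intro u v
    simp only [φ]
    split_ifs
    · exact continuous_subtype_val
    · exact continuous_const.sub continuous_subtype_val
  have hφI : ∀ u v s, φ u v s ∈ Icc (0 : ℝ) 1 := by
    intro u v s
    simp only [φ]
    have := s.2
    split_ifs
    · exact this
    · exact ⟨by linarith [this.2], by linarith [this.1]⟩
  have hφi : ∀ u v, Function.Injective (φ u v) := by
    intro u v s t hst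
    simp only [φ] at hst
    apply Subtype.ext
    split_ifs at hst
    · exact hst
    · linarith
  have hφo : ∀ u v (s : unitInterval), s ≠ 0 → s ≠ 1 → φ u v s ∈ Ioo (0 : ℝ) 1 := by
    intro u v s h0 h1
    have h2 : 0 < (s : ℝ) := lt_of_le_of_ne s.2.1 (fun h => h0 (Subtype.ext h.symm))
    have h3 : (s : ℝ) < 1 := lt_of_le_of_ne s.2.2 (fun h => h1 (Subtype.ext h))
    simp only [φ]
    split_ifs
    · exact ⟨h2, h3⟩
    · exact ⟨by linarith, by linarith⟩
  refine ⟨fun v => R (D.pos v), fun a b hab => D.pos_injective (Rinj hab),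
    fun u v s => R (D.arc s(u, v) (φ u v s)), ?_, ?_⟩
  · intro u v huv
    have he : s(u, v) ∈ G.edgeSet := huv
    refine ⟨Rcont.comp ((D.arc_continuousOn _ he).comp_continuous (hφc u v) (hφI u v)), ?_, ?_,
      ?_, ?_⟩
    · intro s t hst
      exact hφi u v (D.arc_injOn _ he (hφI u v s) (hφI u v t) (Rinj hst))
    · show R (D.arc s(u, v) (φ u v 0)) = R (D.pos u)
      congr 1
      simp only [φ]
      split_ifs with hc
      · rw [Set.Icc.coe_zero, hc]
      · rw [Set.Icc.coe_zero, sub_zero]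
        rcases D.arc_ends u v he with h' | h'
        · exact absurd h'.1 hc
        · exact h'.2
    · show R (D.arc s(u, v) (φ u v 1)) = R (D.pos v)
      congr 1
      simp only [φ]
      split_ifs with hc
      · rw [Set.Icc.coe_one]
        rcases D.arc_ends u v he with h' | h'
        · exact h'.2
        · exfalso
          have h1 : D.pos v = D.pos u := h'.1.symm.trans hc
          exact huv.ne (D.pos_injective h1).symm
      · rw [Set.Icc.coe_one, sub_self]
        rcases D.arc_ends u v he with h' | h'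
        · exact absurd h'.1 hc
        · exact h'.1
    · intro t t0 t1 w h'
      exact D.arc_avoids _ he _ (hφo u v t t0 t1) w (Rinj h')
  · intro u v u' v' huv huv' t t' t0 t1 t0' t1' heq
    have h1 := Rinj heq
    have h2 := hno s(u, v) huv s(u', v') huv' _ ⟨_, hφo u v t t0 t1, rfl⟩
      ⟨_, hφo u' v' t' t0' t1', h1.symm⟩
    exact Sym2.eq_iff.1 h2

/-- the complete bipartite graph -/
def K33 : SimpleGraph (Fin 3 ⊕ Fin 3) := completeBipartiteGraph (Fin 3) (Fin 3)

theorem cr_K33' : 1 ≤ crossingNumber K33 := by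
  obtain ⟨D, h1, h2, h3⟩ := p_GOOD _ K33
  by_contra hc
  have h0 : crossingNumber K33 = 0 := by omega
  rw [h0] at h3
  rw [Set.ncard_eq_zero h1] at h3
  have h4 := plane_bip K33 (plane_of D h3) Finset.univ (by
    intro e _
    exact Or.inl ⟨rfl, rfl⟩) (by simp)
  rw [Finset.card_univ, Fintype.card_prod, Fintype.card_fin] at h4
  omega

variable {V : Type} [Fintype V]

theorem cr_K33 (G : SimpleGraph V) (X Y : Finset V) (hX : X.card = 3) (hY : Y.card = 3)
    (hd : Disjoint X Y) (h : ∀ x ∈ X, ∀ y ∈ Y, G.Adj x y) : 1 ≤ crossingNumber G := by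
  refine cr_K33'.trans ?_
  let e := (X.equivFinOfCardEq hX).symm
  let e' := (Y.equivFinOfCardEq hY).symm
  refine cr_mono (G := G) ⟨Sum.elim (fun i => (e i).1) (fun i => (e' i).1), ?_⟩ _ ?_
  · rintro (i | i) (j | j) hij
    · simp only [Sum.elim_inl] at hij
      rw [e.injective (Subtype.ext hij)]
    · exfalso
      simp only [Sum.elim_inl, Sum.elim_inr] at hij
      exact Finset.disjoint_left.1 hd (e i).2 (by rw [hij]; exact (e' j).2)
    · exfalso
      simp only [Sum.elim_inl, Sum.elim_inr] at hij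
      exact Finset.disjoint_left.1 hd (e j).2 (by rw [← hij]; exact (e' i).2)
    · simp only [Sum.elim_inr] at hij
      rw [e'.injective (Subtype.ext hij)]
  · rintro (i | i) (j | j) hij
    · exact absurd hij (by simp [K33])
    · exact h _ (e i).2 _ (e' j).2
    · exact (h _ (e j).2 _ (e' i).2).symm
    · exact absurd hij (by simp [K33])

/-- the edges between `U` and its complement -/
def bip (G : SimpleGraph V) (U : Finset V) : SimpleGraph V where
  Adj x y := G.Adj x y ∧ ((x ∈ U ∧ y ∉ U) ∨ (x ∉ U ∧ y ∈ U))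
  symm := ⟨fun x y h => ⟨h.1.symm, by tauto⟩⟩
  loopless := ⟨fun x h => h.1.ne rfl⟩

omit [Fintype V] in
theorem bip_le (G : SimpleGraph V) (U : Finset V) : bip G U ≤ G := fun _ _ h => h.1

theorem bip_cr (G : SimpleGraph V) (U : Finset V) (h : ∀ x ∈ U, ∀ y ∉ U, G.Adj x y) (k l : ℕ)
    (hk : U.card = k + 2) (hl : (Uᶜ : Finset V).card = l + 2) (hk1 : 1 ≤ k) (hl1 : 1 ≤ l) :
    (((k : ℝ) + 2) * (k + 1)) * ((l + 2) * (l + 1)) ≤ 36 * crossingNumber (bip G U) := by
  have hlp := lp (bip G U) (Finset.powersetCard 3 U ×ˢ Finset.powersetCard 3 (Uᶜ : Finset V))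
    (fun p => p.1 ∪ p.2) (fun _ => 1) ((k : ℝ) * l) (fun _ _ => zero_le_one) (by
      intro a b c d hab hcd h1 h2 h3 h4
      rw [Finset.sum_const, nsmul_eq_mul, mul_one]
      -- two vertices in each part
      obtain ⟨x, x', y, y', hx, hx', hy, hy', hxx, hyy, hiff⟩ : ∃ x x' y y' : V, x ∈ U ∧ x' ∈ U ∧
          y ∉ U ∧ y' ∉ U ∧ x ≠ x' ∧ y ≠ y' ∧ ∀ S : Finset V, (a ∈ S ∧ b ∈ S ∧ c ∈ S ∧ d ∈ S) ↔
          (x ∈ S ∧ x' ∈ S ∧ y ∈ S ∧ y' ∈ S) := by
        rcases hab.2 with ⟨i1, i2⟩ | ⟨i1, i2⟩ <;> rcases hcd.2 with ⟨j1, j2⟩ | ⟨j1, j2⟩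
        · exact ⟨a, c, b, d, i1, j1, i2, j2, h1, h4, fun S => by tauto⟩
        · exact ⟨a, d, b, c, i1, j2, i2, j1, h2, h3, fun S => by tauto⟩
        · exact ⟨b, c, a, d, i2, j1, i1, j2, h3, h2, fun S => by tauto⟩
        · exact ⟨b, d, a, c, i2, j2, i1, j1, h4, h1, fun S => by tauto⟩
      have c1 := cnt_sup U {x, x'} (by
        rw [Finset.insert_subset_iff, Finset.singleton_subset_iff]; exact ⟨hx, hx'⟩) 3
        (by rw [Finset.card_pair hxx]; norm_num)
      have c2 := cnt_sup (Uᶜ : Finset V) {y, y'} (by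
        rw [Finset.insert_subset_iff, Finset.singleton_subset_iff, Finset.mem_compl,
          Finset.mem_compl]
        exact ⟨hy, hy'⟩) 3 (by rw [Finset.card_pair hyy]; norm_num)
      rw [Finset.card_pair hxx, hk] at c1
      rw [Finset.card_pair hyy, hl] at c2
      have e1 : (k + 2 - 2).choose (3 - 2) = k := by simp
      have e2 : (l + 2 - 2).choose (3 - 2) = l := by simp
      rw [e1] at c1
      rw [e2] at c2
      have hsub : (Finset.powersetCard 3 U ×ˢ Finset.powersetCard 3 (Uᶜ : Finset V)).filter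
          (fun p => a ∈ p.1 ∪ p.2 ∧ b ∈ p.1 ∪ p.2 ∧ c ∈ p.1 ∪ p.2 ∧ d ∈ p.1 ∪ p.2) ⊆
          (Finset.powersetCard 3 U).filter (fun S => {x, x'} ⊆ S) ×ˢ
          (Finset.powersetCard 3 (Uᶜ : Finset V)).filter (fun S => {y, y'} ⊆ S) := by
        rintro ⟨X, Y⟩ hp
        rw [Finset.mem_filter, Finset.mem_product] at hp
        obtain ⟨⟨p1, p2⟩, p3⟩ := hp
        simp only at p1 p2 p3
        rw [hiff] at p3
        have q1 := (Finset.mem_powersetCard.1 p1).1
        have q2 := (Finset.mem_powersetCard.1 p2).1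
        have m1 : ∀ z, z ∈ U → z ∈ X ∪ Y → z ∈ X := by
          intro z hz hz'
          rcases Finset.mem_union.1 hz' with h' | h'
          · exact h'
          · exact absurd hz (Finset.mem_compl.1 (q2 h'))
        have m2 : ∀ z, z ∉ U → z ∈ X ∪ Y → z ∈ Y := by
          intro z hz hz'
          rcases Finset.mem_union.1 hz' with h' | h'
          · exact absurd (q1 h') hz
          · exact h'
        rw [Finset.mem_product, Finset.mem_filter, Finset.mem_filter]
        simp only [Finset.insert_subset_iff, Finset.singleton_subset_iff]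
        exact ⟨⟨p1, m1 x hx p3.1, m1 x' hx' p3.2.1⟩, ⟨p2, m2 y hy p3.2.2.1, m2 y' hy' p3.2.2.2⟩⟩
      have := Finset.card_le_card hsub
      rw [Finset.card_product, c1, c2] at this
      exact_mod_cast this)
  have hge : ∀ p ∈ Finset.powersetCard 3 U ×ˢ Finset.powersetCard 3 (Uᶜ : Finset V),
      (1 : ℝ) ≤ 1 * (crossingNumber (inside (bip G U) (p.1 ∪ p.2)) : ℝ) := by
    rintro ⟨X, Y⟩ hp
    rw [Finset.mem_product] at hp
    obtain ⟨p1, p2⟩ := hp
    simp only at p1 p2 ⊢
    rw [Finset.mem_powersetCard] at p1 p2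
    rw [one_mul]
    have : 1 ≤ crossingNumber (inside (bip G U) (X ∪ Y)) := by
      refine cr_K33 _ X Y p1.2 p2.2 ?_ ?_
      · rw [Finset.disjoint_left]
        intro z hz hz'
        exact (Finset.mem_compl.1 (p2.1 hz')) (p1.1 hz)
      · intro x hx y hy
        have hxU := p1.1 hx
        have hyU := Finset.mem_compl.1 (p2.1 hy)
        exact ⟨⟨h x hxU y hyU, Or.inl ⟨hxU, hyU⟩⟩, Finset.mem_union_left _ hx,
          Finset.mem_union_right _ hy⟩
    exact_mod_cast this
  have h2 := Finset.card_nsmul_le_sum _ _ _ hge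
  rw [nsmul_eq_mul, mul_one, Finset.card_product, Finset.card_powersetCard,
    Finset.card_powersetCard, hk, hl] at h2
  have h3 := h2.trans hlp
  have hch : ∀ m : ℕ, (((m + 2).choose 3 : ℕ) : ℝ) = (m + 2) * (m + 1) * m / 6 := by
    intro m
    have h4 := Nat.add_one_mul_choose_eq (m + 1) 2
    have h5 := Nat.add_one_mul_choose_eq m 1
    rw [Nat.choose_one_right] at h5
    have h6 : 6 * (m + 2).choose 3 = (m + 2) * (m + 1) * m := by
      calc 6 * (m + 2).choose 3 = 2 * ((m + 1 + 1).choose (2 + 1) * (2 + 1)) := by ring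
        _ = 2 * ((m + 1 + 1) * (m + 1).choose 2) := by rw [h4]
        _ = (m + 2) * ((m + 1).choose (1 + 1) * (1 + 1)) := by ring
        _ = _ := by rw [← h5]; ring
    have h7 : (6 : ℝ) * ((m + 2).choose 3 : ℕ) = (m + 2) * (m + 1) * m := by exact_mod_cast h6
    linarith
  push_cast at h3
  rw [hch, hch] at h3
  have hkp : (0 : ℝ) < k := by exact_mod_cast hk1
  have hlp' : (0 : ℝ) < l := by exact_mod_cast hl1
  have hkl : (0 : ℝ) < (k : ℝ) * l := by positivity
  have h8 : ((k : ℝ) * l) * ((((k : ℝ) + 2) * (k + 1)) * ((l + 2) * (l + 1))) ≤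
      ((k : ℝ) * l) * (36 * crossingNumber (bip G U)) := by
    have e3 : ((k : ℝ) * l) * ((((k : ℝ) + 2) * (k + 1)) * ((l + 2) * (l + 1))) =
      36 * (((k : ℝ) + 2) * (k + 1) * k / 6 * (((l : ℝ) + 2) * (l + 1) * l / 6)) := by ring
    rw [e3]
    linarith
  exact le_of_mul_le_mul_left h8 hkl

end Pool.Agent.H466.AL
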