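import Pool.Agent.H466.AL.Cliq

set_option autoImplicit false

/-!
Graphs without independent triples that have at most few universal vertices: the crossing number is
at least that of a complete graph on about half of the vertices.
-/

open Set Classical
open Pool.Agent.Helper770.Crossing Pool.Agent.NH90.CN
open Pool.Agent.Helper770.Levels (inside inside_le)

namespace Pool.Agent.H466.AL

theorem jensen {U : Type} (S : Finset U) (d : U → ℝ) (hd : ∀ v ∈ S, 0 ≤ d v) (N b D : ℝ)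
    (hN : N = S.card) (hN0 : 0 < N) (hb : 0 ≤ b) (hD : D = ∑ v ∈ S, d v) :
    D * (D / N + b) ^ 4 ≤ ∑ v ∈ S, d v * (d v + b) ^ 4 := by
  have hD0 : 0 ≤ D := by rw [hD]; exact Finset.sum_nonneg hd
  set m := D / N with hm
  have hm0 : 0 ≤ m := div_nonneg hD0 hN0.le
  have hmN : m * N = D := by rw [hm]; field_simp
  obtain ⟨c, hc⟩ : ∃ c, c = m * (m + b) ^ 4 := ⟨_, rfl⟩
  obtain ⟨g, hg⟩ : ∃ g, g = (m + b) ^ 4 + 4 * m * (m + b) ^ 3 := ⟨_, rfl⟩
  have h1 : ∀ v ∈ S, c + g * (d v - m) ≤ d v * (d v + b) ^ 4 := by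
    intro v hv
    have hx := hd v hv
    rw [hc, hg]
    generalize d v = x at hx
    have h2 : x * (x + b) ^ 4 - (m * (m + b) ^ 4 + ((m + b) ^ 4 + 4 * m * (m + b) ^ 3) * (x - m)) =
        (x - m) ^ 2 * (x * ((x + b) ^ 2 + 2 * (x + b) * (m + b) + 3 * (m + b) ^ 2) +
          4 * (m + b) ^ 3) := by ring
    have h3 : 0 ≤ (x - m) ^ 2 * (x * ((x + b) ^ 2 + 2 * (x + b) * (m + b) + 3 * (m + b) ^ 2) +
          4 * (m + b) ^ 3) := by positivity
    linarith
  have h2 := Finset.sum_le_sum h1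
  have h4 : ∑ v ∈ S, (c + g * (d v - m)) = N * c + g * (D - N * m) := by
    rw [Finset.sum_add_distrib, Finset.sum_const, nsmul_eq_mul, ← hN, ← Finset.mul_sum,
      Finset.sum_sub_distrib, ← hD, Finset.sum_const, nsmul_eq_mul, ← hN]
  rw [h4] at h2
  have h3 : N * c + g * (D - N * m) = D * (m + b) ^ 4 := by
    rw [mul_comm N m, hmN, sub_self, mul_zero, add_zero, hc, ← mul_assoc, mul_comm N m, hmN]
  linarith

theorem pow4_sub (u c : ℝ) : u ^ 4 - 4 * c * u ^ 3 ≤ (u - c) ^ 4 := by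
  have : (u - c) ^ 4 - (u ^ 4 - 4 * c * u ^ 3) = c ^ 2 * (2 * u ^ 2 + (2 * u - c) ^ 2) := by ring
  have h : 0 ≤ c ^ 2 * (2 * u ^ 2 + (2 * u - c) ^ 2) := by positivity
  linarith

/-- numerical part of the density case -/
theorem num1 {n a D κ cr : ℝ} (ha : 0 ≤ a) (hn : 14 ≤ n) (han : 127 * a ≤ 27 * n)
    (hD : D ≤ 0.4075 * (n - a) ^ 2) (hκ : κ ≤ 1 / 64)
    (h : (n - 2) * (n - 3) * (7 * n * (n - 1) / 1716 - D / 132) ≤ cr) :
    1.001 * κ * ((n + a) / 2) ^ 4 - ((n + a) / 2) ^ 3 ≤ cr := by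
  set N := n - a with hN
  have hn' : n = N + a := by rw [hN]; ring
  have hT : (n + a) / 2 = N / 2 + a := by rw [hn']; ring
  rw [hT]
  have haN : a ≤ 0.27 * N := by rw [hn'] at han; linarith
  have hN0 : 0 < N := by linarith
  have hn0 : 0 < n := by linarith
  set P := 7 * n ^ 2 / 1716 - 0.4075 * N ^ 2 / 132 with hP
  have h1 : (n - 2) * (n - 3) * (P - 7 * n / 1716) ≤
      (n - 2) * (n - 3) * (7 * n * (n - 1) / 1716 - D / 132) := by
    apply mul_le_mul_of_nonneg_left _ (mul_nonneg (by linarith) (by linarith))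
    rw [hP]
    have : 7 * n * (n - 1) / 1716 = 7 * n ^ 2 / 1716 - 7 * n / 1716 := by ring
    rw [this]
    linarith
  have hP1 : P ≤ 7 * n ^ 2 / 1716 := by
    rw [hP]
    have : 0 ≤ N ^ 2 := by positivity
    linarith
  have hP0 : 0 ≤ P := by
    rw [hP, hn']
    nlinarith [mul_nonneg ha hN0.le]
  have h2 : n ^ 2 * P - n ^ 3 / 40 ≤ (n - 2) * (n - 3) * (P - 7 * n / 1716) := by
    have e : (n - 2) * (n - 3) * (P - 7 * n / 1716) =
        n ^ 2 * P - 5 * n * P + 6 * P - 7 * n ^ 3 / 1716 + (5 * n - 6) * (7 * n / 1716) := by ring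
    rw [e]
    have h3 : 5 * n * P ≤ 5 * n * (7 * n ^ 2 / 1716) :=
      mul_le_mul_of_nonneg_left hP1 (by linarith)
    have h4 : 0 ≤ (5 * n - 6) * (7 * n / 1716) := mul_nonneg (by linarith) (by positivity)
    have h5 : 0 ≤ n ^ 3 := by positivity
    nlinarith
  have h3 : (1.005 / 64) * (N / 2 + a) ^ 4 ≤ n ^ 2 * P := by
    rw [hP, hn']
    have g0 : 0 ≤ N ^ 4 := by positivity
    have g1 : 0 ≤ N ^ 3 * a := by positivity
    have g2 : 0 ≤ N ^ 2 * a * (0.27 * N - a) := mul_nonneg (by positivity) (by linarith)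
    have g3 : 0 ≤ N * a ^ 2 * (0.27 * N - a) := mul_nonneg (by positivity) (by linarith)
    have g4 : 0 ≤ a ^ 3 * (0.27 * N - a) := mul_nonneg (by positivity) (by linarith)
    nlinarith
  have h4 : n ^ 3 / 40 ≤ (N / 2 + a) ^ 3 := by
    have : n ≤ 2 * (N / 2 + a) := by rw [hn']; linarith
    have h5 : n ^ 3 ≤ (2 * (N / 2 + a)) ^ 3 := pow_le_pow_left₀ hn0.le this 3
    have h6 : 0 ≤ (N / 2 + a) ^ 3 := by positivity
    have h7 : (2 * (N / 2 + a)) ^ 3 = 8 * (N / 2 + a) ^ 3 := by ring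
    rw [h7] at h5
    linarith
  have h5 : 1.001 * κ * (N / 2 + a) ^ 4 ≤ (1.005 / 64) * (N / 2 + a) ^ 4 := by
    apply mul_le_mul_of_nonneg_right _ (by positivity)
    linarith
  linarith

/-- numerical part of the case of two cliques -/
theorem num2 {n a κ ε C x y cr : ℝ} (ha : 0 ≤ a) (hn : 14 ≤ n) (han : 127 * a ≤ 27 * n)
    (hκ0 : 0 ≤ κ) (hε : ε = κ / 10000) (hC : 0 ≤ C) (hx0 : 0 ≤ x) (hy0 : 0 ≤ y)
    (hx : x ≤ n) (hy : y ≤ n)
    (hxy : 0.843 * (n - a) + 1.68 * a - 2 ≤ x + y)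
    (h : ((κ - ε) * x ^ 4 - C * x ^ 3) + ((κ - ε) * y ^ 4 - C * y ^ 3) ≤ cr) :
    1.001 * κ * ((n + a) / 2) ^ 4 - (16 * C + 10 * κ) * ((n + a) / 2) ^ 3 ≤ cr := by
  set T := (n + a) / 2 with hT
  have hT0 : 7 ≤ T := by rw [hT]; linarith
  have hn2 : n ≤ 2 * T := by rw [hT]; linarith
  have hz : 0.8418 * T - 1 ≤ (x + y) / 2 := by
    rw [hT]
    linarith
  have hz0 : 0 ≤ 0.8418 * T - 1 := by linarith
  have h1 : 2 * (0.8418 * T - 1) ^ 4 ≤ x ^ 4 + y ^ 4 := by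
    have h2 : (0.8418 * T - 1) ^ 4 ≤ ((x + y) / 2) ^ 4 := pow_le_pow_left₀ hz0 hz 4
    have h3 : 2 * ((x + y) / 2) ^ 4 ≤ x ^ 4 + y ^ 4 := by
      have : x ^ 4 + y ^ 4 - 2 * ((x + y) / 2) ^ 4 =
        (x - y) ^ 2 * (7 * x ^ 2 + 10 * x * y + 7 * y ^ 2) / 8 := by ring
      have h4 : 0 ≤ (x - y) ^ 2 * (7 * x ^ 2 + 10 * x * y + 7 * y ^ 2) / 8 := by positivity
      linarith
    linarith
  have h2 := pow4_sub (0.8418 * T) 1
  have hκε : 0 ≤ κ - ε := by rw [hε]; linarith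
  have h3 : x ^ 3 ≤ 8 * T ^ 3 := by
    calc x ^ 3 ≤ (2 * T) ^ 3 := pow_le_pow_left₀ hx0 (hx.trans hn2) 3
      _ = 8 * T ^ 3 := by ring
  have h4 : y ^ 3 ≤ 8 * T ^ 3 := by
    calc y ^ 3 ≤ (2 * T) ^ 3 := pow_le_pow_left₀ hy0 (hy.trans hn2) 3
      _ = 8 * T ^ 3 := by ring
  have h5 : (κ - ε) * (2 * ((0.8418 * T) ^ 4 - 4 * 1 * (0.8418 * T) ^ 3)) ≤
      (κ - ε) * (x ^ 4 + y ^ 4) := mul_le_mul_of_nonneg_left (by linarith) hκε
  have h6 : C * (x ^ 3 + y ^ 3) ≤ C * (16 * T ^ 3) :=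
    mul_le_mul_of_nonneg_left (by linarith) hC
  have h7 : 1.001 * κ * T ^ 4 - 10 * κ * T ^ 3 ≤
      (κ - ε) * (2 * ((0.8418 * T) ^ 4 - 4 * 1 * (0.8418 * T) ^ 3)) := by
    rw [hε]
    have g1 : 0 ≤ κ * T ^ 4 := by positivity
    have g2 : 0 ≤ κ * T ^ 3 := by positivity
    nlinarith
  nlinarith

/-- numerical part of the weighted case -/
theorem num3 {n a D κ ε C b M cr : ℝ} (ha : 0 ≤ a) (hn : 14 ≤ n) (han : 127 * a ≤ 27 * n)
    (hκ0 : 0 ≤ κ) (hε : ε = κ / 10000) (hC : 0 ≤ C) (hD : 0.4075 * (n - a) ^ 2 ≤ D)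
    (hD' : D ≤ (n - a) ^ 2) (hb : 0.81 * a - 1 ≤ b) (hb0 : 0 ≤ b)
    (hM : M = max (0.17766225 * (n - a) ^ 2) (0.81 ^ 4 * D)) (hcr : 0 ≤ cr)
    (h : (κ - ε) * (D * (D / (n - a) + b) ^ 4) - C * D * n ^ 3 ≤ M * cr) :
    1.001 * κ * ((n + a) / 2) ^ 4 - (100 * C + 40 * κ) * ((n + a) / 2) ^ 3 ≤ cr := by
  set T := (n + a) / 2 with hT
  set N := n - a with hN
  have hNa : a ≤ 0.27 * N := by rw [hN]; linarith
  have hTN : T = N / 2 + a := by rw [hT, hN]; ring
  have hN0 : 0 < N := by linarith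
  have hT0 : 7 ≤ T := by rw [hT]; linarith
  have hn2 : n ≤ 2 * T := by rw [hT]; linarith
  have hn3 : n ^ 3 ≤ 8 * T ^ 3 := by
    calc n ^ 3 ≤ (2 * T) ^ 3 := pow_le_pow_left₀ (by linarith) hn2 3
      _ = 8 * T ^ 3 := by ring
  have hκε : 0 ≤ κ - ε := by rw [hε]; linarith
  have hN2 : 0 < N ^ 2 := by positivity
  have hD0 : 0 < D := by linarith
  have hDN : 0.4075 * N ≤ D / N := by
    rw [le_div_iff₀ hN0]
    linarith [show 0.4075 * N * N = 0.4075 * N ^ 2 by ring]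
  have hDn3 : C * D * n ^ 3 ≤ C * D * (8 * T ^ 3) :=
    mul_le_mul_of_nonneg_left hn3 (by positivity)
  have hT3 : 0 ≤ T ^ 3 := by positivity
  rcases le_total (0.81 ^ 4 * D) (0.17766225 * N ^ 2) with hc | hc
  · rw [max_eq_left hc] at hM
    have h1 : 0.813 * T - 1 ≤ D / N + b := by rw [hTN]; linarith
    have h1' : 0 ≤ 0.813 * T - 1 := by linarith
    have h2 : (0.813 * T - 1) ^ 4 ≤ (D / N + b) ^ 4 := pow_le_pow_left₀ h1' h1 4
    have h3 := pow4_sub (0.813 * T) 1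
    have h4 : (κ - ε) * (D * ((0.813 * T) ^ 4 - 4 * 1 * (0.813 * T) ^ 3)) ≤
        (κ - ε) * (D * (D / N + b) ^ 4) :=
      mul_le_mul_of_nonneg_left (mul_le_mul_of_nonneg_left (by linarith) hD0.le) hκε
    -- divide by `M`
    have h5 : (κ - ε) * (D * ((0.813 * T) ^ 4 - 4 * 1 * (0.813 * T) ^ 3)) - C * D * (8 * T ^ 3) ≤
        0.17766225 * N ^ 2 * cr := by
      rw [hM] at h
      linarith
    -- write in terms of `D`
    have h6 : 0.4075 * N ^ 2 ≤ D := hD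
    have h7 : D * ((κ - ε) * ((0.813 * T) ^ 4 - 4 * 1 * (0.813 * T) ^ 3) - C * (8 * T ^ 3)) ≤
        0.17766225 * N ^ 2 * cr := by
      linarith [show D * ((κ - ε) * ((0.813 * T) ^ 4 - 4 * 1 * (0.813 * T) ^ 3) -
        C * (8 * T ^ 3)) = (κ - ε) * (D * ((0.813 * T) ^ 4 - 4 * 1 * (0.813 * T) ^ 3)) -
        C * D * (8 * T ^ 3) by ring]
    set Q := (κ - ε) * ((0.813 * T) ^ 4 - 4 * 1 * (0.813 * T) ^ 3) - C * (8 * T ^ 3) with hQ
    have h8 : 0.4075 * Q ≤ 0.17766225 * cr := by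
      by_cases hQ0 : 0 ≤ Q
      · have h9 : 0.4075 * N ^ 2 * Q ≤ D * Q := mul_le_mul_of_nonneg_right h6 hQ0
        have h10 : N ^ 2 * (0.4075 * Q) ≤ N ^ 2 * (0.17766225 * cr) := by linarith
        exact le_of_mul_le_mul_left h10 hN2
      · push Not at hQ0
        have : 0 ≤ 0.17766225 * cr := by positivity
        linarith
    have h9 : (0.17766225 : ℝ) * (1.001 * κ * T ^ 4 - (100 * C + 40 * κ) * T ^ 3) ≤ 0.4075 * Q := by
      rw [hQ, hε]
      have g1 : 0 ≤ κ * T ^ 4 := by positivity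
      have g2 : 0 ≤ κ * T ^ 3 := by positivity
      have g3 : 0 ≤ C * T ^ 3 := by positivity
      nlinarith
    linarith
  · rw [max_eq_right hc] at hM
    have h0 : 0.4127 * N ^ 2 ≤ D := by
      have : (0.81 : ℝ) ^ 4 = 0.43046721 := by norm_num
      rw [this] at hc
      linarith
    have hDN' : 0.4127 * N ≤ D / N := by
      rw [le_div_iff₀ hN0]
      linarith [show 0.4127 * N * N = 0.4127 * N ^ 2 by ring]
    have h1 : 0.81 * (1.009 * T) - 1 ≤ D / N + b := by rw [hTN]; linarith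
    have h1' : 0 ≤ 0.81 * (1.009 * T) - 1 := by linarith
    have h2 : (0.81 * (1.009 * T) - 1) ^ 4 ≤ (D / N + b) ^ 4 := pow_le_pow_left₀ h1' h1 4
    have h3 := pow4_sub (0.81 * (1.009 * T)) 1
    have h4 : (κ - ε) * ((0.81 * (1.009 * T)) ^ 4 - 4 * 1 * (0.81 * (1.009 * T)) ^ 3) ≤
        (κ - ε) * (D / N + b) ^ 4 := mul_le_mul_of_nonneg_left (by linarith) hκε
    have h5 : D * ((κ - ε) * (D / N + b) ^ 4 - C * n ^ 3) ≤ D * (0.81 ^ 4 * cr) := by
      rw [hM] at h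
      linarith [show D * ((κ - ε) * (D / N + b) ^ 4 - C * n ^ 3) =
        (κ - ε) * (D * (D / N + b) ^ 4) - C * D * n ^ 3 by ring,
        show D * (0.81 ^ 4 * cr) = 0.81 ^ 4 * D * cr by ring]
    have h6 := le_of_mul_le_mul_left h5 hD0
    have h7 : C * n ^ 3 ≤ C * (8 * T ^ 3) := mul_le_mul_of_nonneg_left hn3 hC
    have h8 : (0.81 : ℝ) ^ 4 * (1.001 * κ * T ^ 4 - (100 * C + 40 * κ) * T ^ 3) ≤
        (κ - ε) * ((0.81 * (1.009 * T)) ^ 4 - 4 * 1 * (0.81 * (1.009 * T)) ^ 3) -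
          C * (8 * T ^ 3) := by
      rw [hε]
      have g1 : 0 ≤ κ * T ^ 4 := by positivity
      have g2 : 0 ≤ κ * T ^ 3 := by positivity
      have g3 : 0 ≤ C * T ^ 3 := by positivity
      nlinarith
    have h9 : (0.81 : ℝ) ^ 4 * (1.001 * κ * T ^ 4 - (100 * C + 40 * κ) * T ^ 3) ≤
        0.81 ^ 4 * cr := by linarith
    exact le_of_mul_le_mul_left h9 (by norm_num)

section facts

variable {V : Type} [Fintype V] {G : SimpleGraph V} {A : Finset V}

theorem nb_A (hA : ∀ a ∈ A, ∀ v, v ≠ a → G.Adj a v) {v : V} (hv : v ∈ A) : nb G v = ∅ := by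
  rw [Finset.eq_empty_iff_forall_notMem]
  intro x hx
  rw [mem_nb] at hx
  exact hx.2 (hA v hv x hx.1)

theorem nb_A0 (hA : ∀ a ∈ A, ∀ v, v ≠ a → G.Adj a v) {v : V} (hv : v ∈ A) :
    ((nb G v).card : ℝ) = 0 := by
  rw [nb_A hA hv, Finset.card_empty, Nat.cast_zero]

theorem nb_U (hA : ∀ a ∈ A, ∀ v, v ≠ a → G.Adj a v) (v : V) : nb G v ⊆ Aᶜ := by
  intro x hx
  rw [Finset.mem_compl]
  intro hxA
  have := nb_symm hx
  rw [nb_A hA hxA] at this
  exact absurd this (Finset.notMem_empty _)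

theorem card_U (A : Finset V) : ((Aᶜ).card : ℝ) = (Fintype.card V : ℝ) - A.card := by
  rw [Finset.card_compl, Nat.cast_sub (Finset.card_le_univ A)]

theorem nb_le (hA : ∀ a ∈ A, ∀ v, v ≠ a → G.Adj a v) (v : V) :
    ((nb G v).card : ℝ) ≤ (Fintype.card V : ℝ) - A.card := by
  rw [← card_U]
  exact_mod_cast Finset.card_le_card (nb_U hA v)

theorem sum_U (hA : ∀ a ∈ A, ∀ v, v ≠ a → G.Adj a v) (g : ℝ → ℝ) (h0 : g 0 = 0) :
    ∑ v, g ((nb G v).card : ℝ) = ∑ v ∈ Aᶜ, g ((nb G v).card : ℝ) := by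
  have h1 : ∑ v ∈ A, g ((nb G v).card : ℝ) = 0 :=
    Finset.sum_eq_zero (fun v hv => by rw [nb_A0 hA hv, h0])
  have h2 := Finset.sum_add_sum_compl A (fun v => g ((nb G v).card : ℝ))
  rw [← h2, h1, zero_add]

theorem pair_case (hG : A2 G) (hA : ∀ a ∈ A, ∀ v, v ≠ a → G.Adj a v) (b : ℕ)
    (hb : (b : ℝ) ≤ 0.84 * A.card) (u v : V) (huv : v ∈ nb G u) :
    (crossingNumber (K ((nb G u).card + b)) : ℝ) + crossingNumber (K ((nb G v).card + b)) ≤
      crossingNumber G := by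
  have huv' : u ≠ v := (mem_nb.1 huv).1.symm
  have hvu := nb_symm huv
  have huA : u ∉ A := by
    intro h
    rw [nb_A hA h] at huv
    exact absurd huv (Finset.notMem_empty _)
  have hvA : v ∉ A := by
    intro h
    rw [nb_A hA h] at hvu
    exact absurd hvu (Finset.notMem_empty _)
  have h1 := cliq G hG A hA b 0.84 (by norm_num) (by norm_num) hb
    (fun x => if x = u ∨ x = v then 1 else 0) (fun x => by positivity)
    (fun x hx => by
      rw [if_neg]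
      rintro (rfl | rfl)
      · exact huA hx
      · exact hvA hx) 1 zero_le_one (by
      intro x hx
      rw [Finset.sum_ite, Finset.sum_const_zero, add_zero, Finset.sum_const, nsmul_eq_mul,
        mul_one]
      have : ((nb G x).filter (fun y => y = u ∨ y = v)).card ≤ 1 := by
        rw [Finset.card_le_one]
        intro y hy z hz
        rw [Finset.mem_filter] at hy hz
        by_contra hyz
        have key : u ∈ nb G x ∧ v ∈ nb G x := by
          rcases hy.2 with rfl | rfl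
          · rcases hz.2 with rfl | rfl
            · exact absurd rfl hyz
            · exact ⟨hy.1, hz.1⟩
          · rcases hz.2 with rfl | rfl
            · exact ⟨hz.1, hy.1⟩
            · exact absurd rfl hyz
        have h5 := nb_clique hG x u key.1 v key.2 huv'
        exact (mem_nb.1 huv).2 h5
      exact_mod_cast this) (by
      rw [Finset.sum_ite, Finset.sum_const_zero, add_zero, Finset.sum_const, nsmul_eq_mul,
        mul_one]
      have : (Finset.univ.filter (fun y => y = u ∨ y = v)).card = 2 := by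
        have : Finset.univ.filter (fun y => y = u ∨ y = v) = {u, v} := by
          ext; simp
        rw [this, Finset.card_pair huv']
      rw [this]
      norm_num)
  simp only [ite_mul, one_mul, zero_mul] at h1
  rw [Finset.sum_ite, Finset.sum_const_zero, add_zero] at h1
  have h2 : Finset.univ.filter (fun y => y = u ∨ y = v) = {u, v} := by
    ext; simp
  rw [h2, Finset.sum_pair huv'] at h1
  exact h1

theorem lp_case (hG : A2 G) (hA : ∀ a ∈ A, ∀ v, v ≠ a → G.Adj a v) (b : ℕ)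
    (hb : (b : ℝ) ≤ 0.81 * A.card) (n a D M : ℝ) (hn : n = Fintype.card V) (ha : a = A.card)
    (hD : D = ∑ v, ((nb G v).card : ℝ))
    (hM : M = max (0.17766225 * (n - a) ^ 2) (0.81 ^ 4 * D))
    (hN0 : 0 < n - a)
    (hpair : ∀ u v, v ∈ nb G u → ((nb G u).card : ℝ) + (nb G v).card < 0.843 * (n - a))
    (κ C : ℝ) (hκ : 0 ≤ κ) (hC : 0 ≤ C)
    (hlow : ∀ k : ℕ, κ * (k : ℝ) ^ 4 - C * (k : ℝ) ^ 3 ≤ crossingNumber (K k)) :
    κ * (D * (D / (n - a) + b) ^ 4) - C * D * n ^ 3 ≤ M * crossingNumber G := by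
  have hdN : ∀ v, ((nb G v).card : ℝ) ≤ n - a := by
    intro v
    rw [hn, ha]
    exact nb_le hA v
  have ha0 : 0 ≤ a := by rw [ha]; exact Nat.cast_nonneg _
  have hb0 : (0 : ℝ) ≤ b := Nat.cast_nonneg _
  have h1 := cliq G hG A hA b 0.81 (by norm_num) (by norm_num) hb
    (fun x => ((nb G x).card : ℝ)) (fun x => Nat.cast_nonneg _)
    (fun x hx => nb_A0 hA hx) M
    (by rw [hM]; exact le_trans (by positivity) (le_max_left _ _)) (by
      intro x _
      rw [hM]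
      refine le_trans ?_ (le_max_left _ _)
      have h2 : ∀ v ∈ nb G x, ((nb G v).card : ℝ) ≤ 0.843 * (n - a) - (nb G x).card := by
        intro v hv
        have := hpair x v hv
        linarith
      have h3 := Finset.sum_le_card_nsmul _ _ _ h2
      rw [nsmul_eq_mul] at h3
      refine h3.trans ?_
      nlinarith [sq_nonneg (((nb G x).card : ℝ) - 0.4215 * (n - a))])
    (by rw [hM, hD]; exact le_max_right _ _)
  refine le_trans ?_ h1
  have hUc : n - a = ((Aᶜ).card : ℝ) := by rw [card_U, hn, ha]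
  have hDU : D = ∑ v ∈ Aᶜ, ((nb G v).card : ℝ) := by
    rw [hD]
    exact sum_U hA (fun x => x) rfl
  have h3 := jensen Aᶜ (fun v => ((nb G v).card : ℝ)) (fun v _ => Nat.cast_nonneg _) (n - a) b D
    hUc hN0 hb0 hDU
  have h4 := sum_U hA (fun x => x * (x + b) ^ 4) (by ring)
  beta_reduce at h3 h4
  rw [← h4] at h3
  have h5 : ∀ v ∈ (Finset.univ : Finset V), κ *
      (((nb G v).card : ℝ) * (((nb G v).card : ℝ) + b) ^ 4) -
      C * n ^ 3 * ((nb G v).card : ℝ) ≤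
      ((nb G v).card : ℝ) * (crossingNumber (K ((nb G v).card + b)) : ℝ) := by
    intro v _
    have h6 := hlow ((nb G v).card + b)
    have h10 := hdN v
    push_cast at h6
    have hd0 : (0 : ℝ) ≤ (nb G v).card := Nat.cast_nonneg _
    generalize ((nb G v).card : ℝ) = d at *
    generalize (crossingNumber (K ((nb G v).card + b)) : ℝ) = w at *
    have hb' : (b : ℝ) ≤ a := by rw [ha]; rw [ha] at ha0; linarith
    have h7 : (d + b) ^ 3 ≤ n ^ 3 :=
      pow_le_pow_left₀ (by positivity) (by linarith) 3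
    have h8 : C * (d + b) ^ 3 ≤ C * n ^ 3 := mul_le_mul_of_nonneg_left h7 hC
    have h9 := mul_le_mul_of_nonneg_left (show κ * (d + b) ^ 4 - C * n ^ 3 ≤ w by linarith) hd0
    linarith [show d * (κ * (d + b) ^ 4 - C * n ^ 3) = κ * (d * (d + b) ^ 4) -
      C * n ^ 3 * d by ring]
  have h6 := Finset.sum_le_sum h5
  rw [Finset.sum_sub_distrib, ← Finset.mul_sum, ← Finset.mul_sum, ← hD] at h6
  have h7 := mul_le_mul_of_nonneg_left h3 hκ
  linarith [show C * D * n ^ 3 = C * n ^ 3 * D by ring]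

end facts

/-- the lower bound -/
theorem far_lb : ∃ C₁ : ℝ, 0 ≤ C₁ ∧ ∀ (V : Type) [Fintype V] (G : SimpleGraph V) (A : Finset V),
    A2 G → (∀ a ∈ A, ∀ v, v ≠ a → G.Adj a v) → 127 * A.card ≤ 27 * Fintype.card V →
    14 ≤ Fintype.card V →
    1.001 * kap * (((Fintype.card V : ℝ) + A.card) / 2) ^ 4 -
      C₁ * (((Fintype.card V : ℝ) + A.card) / 2) ^ 3 ≤ crossingNumber G := by
  have hk := kap_le
  have hk' := kap_ge
  obtain ⟨C, hC, hlow⟩ := cr_ge_kap (kap / 10000) (by linarith)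
  refine ⟨100 * C + 40 * kap + 1, by linarith, ?_⟩
  intro V _ G A hG hA han hn
  obtain ⟨n, hnn⟩ : ∃ n : ℝ, n = (Fintype.card V : ℝ) := ⟨_, rfl⟩
  obtain ⟨a, haa⟩ : ∃ a : ℝ, a = (A.card : ℝ) := ⟨_, rfl⟩
  obtain ⟨D, hD⟩ : ∃ D : ℝ, D = ∑ v, ((nb G v).card : ℝ) := ⟨_, rfl⟩
  have ha : 0 ≤ a := by rw [haa]; exact Nat.cast_nonneg _
  have hn' : 14 ≤ n := by rw [hnn]; exact_mod_cast hn
  have han' : 127 * a ≤ 27 * n := by rw [hnn, haa]; exact_mod_cast han
  have hcr0 : (0 : ℝ) ≤ crossingNumber G := Nat.cast_nonneg _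
  rw [← hnn, ← haa]
  have hT0 : 0 ≤ (n + a) / 2 := by linarith
  have hT3 : 0 ≤ ((n + a) / 2) ^ 3 := by positivity
  have hdN : ∀ v, ((nb G v).card : ℝ) ≤ n - a := by
    intro v
    rw [hnn, haa]
    exact nb_le hA v
  by_cases hden : D ≤ 0.4075 * (n - a) ^ 2
  · have h1 := num1 ha hn' han' hden hk (dens G hn n D hnn hD)
    have : (1 : ℝ) * ((n + a) / 2) ^ 3 ≤ (100 * C + 40 * kap + 1) * ((n + a) / 2) ^ 3 :=
      mul_le_mul_of_nonneg_right (by linarith) hT3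
    linarith
  push Not at hden
  by_cases hpair : ∃ u v, v ∈ nb G u ∧
      0.843 * (n - a) ≤ ((nb G u).card : ℝ) + (nb G v).card
  · obtain ⟨u, v, huv, hs⟩ := hpair
    obtain ⟨b, hb⟩ : ∃ b, b = ⌊(0.84 : ℝ) * a⌋₊ := ⟨_, rfl⟩
    have hb1 : (b : ℝ) ≤ 0.84 * a := by rw [hb]; exact Nat.floor_le (by positivity)
    have hb2 : 0.84 * a - 1 ≤ b := by
      have := Nat.lt_floor_add_one ((0.84 : ℝ) * a)
      rw [← hb] at this
      linarith
    have h1 := pair_case hG hA b (by rw [← haa]; exact hb1) u v huv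
    have h3 := hlow ((nb G u).card + b)
    have h4 := hlow ((nb G v).card + b)
    have hu := hdN u
    have hv := hdN v
    have h5 := num2 (κ := kap) (C := C) (x := (((nb G u).card + b : ℕ) : ℝ))
      (y := (((nb G v).card + b : ℕ) : ℝ)) (cr := (crossingNumber G : ℝ))
      ha hn' han' (by linarith) rfl hC (Nat.cast_nonneg _) (Nat.cast_nonneg _)
      (by push_cast; linarith) (by push_cast; linarith)
      (by push_cast; linarith) (by linarith)
    have : (16 * C + 10 * kap) * ((n + a) / 2) ^ 3 ≤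
        (100 * C + 40 * kap + 1) * ((n + a) / 2) ^ 3 :=
      mul_le_mul_of_nonneg_right (by linarith) hT3
    linarith
  push Not at hpair
  obtain ⟨b, hb⟩ : ∃ b, b = ⌊(0.81 : ℝ) * a⌋₊ := ⟨_, rfl⟩
  have hb1 : (b : ℝ) ≤ 0.81 * a := by rw [hb]; exact Nat.floor_le (by positivity)
  have hb2 : 0.81 * a - 1 ≤ b := by
    have := Nat.lt_floor_add_one ((0.81 : ℝ) * a)
    rw [← hb] at this
    linarith
  have hN0 : 0 < n - a := by linarith
  have h2 := lp_case hG hA b (by rw [← haa]; exact hb1) n a D _ hnn haa hD rfl hN0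
    (fun u v h => hpair u v h) (kap - kap / 10000) C (by linarith) hC hlow
  have hDle : D ≤ (n - a) ^ 2 := by
    have hDU : D = ∑ v ∈ Aᶜ, ((nb G v).card : ℝ) := by
      rw [hD]
      exact sum_U hA (fun x => x) rfl
    rw [hDU]
    have h3 := Finset.sum_le_card_nsmul (Aᶜ) (fun v => ((nb G v).card : ℝ)) (n - a)
      (fun v _ => hdN v)
    rw [nsmul_eq_mul, card_U, ← hnn, ← haa] at h3
    linarith [show (n - a) * (n - a) = (n - a) ^ 2 by ring]
  have h3 := num3 (κ := kap) ha hn' han' (by linarith) rfl hC hden.le hDle hb2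
    (Nat.cast_nonneg _) rfl hcr0 h2
  linarith

/-- The far regime. -/
theorem far : ∃ T₀ : ℕ, ∀ (V : Type) [Fintype V] (G : SimpleGraph V) (A : Finset V) (t : ℕ),
    A2 G → (∀ a ∈ A, ∀ v, v ≠ a → G.Adj a v) → 127 * A.card ≤ 27 * Fintype.card V →
    2 * t ≤ Fintype.card V + A.card + 1 → T₀ ≤ t →
    crossingNumber (K t) ≤ crossingNumber G := by
  obtain ⟨C, hC, h⟩ := far_lb
  have hk' := kap_ge
  refine ⟨⌈(C + 5) * 120000⌉₊ + 20, ?_⟩
  intro V _ G A t hG hA han h2t ht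
  have h14 : 14 ≤ Fintype.card V := by
    have : A.card ≤ Fintype.card V := Finset.card_le_univ A
    omega
  have h1 := h V G A hG hA han h14
  set T := ((Fintype.card V : ℝ) + A.card) / 2 with hT
  have h3 : (t : ℝ) ≤ T + 1 / 2 := by
    have : (2 * t : ℝ) ≤ (Fintype.card V : ℝ) + A.card + 1 := by exact_mod_cast h2t
    rw [hT]; linarith
  have h4 : (C + 5) * 120000 + 20 ≤ t := by
    have h5 := Nat.le_ceil ((C + 5) * 120000)
    have h6 : ((⌈(C + 5) * 120000⌉₊ + 20 : ℕ) : ℝ) ≤ t := by exact_mod_cast ht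
    push_cast at h6
    linarith
  have hT1 : (C + 5) * 120000 + 1 ≤ T := by linarith
  have hT0 : 1 ≤ T := by nlinarith
  have h5 := cr_le_kap t
  have h6 : (t : ℝ) ^ 4 ≤ (T + 1 / 2) ^ 4 := pow_le_pow_left₀ (Nat.cast_nonneg _) h3 4
  have h7 : (T + 1 / 2) ^ 4 ≤ T ^ 4 + 5 * T ^ 3 := by
    have e : (T + 1 / 2) ^ 4 = T ^ 4 + 2 * T ^ 3 + 3 / 2 * T ^ 2 + 1 / 2 * T + 1 / 16 := by ring
    rw [e]
    have g1 : T ^ 2 ≤ T ^ 3 := by nlinarith [sq_nonneg T]
    have g2 : T ≤ T ^ 3 := by nlinarith [sq_nonneg T]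
    have g3 : 1 ≤ T ^ 3 := by linarith
    linarith
  have h8 : kap * (T ^ 4 + 5 * T ^ 3) ≤ 1.001 * kap * T ^ 4 - C * T ^ 3 := by
    have g1 : 0 ≤ T ^ 3 := by positivity
    have g2 : (5 * kap + C) ≤ 0.001 * kap * T := by
      have hk := kap_le
      nlinarith
    have g3 := mul_le_mul_of_nonneg_right g2 g1
    have e : T ^ 4 = T * T ^ 3 := by ring
    rw [e]
    nlinarith
  have h9 : (crossingNumber (K t) : ℝ) ≤ crossingNumber G := by
    calc (crossingNumber (K t) : ℝ) ≤ kap * t ^ 4 := h5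
      _ ≤ kap * (T ^ 4 + 5 * T ^ 3) := mul_le_mul_of_nonneg_left (h6.trans h7) (by linarith)
      _ ≤ _ := h8
      _ ≤ _ := h1
  exact_mod_cast h9

end Pool.Agent.H466.AL
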