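import Pool.Agent.Helper531_Thick.Topo

set_option autoImplicit false
set_option linter.unusedSectionVars false

/-!
A bipartite graph without four-cycles drawn in the plane without crossings has few edges.
-/

namespace Pool.Agent.Helper531_Thick

open Finset

namespace Model

variable {A B : Type} {E : Finset (A × B)} (M : Model A B E)
variable [DecidableEq A] [DecidableEq B]

lemma six_le (f : Pt → ZMod 2)
    (hf : ∀ g, f (cell1 g) + f (cell2 g) ≠ 0 → ∃ e ∈ E, M.C e g ≠ 0)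
    (hc4 : ∀ a a' b b', a ≠ a' → b ≠ b' → (a, b) ∈ E → (a', b) ∈ E → (a, b') ∈ E →
      (a', b') ∈ E → False)
    (e0 : A × B) (he0 : e0 ∈ E)
    (h0 : f (cell1 (M.ra e0)) + f (cell2 (M.ra e0)) ≠ 0) :
    6 ≤ (E.filter (fun e => f (cell1 (M.ra e)) + f (cell2 (M.ra e)) ≠ 0)).card := by
  classical
  have oa : ∀ a b, (a, b) ∈ E → f (cell1 (M.ra (a, b))) + f (cell2 (M.ra (a, b))) ≠ 0 →
      ∃ b', (a, b') ∈ E ∧ f (cell1 (M.ra (a, b'))) + f (cell2 (M.ra (a, b'))) ≠ 0 ∧ b' ≠ b := by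
    intro a b he h
    by_contra hc
    push Not at hc
    have h1 := M.even_a f hf a
    rw [Finset.sum_eq_single (a, b)] at h1
    · exact h h1
    · rintro ⟨a', b'⟩ he' hne
      simp only [mem_filter] at he'
      obtain ⟨he', rfl⟩ := he'
      by_contra h2
      apply hne
      rw [hc b' he' h2]
    · intro h2
      simp [he] at h2
  have ob : ∀ a b, (a, b) ∈ E → f (cell1 (M.ra (a, b))) + f (cell2 (M.ra (a, b))) ≠ 0 →
      ∃ a', (a', b) ∈ E ∧ f (cell1 (M.ra (a', b))) + f (cell2 (M.ra (a', b))) ≠ 0 ∧ a' ≠ a := by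
    intro a b he h
    by_contra hc
    push Not at hc
    have h1 := M.even_b f hf b
    rw [Finset.sum_eq_single (a, b)] at h1
    · exact h h1
    · rintro ⟨a', b'⟩ he' hne
      simp only [mem_filter] at he'
      obtain ⟨he', rfl⟩ := he'
      by_contra h2
      apply hne
      rw [hc a' he' h2]
    · intro h2
      simp [he] at h2
  obtain ⟨a0, b0⟩ := e0
  obtain ⟨a1, m1, n1, d1⟩ := ob a0 b0 he0 h0
  obtain ⟨b1, m2, n2, d2⟩ := oa a0 b0 he0 h0
  obtain ⟨a2, m3, n3, d3⟩ := ob a0 b1 m2 n2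
  obtain ⟨b2, m4, n4, d4⟩ := oa a1 b0 m1 n1
  have d5 : b2 ≠ b1 := by
    rintro rfl
    exact hc4 a0 a1 b0 b2 d1.symm d2.symm he0 m1 m2 m4
  obtain ⟨a3, m5, n5, d6⟩ := ob a1 b2 m4 n4
  have hsub : ({(a0, b0), (a1, b0), (a0, b1), (a2, b1), (a1, b2), (a3, b2)} : Finset (A × B)) ⊆
      E.filter (fun e => f (cell1 (M.ra e)) + f (cell2 (M.ra e)) ≠ 0) := by
    intro e he
    simp only [mem_insert, mem_singleton] at he
    rw [mem_filter]
    rcases he with rfl | rfl | rfl | rfl | rfl | rfl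
    · exact ⟨he0, h0⟩
    · exact ⟨m1, n1⟩
    · exact ⟨m2, n2⟩
    · exact ⟨m3, n3⟩
    · exact ⟨m4, n4⟩
    · exact ⟨m5, n5⟩
  refine le_trans ?_ (Finset.card_le_card hsub)
  rw [Finset.card_insert_of_notMem, Finset.card_insert_of_notMem, Finset.card_insert_of_notMem,
    Finset.card_insert_of_notMem, Finset.card_insert_of_notMem, Finset.card_singleton]
  all_goals
    simp only [mem_insert, mem_singleton, Prod.mk.injEq, not_or, not_and]
  · intro h; exact absurd h d6.symm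
  · exact ⟨fun _ => d5.symm, fun _ => d5.symm⟩
  · exact ⟨fun h => absurd h d3.symm, fun _ => d5.symm, fun _ => d5.symm⟩
  · exact ⟨fun h => absurd h d1, fun _ => d2.symm, fun _ => d4.symm, fun _ => d4.symm⟩
  · exact ⟨fun h => absurd h d1.symm, fun _ => d2.symm, fun _ => d2.symm, fun _ => d4.symm,
      fun _ => d4.symm⟩

variable [Fintype A] [Fintype B]

lemma six_vals (hc4 : ∀ a a' b b', a ≠ a' → b ≠ b' → (a, b) ∈ E → (a', b) ∈ E → (a, b') ∈ E →
      (a', b') ∈ E → False) : 6 * M.vals.card ≤ 2 * E.card := by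
  classical
  have h1 : ∀ ψ ∈ M.vals, 6 ≤ (E.filter (fun e =>
      M.ind ψ (cell1 (M.ra e)) + M.ind ψ (cell2 (M.ra e)) ≠ 0)).card := by
    intro ψ hψ
    simp only [vals, mem_biUnion, mem_filter, mem_univ, true_and, mem_insert,
      mem_singleton] at hψ
    obtain ⟨e, ⟨σ, hσ⟩, hψ⟩ := hψ
    have hne : M.F (cell1 (M.ra e.1)) ≠ M.F (cell2 (M.ra e.1)) := by
      intro h
      apply hσ
      rw [← M.F_ra e σ, h]
      exact z2 _
    apply M.six_le (M.ind ψ) (M.ind_supp ψ) hc4 e.1 e.2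
    rcases hψ with rfl | rfl
    · unfold ind
      rw [if_pos rfl, if_neg hne.symm]
      decide
    · unfold ind
      rw [if_neg hne, if_pos rfl]
      decide
  have h2 : ∑ ψ ∈ M.vals, (E.filter (fun e =>
      M.ind ψ (cell1 (M.ra e)) + M.ind ψ (cell2 (M.ra e)) ≠ 0)).card =
      ∑ e ∈ E, (M.vals.filter (fun ψ =>
        M.ind ψ (cell1 (M.ra e)) + M.ind ψ (cell2 (M.ra e)) ≠ 0)).card :=
    Finset.sum_card_bipartiteAbove_eq_sum_card_bipartiteBelow _
  have h3 : ∀ e ∈ E, (M.vals.filter (fun ψ =>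
      M.ind ψ (cell1 (M.ra e)) + M.ind ψ (cell2 (M.ra e)) ≠ 0)).card ≤ 2 := by
    intro e _
    have : (M.vals.filter (fun ψ =>
      M.ind ψ (cell1 (M.ra e)) + M.ind ψ (cell2 (M.ra e)) ≠ 0)) ⊆
      {M.F (cell1 (M.ra e)), M.F (cell2 (M.ra e))} := by
      intro ψ hψ
      simp only [mem_filter] at hψ
      simp only [mem_insert, mem_singleton]
      exact M.ind_mem ψ _ hψ.2
    exact (Finset.card_le_card this).trans Finset.card_le_two
  have h4 := Finset.sum_le_sum h1
  have h5 := Finset.sum_le_sum h3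
  rw [h2] at h4
  simp only [Finset.sum_const, smul_eq_mul] at h4 h5
  omega

include M in
theorem card_le6 (h3 : 4 ≤ Fintype.card A + Fintype.card B)
    (hc4 : ∀ a a' b b', a ≠ a' → b ≠ b' → (a, b) ∈ E → (a', b) ∈ E → (a, b') ∈ E →
      (a', b') ∈ E → False) :
    2 * E.card + 6 ≤ 3 * (Fintype.card A + Fintype.card B) := by
  have hcard : Fintype.card (A ⊕ B) = Fintype.card A + Fintype.card B := Fintype.card_sum
  have : Nonempty (A ⊕ B) := Fintype.card_pos_iff.1 (by omega)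
  have h1 := rank_ge (A := A) (B := B) (E := E)
  by_cases hne : M.vals.Nonempty
  · have h2 := M.rank_le hne
    have h4 := M.six_vals hc4
    omega
  · have h2 := M.rank_zero hne
    omega

end Model

/-- **Edge bound for plane bipartite graphs without four-cycles.** -/
theorem plane_bip6 {A B : Type} [Fintype A] [Fintype B] (G : SimpleGraph (A ⊕ B))
    (hplane : IsPlane G) (E : Finset (A × B))
    (hE : ∀ e ∈ E, G.Adj (Sum.inl e.1) (Sum.inr e.2))
    (h3 : 4 ≤ Fintype.card A + Fintype.card B)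
    (hc4 : ∀ a a' b b', a ≠ a' → b ≠ b' → (a, b) ∈ E → (a', b) ∈ E → (a, b') ∈ E →
      (a', b') ∈ E → False) :
    2 * E.card + 6 ≤ 3 * (Fintype.card A + Fintype.card B) := by
  classical
  obtain ⟨M⟩ := exists_model G hplane E hE
  exact M.card_le6 h3 hc4

end Pool.Agent.Helper531_Thick
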