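import Pool.Agent.H466.AL.Basic
import Pool.Agent.H466.AL.Six

set_option autoImplicit false

/-!
Half-edge graphs of drawings are plane, and the resulting edge bounds.
-/

open Set Classical
open Pool.Agent.Helper770.Crossing Pool.Agent.NH90.CN
open Pool.Agent.Helper531_Thick (IsPlane plane_bip plane_bip6)
open Pool.Agent.Helper770.Levels (inside inside_le restrict restrict_crossings_subset)

namespace Pool.Agent.H466.AL

/-- the half-edge graph: a marked point is joined to the ends of the edges through it -/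
def hg {V B : Type} (Eb : B → Set (Sym2 V)) : SimpleGraph (V ⊕ B) where
  Adj x y := (∃ v b, x = Sum.inl v ∧ y = Sum.inr b ∧ ∃ e ∈ Eb b, v ∈ e) ∨
    (∃ v b, y = Sum.inl v ∧ x = Sum.inr b ∧ ∃ e ∈ Eb b, v ∈ e)
  symm := ⟨fun x y h => h.symm⟩
  loopless := ⟨fun x h => by
    rcases h with ⟨v, b, h1, h2, -⟩ | ⟨v, b, h1, h2, -⟩ <;> rw [h1] at h2 <;> simp at h2⟩

theorem hg_adj {V B : Type} {Eb : B → Set (Sym2 V)} {v : V} {b : B} :
    (hg Eb).Adj (Sum.inl v) (Sum.inr b) ↔ ∃ e ∈ Eb b, v ∈ e := by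
  constructor
  · rintro (⟨v', b', h1, h2, h⟩ | ⟨v', b', h1, h2, h⟩)
    · obtain rfl := Sum.inl.inj h1
      obtain rfl := Sum.inr.inj h2
      exact h
    · exact absurd h1 (by simp)
  · intro h
    exact Or.inl ⟨v, b, rfl, rfl, h⟩

/-- strictly between, on a segment from `ε` to `τ` -/
theorem between {ε τ s : ℝ} (hε : ε = 0 ∨ ε = 1) (hτ : τ ∈ Ioo (0 : ℝ) 1) (hs : s ∈ Icc (0 : ℝ) 1) :
    ε + s * (τ - ε) ∈ Icc (0 : ℝ) 1 ∧ (0 < s → ε + s * (τ - ε) ∈ Ioo (0 : ℝ) 1) ∧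
    (s < 1 → ε + s * (τ - ε) ≠ τ) ∧
    ((ε = 0 → ε + s * (τ - ε) ≤ τ) ∧ (ε = 1 → τ ≤ ε + s * (τ - ε))) := by
  obtain ⟨h0, h1⟩ := hτ
  obtain ⟨s0, s1⟩ := hs
  rcases hε with rfl | rfl
  · refine ⟨⟨by nlinarith, by nlinarith⟩, fun h => ⟨by nlinarith, by nlinarith⟩, fun h h' => ?_,
      fun _ => by nlinarith, fun h => by norm_num at h⟩
    have : (s - 1) * τ = 0 := by linarith
    rcases mul_eq_zero.1 this with h2 | h2 <;> linarith
  · refine ⟨⟨by nlinarith, by nlinarith⟩, fun h => ⟨by nlinarith, by nlinarith⟩, fun h h' => ?_,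
      fun h => by norm_num at h, fun _ => by nlinarith⟩
    have : (s - 1) * (τ - 1) = 0 := by linarith
    rcases mul_eq_zero.1 this with h2 | h2 <;> linarith

theorem hg_plane {V B : Type} {G : SimpleGraph V} (D : Drawing G) (z : B → ℂ)
    (hz : Function.Injective z) (Eb : B → Set (Sym2 V)) (hne : ∀ b, (Eb b).Nonempty)
    (h1 : ∀ b, ∀ e ∈ Eb b, e ∈ G.edgeSet ∧ z b ∈ D.arc e '' Ioo (0 : ℝ) 1)
    (h2 : ∀ b b', ∀ e ∈ Eb b, ∀ e' ∈ Eb b', e ≠ e' → ∀ y, y ∈ D.arc e '' Ioo (0 : ℝ) 1 →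
      y ∈ D.arc e' '' Ioo (0 : ℝ) 1 → y = z b)
    (h3 : ∀ b b' e, e ∈ Eb b → e ∈ Eb b' → b = b') : IsPlane (hg Eb) := by
  -- the edge used for a pair
  have c1 : ∀ (v : V) (b : B), ∃ e, (∃ e ∈ Eb b, v ∈ e) → e ∈ Eb b ∧ v ∈ e := by
    intro v b
    by_cases h : ∃ e ∈ Eb b, v ∈ e
    · obtain ⟨e, he⟩ := h
      exact ⟨e, fun _ => he⟩
    · exact ⟨s(v, v), fun h' => absurd h' h⟩
  choose ed hed using c1
  have c2 : ∀ (b : B) (e : Sym2 V), ∃ τ : ℝ, e ∈ Eb b → τ ∈ Ioo (0 : ℝ) 1 ∧ D.arc e τ = z b := by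
    intro b e
    by_cases h : e ∈ Eb b
    · obtain ⟨τ, hτ, hτ'⟩ := (h1 b e h).2
      exact ⟨τ, fun _ => ⟨hτ, hτ'⟩⟩
    · exact ⟨0, fun h' => absurd h' h⟩
  choose tau htau using c2
  have c3 : ∀ (v : V) (e : Sym2 V), ∃ ε : ℝ, e ∈ G.edgeSet → v ∈ e →
      (ε = 0 ∨ ε = 1) ∧ D.arc e ε = D.pos v := by
    intro v e
    by_cases h : e ∈ G.edgeSet ∧ v ∈ e
    · obtain ⟨w, rfl⟩ := h.2
      rcases D.arc_ends v w h.1 with h' | h'
      · exact ⟨0, fun _ _ => ⟨Or.inl rfl, h'.1⟩⟩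
      · exact ⟨1, fun _ _ => ⟨Or.inr rfl, h'.2⟩⟩
    · exact ⟨0, fun h' h'' => absurd ⟨h', h''⟩ h⟩
  choose eps heps using c3
  -- facts for an adjacent pair
  let g : V → B → ℝ → ℂ := fun v b s =>
    D.arc (ed v b) (eps v (ed v b) + s * (tau b (ed v b) - eps v (ed v b)))
  have fact : ∀ v b, (∃ e ∈ Eb b, v ∈ e) →
      (ed v b) ∈ Eb b ∧ v ∈ ed v b ∧ (ed v b) ∈ G.edgeSet ∧
      (eps v (ed v b) = 0 ∨ eps v (ed v b) = 1) ∧ D.arc (ed v b) (eps v (ed v b)) = D.pos v ∧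
      tau b (ed v b) ∈ Ioo (0 : ℝ) 1 ∧ D.arc (ed v b) (tau b (ed v b)) = z b := by
    intro v b h
    have a1 := hed v b h
    have a2 := (h1 b _ a1.1).1
    have a3 := heps v _ a2 a1.2
    have a4 := htau b _ a1.1
    exact ⟨a1.1, a1.2, a2, a3.1, a3.2, a4.1, a4.2⟩
  have g0 : ∀ v b, (∃ e ∈ Eb b, v ∈ e) → g v b 0 = D.pos v := by
    intro v b h
    obtain ⟨-, -, -, -, h5, -, -⟩ := fact v b h
    simp only [g]
    rw [zero_mul, add_zero, h5]
  have g1 : ∀ v b, (∃ e ∈ Eb b, v ∈ e) → g v b 1 = z b := by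
    intro v b h
    obtain ⟨-, -, -, -, -, -, h7⟩ := fact v b h
    simp only [g]
    rw [one_mul, add_sub_cancel, h7]
  have gcont : ∀ v b, (∃ e ∈ Eb b, v ∈ e) → ContinuousOn (g v b) (Icc 0 1) := by
    intro v b h
    obtain ⟨-, -, h3', h4', -, h6', -⟩ := fact v b h
    refine (D.arc_continuousOn _ h3').comp (by fun_prop) ?_
    intro s hs
    exact (between h4' h6' hs).1
  have ginj : ∀ v b, (∃ e ∈ Eb b, v ∈ e) → InjOn (g v b) (Icc 0 1) := by
    intro v b h s hs t ht hst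
    obtain ⟨-, -, h3', h4', -, h6', -⟩ := fact v b h
    have h8 := D.arc_injOn _ h3' (between h4' h6' hs).1 (between h4' h6' ht).1 hst
    have h9 : (s - t) * (tau b (ed v b) - eps v (ed v b)) = 0 := by linarith
    rcases mul_eq_zero.1 h9 with h | h
    · linarith
    · exfalso
      obtain ⟨h10, h11⟩ := h6'
      rcases h4' with h12 | h12 <;> rw [h12] at h <;> linarith
  have gV : ∀ v b, (∃ e ∈ Eb b, v ∈ e) → ∀ s ∈ Ioo (0 : ℝ) 1, ∀ w, g v b s ≠ D.pos w := by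
    intro v b h s hs w
    obtain ⟨-, -, h3', h4', -, h6', -⟩ := fact v b h
    exact D.arc_avoids _ h3' _ ((between h4' h6' ⟨hs.1.le, hs.2.le⟩).2.1 hs.1) w
  have gmem : ∀ v b, (∃ e ∈ Eb b, v ∈ e) → ∀ s ∈ Ioo (0 : ℝ) 1,
      g v b s ∈ D.arc (ed v b) '' Ioo (0 : ℝ) 1 := by
    intro v b h s hs
    obtain ⟨-, -, h3', h4', -, h6', -⟩ := fact v b h
    exact ⟨_, (between h4' h6' ⟨hs.1.le, hs.2.le⟩).2.1 hs.1, rfl⟩
  have gz : ∀ v b, (∃ e ∈ Eb b, v ∈ e) → ∀ s ∈ Ioo (0 : ℝ) 1, g v b s ≠ z b := by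
    intro v b h s hs h'
    obtain ⟨-, -, h3', h4', -, h6', h7'⟩ := fact v b h
    have h8 := between h4' h6' ⟨hs.1.le, hs.2.le⟩
    rw [← h7'] at h'
    exact h8.2.2.1 hs.2 (D.arc_injOn _ h3' h8.1 ⟨h6'.1.le, h6'.2.le⟩ h')
  have gB : ∀ v b, (∃ e ∈ Eb b, v ∈ e) → ∀ s ∈ Ioo (0 : ℝ) 1, ∀ b', g v b s ≠ z b' := by
    intro v b h s hs b' h'
    obtain ⟨e', he'⟩ := hne b'
    by_cases hee : e' = ed v b
    · have : b' = b := h3 b' b e' he' (by rw [hee]; exact (fact v b h).1)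
      rw [this] at h'
      exact gz v b h s hs h'
    · have h8 := gmem v b h s hs
      have h9 := (h1 b' e' he').2
      rw [← h'] at h9
      exact gz v b h s hs (h2 b b' _ (fact v b h).1 e' he' (Ne.symm hee) _ h8 h9)
  have gdis : ∀ v b v' b', (∃ e ∈ Eb b, v ∈ e) → (∃ e ∈ Eb b', v' ∈ e) →
      ∀ s ∈ Ioo (0 : ℝ) 1, ∀ s' ∈ Ioo (0 : ℝ) 1, g v b s = g v' b' s' → v = v' ∧ b = b' := by
    intro v b v' b' h h' s hs s' hs' heq
    by_cases hee : ed v b = ed v' b'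
    · have hb : b = b' := h3 b b' _ (fact v b h).1 (by rw [hee]; exact (fact v' b' h').1)
      subst hb
      refine ⟨?_, rfl⟩
      by_contra hvv
      obtain ⟨k1, k2, k3, k4, k5, k6, k7⟩ := fact v b h
      obtain ⟨l1, l2, l3, l4, l5, l6, l7⟩ := fact v' b h'
      simp only [g] at heq
      rw [← hee] at heq l1 l2 l3 l4 l5 l6 l7
      have m1 := between k4 k6 ⟨hs.1.le, hs.2.le⟩
      have m2 := between l4 l6 ⟨hs'.1.le, hs'.2.le⟩
      have m3 := D.arc_injOn _ k3 m1.1 m2.1 heq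
      have m4 : eps v (ed v b) ≠ eps v' (ed v b) := by
        intro h8
        apply hvv
        apply D.pos_injective
        rw [← k5, ← l5, h8]
      have m5 := m1.2.2.1 hs.2
      have m6 := m2.2.2.1 hs'.2
      rcases k4 with k4 | k4 <;> rcases l4 with l4 | l4
      · exact m4 (k4.trans l4.symm)
      · have n1 := m1.2.2.2.1 k4
        have n2 := m2.2.2.2.2 l4
        rw [← m3] at n2
        exact m5 (le_antisymm n1 n2)
      · have n1 := m1.2.2.2.2 k4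
        have n2 := m2.2.2.2.1 l4
        rw [← m3] at n2
        exact m5 (le_antisymm n2 n1)
      · exact m4 (k4.trans l4.symm)
    · exfalso
      have h8 := gmem v b h s hs
      have h9 := gmem v' b' h' s' hs'
      rw [← heq] at h9
      exact gz v b h s hs (h2 b b' _ (fact v b h).1 _ (fact v' b' h').1 hee _ h8 h9)
  -- the drawing
  let R : ℂ → ℝ × ℝ := fun w => (w.re, w.im)
  have Rinj : Function.Injective R := fun a b h =>
    Complex.ext (congrArg Prod.fst h) (congrArg Prod.snd h)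
  have Rcont : Continuous R := Complex.continuous_re.prodMk Complex.continuous_im
  let p : V ⊕ B → ℝ × ℝ := Sum.elim (fun v => R (D.pos v)) (fun b => R (z b))
  let γ : V ⊕ B → V ⊕ B → unitInterval → ℝ × ℝ := fun x y s =>
    match x, y with
    | Sum.inl v, Sum.inr b => R (g v b s)
    | Sum.inr b, Sum.inl v => R (g v b (1 - s))
    | _, _ => (0, 0)
  have hIcc : ∀ s : unitInterval, (s : ℝ) ∈ Icc (0 : ℝ) 1 := fun s => s.2
  have hIoo : ∀ s : unitInterval, s ≠ 0 → s ≠ 1 → (s : ℝ) ∈ Ioo (0 : ℝ) 1 := fun s h0 h1 =>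
    ⟨lt_of_le_of_ne s.2.1 (fun h => h0 (Subtype.ext h.symm)),
      lt_of_le_of_ne s.2.2 (fun h => h1 (Subtype.ext h))⟩
  have hIoo' : ∀ s : unitInterval, s ≠ 0 → s ≠ 1 → (1 - (s : ℝ)) ∈ Ioo (0 : ℝ) 1 := fun s h0 h1 =>
    ⟨by linarith [(hIoo s h0 h1).2], by linarith [(hIoo s h0 h1).1]⟩
  refine ⟨p, ?_, γ, ?_, ?_⟩
  · rintro (v | b) (v' | b') h
    · rw [D.pos_injective (Rinj h)]
    · exfalso
      have h' : D.pos v = z b' := Rinj h
      obtain ⟨e', he'⟩ := hne b'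
      obtain ⟨h8, t, ht, ht'⟩ := h1 b' e' he'
      exact D.arc_avoids e' h8 t ht v (by rw [ht', h'])
    · exfalso
      have h' : z b = D.pos v' := Rinj h
      obtain ⟨e', he'⟩ := hne b
      obtain ⟨h8, t, ht, ht'⟩ := h1 b e' he'
      exact D.arc_avoids e' h8 t ht v' (by rw [ht', h'])
    · rw [hz (Rinj h)]
  · rintro (v | b) (v' | b') h
    · exfalso
      rcases h with ⟨_, _, -, h, -⟩ | ⟨_, _, -, h, -⟩ <;> simp at h
    · have ha := hg_adj.1 h
      refine ⟨?_, ?_, ?_, ?_, ?_⟩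
      · exact Rcont.comp ((gcont v b' ha).comp_continuous continuous_subtype_val hIcc)
      · intro s t hst
        exact Subtype.ext (ginj v b' ha (hIcc s) (hIcc t) (Rinj hst))
      · show R (g v b' ((0 : unitInterval) : ℝ)) = R (D.pos v)
        rw [Set.Icc.coe_zero, g0 v b' ha]
      · show R (g v b' ((1 : unitInterval) : ℝ)) = R (z b')
        rw [Set.Icc.coe_one, g1 v b' ha]
      · rintro t t0 t1 (w | w) h'
        · exact gV v b' ha t (hIoo t t0 t1) w (Rinj h')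
        · exact gB v b' ha t (hIoo t t0 t1) w (Rinj h')
    · have ha := hg_adj.1 h.symm
      refine ⟨?_, ?_, ?_, ?_, ?_⟩
      · refine Rcont.comp ((gcont v' b ha).comp_continuous
          (continuous_const.sub continuous_subtype_val) ?_)
        intro s
        exact ⟨by linarith [(hIcc s).2], by linarith [(hIcc s).1]⟩
      · intro s t hst
        have := ginj v' b ha (x₁ := 1 - (s : ℝ)) (x₂ := 1 - (t : ℝ))
          ⟨by linarith [(hIcc s).2], by linarith [(hIcc s).1]⟩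
          ⟨by linarith [(hIcc t).2], by linarith [(hIcc t).1]⟩ (Rinj hst)
        exact Subtype.ext (by linarith)
      · show R (g v' b (1 - ((0 : unitInterval) : ℝ))) = R (z b)
        rw [Set.Icc.coe_zero, sub_zero, g1 v' b ha]
      · show R (g v' b (1 - ((1 : unitInterval) : ℝ))) = R (D.pos v')
        rw [Set.Icc.coe_one, sub_self, g0 v' b ha]
      · rintro t t0 t1 (w | w) h'
        · exact gV v' b ha _ (hIoo' t t0 t1) w (Rinj h')
        · exact gB v' b ha _ (hIoo' t t0 t1) w (Rinj h')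
    · exfalso
      rcases h with ⟨_, _, h, -⟩ | ⟨_, _, h, -⟩ <;> simp at h
  · rintro (v | b) (v' | b') (w | c) (w' | c') h h' t t' t0 t1 t0' t1' heq
    all_goals first
      | (exfalso; rcases h with ⟨_, _, k, k', -⟩ | ⟨_, _, k, k', -⟩ <;> simp at k k'; done)
      | (exfalso; rcases h' with ⟨_, _, k, k', -⟩ | ⟨_, _, k, k', -⟩ <;> simp at k k'; done)
      | skip
    · have ha := hg_adj.1 h
      have ha' := hg_adj.1 h'
      obtain ⟨r1, r2⟩ := gdis _ _ _ _ ha ha' _ (hIoo t t0 t1) _ (hIoo t' t0' t1') (Rinj heq)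
      rw [r1, r2]; exact Or.inl ⟨rfl, rfl⟩
    · have ha := hg_adj.1 h
      have ha' := hg_adj.1 h'.symm
      obtain ⟨r1, r2⟩ := gdis _ _ _ _ ha ha' _ (hIoo t t0 t1) _ (hIoo' t' t0' t1') (Rinj heq)
      rw [r1, r2]; exact Or.inr ⟨rfl, rfl⟩
    · have ha := hg_adj.1 h.symm
      have ha' := hg_adj.1 h'
      obtain ⟨r1, r2⟩ := gdis _ _ _ _ ha ha' _ (hIoo' t t0 t1) _ (hIoo t' t0' t1') (Rinj heq)
      rw [r1, r2]; exact Or.inr ⟨rfl, rfl⟩
    · have ha := hg_adj.1 h.symm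
      have ha' := hg_adj.1 h'.symm
      obtain ⟨r1, r2⟩ := gdis _ _ _ _ ha ha' _ (hIoo' t t0 t1) _ (hIoo' t' t0' t1') (Rinj heq)
      rw [r1, r2]; exact Or.inl ⟨rfl, rfl⟩

end Pool.Agent.H466.AL
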