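import Pool.Agent.H466.AL.Rep3
import Pool.Agent.H466.AL.Far

set_option autoImplicit false

/-!
Joins of parts: the induction over the parts.
-/

open Set Classical
open Pool.Agent.Helper770.Crossing Pool.Agent.NH90.CN

namespace Pool.Agent.H466.AL

variable {V : Type}

/-- the graph on a set of vertices -/
abbrev GS (G : SimpleGraph V) (S : Finset V) : SimpleGraph {x // x ∈ S} :=
  G.comap (Function.Embedding.subtype (fun x => x ∈ S))

/-- the crossing number of the graph on a set of vertices -/
noncomputable def cS (G : SimpleGraph V) (S : Finset V) : ℕ := crossingNumber (GS G S)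

/-- no independent triple in `S` -/
def A2S (G : SimpleGraph V) (S : Finset V) : Prop :=
  ∀ x ∈ S, ∀ y ∈ S, ∀ z ∈ S, x ≠ y → x ≠ z → y ≠ z → G.Adj x y ∨ G.Adj x z ∨ G.Adj y z

theorem A2_GS {G : SimpleGraph V} {S : Finset V} (h : A2S G S) : A2 (GS G S) := by
  intro x y z h1 h2 h3
  exact h x x.2 y y.2 z z.2 (fun h' => h1 (Subtype.ext h')) (fun h' => h2 (Subtype.ext h'))
    (fun h' => h3 (Subtype.ext h'))

theorem cS_mono (G : SimpleGraph V) {S S' : Finset V} (h : S' ⊆ S) : cS G S' ≤ cS G S := by
  refine cr_mono (G := GS G S) ⟨fun x => ⟨x.1, h x.2⟩, ?_⟩ _ ?_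
  · intro x y hxy
    simp only [Subtype.mk.injEq] at hxy
    exact Subtype.ext hxy
  · intro x y hxy
    exact hxy

theorem cS_clique (G : SimpleGraph V) (S : Finset V) (t : ℕ) (ht : t ≤ S.card)
    (h : ∀ x ∈ S, ∀ y ∈ S, x ≠ y → G.Adj x y) : crossingNumber (K t) ≤ cS G S := by
  have e : Fin t ↪ {x // x ∈ S} :=
    (Fin.castLEEmb ht).trans S.equivFin.symm.toEmbedding
  refine cr_inside_top (GS G S) e ?_
  intro i j hij
  refine h _ (e i).2 _ (e j).2 ?_
  intro h'
  exact hij (e.injective (Subtype.ext h'))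

theorem farS : ∃ T₀ : ℕ, ∀ (V : Type) (G : SimpleGraph V) (S A : Finset V) (t : ℕ),
    A ⊆ S → A2S G S → (∀ a ∈ A, ∀ v ∈ S, v ≠ a → G.Adj a v) → 127 * A.card ≤ 27 * S.card →
    2 * t ≤ S.card + A.card + 1 → T₀ ≤ t → crossingNumber (K t) ≤ cS G S := by
  obtain ⟨T₀, h⟩ := far
  refine ⟨T₀, ?_⟩
  intro V G S A t hAS hG hA h1 h2 ht
  have hc : (A.subtype (fun x => x ∈ S)).card = A.card := by
    rw [Finset.card_subtype]
    congr 1
    exact Finset.filter_true_of_mem hAS
  refine h {x // x ∈ S} (GS G S) (A.subtype (fun x => x ∈ S)) t (A2_GS hG) ?_ ?_ ?_ ht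
  · intro a ha v hv
    rw [Finset.mem_subtype] at ha
    exact hA a.1 ha v.1 v.2 (fun h' => hv (Subtype.ext h'))
  · rw [hc, Fintype.card_coe]; exact h1
  · rw [hc, Fintype.card_coe]; exact h2

theorem repS (G : SimpleGraph V) (S U : Finset V) (hUS : U ⊆ S) (hG : A2S G S)
    (t : ℕ) (ht : 2 ≤ t) (hU : U.card + 1 = 2 * t)
    (hj : ∀ x ∈ U, ∀ y ∈ S, y ∉ U → G.Adj x y)
    (h1 : 127 * U.card ≤ 100 * S.card) (h2 : 1000000 ≤ S.card) :
    ∃ B ⊆ U, B.card = t ∧ ∃ G' : SimpleGraph V, cS G' ((S \ U) ∪ B) ≤ cS G S ∧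
      (∀ x y, x ∉ U → y ∉ U → G.Adj x y → G'.Adj x y) ∧
      (∀ x ∈ B, ∀ y ∈ (S \ U) ∪ B, y ≠ x → G'.Adj x y) := by
  have hc : (U.subtype (fun x => x ∈ S)).card = U.card := by
    rw [Finset.card_subtype]
    congr 1
    exact Finset.filter_true_of_mem hUS
  obtain ⟨B', hB', hBt, hcr⟩ := rep (GS G S) (A2_GS hG) (U.subtype (fun x => x ∈ S)) t ht
    (by rw [hc]; exact hU) (by
      intro x hx y hy
      rw [Finset.mem_subtype] at hx hy
      exact hj x.1 hx y.1 y.2 hy) (by rw [hc, Fintype.card_coe]; exact h1)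
    (by rw [Fintype.card_coe]; exact h2)
  set B : Finset V := B'.map (Function.Embedding.subtype _) with hB
  have hmB : ∀ x : {x // x ∈ S}, x.1 ∈ B ↔ x ∈ B' := by
    intro x
    rw [hB, Finset.mem_map]
    constructor
    · rintro ⟨y, hy, hyx⟩
      have : y = x := Subtype.ext hyx
      rw [← this]; exact hy
    · intro hx
      exact ⟨x, hx, rfl⟩
  have hBU : B ⊆ U := by
    intro x hx
    rw [hB, Finset.mem_map] at hx
    obtain ⟨y, hy, rfl⟩ := hx
    have := hB' hy
    rw [Finset.mem_subtype] at this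
    exact this
  refine ⟨B, hBU, by rw [hB, Finset.card_map]; exact hBt, ?_⟩
  refine ⟨⟨fun x y => x ≠ y ∧ (x ∈ B ∨ x ∉ U) ∧ (y ∈ B ∨ y ∉ U) ∧
    (G.Adj x y ∨ (x ∈ B ∧ y ∈ B)), ⟨fun x y h => ⟨h.1.symm, h.2.2.1, h.2.1,
    h.2.2.2.imp (fun h => h.symm) (fun h => ⟨h.2, h.1⟩)⟩⟩, ⟨fun x h => h.1 rfl⟩⟩, ?_, ?_, ?_⟩
  · have hsub : (S \ U) ∪ B ⊆ S :=
      Finset.union_subset Finset.sdiff_subset (hBU.trans hUS)
    refine le_trans ?_ hcr
    refine cr_mono ⟨fun x => ⟨x.1, hsub x.2⟩, ?_⟩ _ ?_
    · intro x y hxy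
      simp only [Subtype.mk.injEq] at hxy
      exact Subtype.ext hxy
    · rintro x y ⟨k1, k2, k3, k4⟩
      refine ⟨?_, ?_, ?_, ?_⟩
      · intro h'
        apply k1
        exact congrArg (fun z : {x // x ∈ S} => z.1) h'
      · rcases k2 with k2 | k2
        · left
          exact (hmB _).1 k2
        · right
          rw [Finset.mem_subtype]
          exact k2
      · rcases k3 with k2 | k2
        · left
          exact (hmB _).1 k2
        · right
          rw [Finset.mem_subtype]
          exact k2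
      · rcases k4 with k4 | k4
        · exact Or.inl k4
        · exact Or.inr ⟨(hmB _).1 k4.1, (hmB _).1 k4.2⟩
  · intro x y hx hy hxy
    exact ⟨hxy.ne, Or.inr hx, Or.inr hy, Or.inl hxy⟩
  · intro x hx y hy hyx
    rw [Finset.mem_union, Finset.mem_sdiff] at hy
    rcases hy with hy | hy
    · exact ⟨hyx.symm, Or.inl hx, Or.inr hy.2, Or.inl (hj x (hBU hx) y hy.1 hy.2)⟩
    · exact ⟨hyx.symm, Or.inl hx, Or.inl hy, Or.inr ⟨hx, hy⟩⟩

/-- the weight of the parts -/
noncomputable def wt {ι : Type} [Fintype ι] (p : V → ι) (T : Finset V) : ℕ :=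
  ∑ i, ((T.filter (fun v => p v = i)).card + 1) / 2

theorem wt_sdiff {ι : Type} [Fintype ι] (p : V → ι) (T Q : Finset V) (i : ι)
    (hQ : ∀ v ∈ Q, p v = i) :
    wt p (T \ Q) + ((T.filter (fun v => p v = i)).card + 1) / 2 =
      wt p T + (((T \ Q).filter (fun v => p v = i)).card + 1) / 2 := by
  unfold wt
  rw [← Finset.add_sum_erase Finset.univ _ (Finset.mem_univ i),
    ← Finset.add_sum_erase Finset.univ (fun i => ((T.filter (fun v => p v = i)).card + 1) / 2)
      (Finset.mem_univ i)]
  have : ∑ x ∈ Finset.univ.erase i, (((T \ Q).filter (fun v => p v = x)).card + 1) / 2 =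
      ∑ x ∈ Finset.univ.erase i, ((T.filter (fun v => p v = x)).card + 1) / 2 := by
    refine Finset.sum_congr rfl fun j hj => ?_
    have hji := (Finset.mem_erase.1 hj).1
    congr 3
    ext v
    simp only [Finset.mem_filter, Finset.mem_sdiff]
    constructor
    · rintro ⟨⟨h1, h2⟩, h3⟩
      exact ⟨h1, h3⟩
    · rintro ⟨h1, h3⟩
      exact ⟨⟨h1, fun h' => hji (h3.symm.trans (hQ v h'))⟩, h3⟩
  rw [this]
  omega

theorem wt_le {ι : Type} [Fintype ι] (p : V → ι) (T : Finset V) : wt p T ≤ T.card := by
  unfold wt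
  rw [Finset.card_eq_sum_card_fiberwise (f := p) (t := Finset.univ) (fun _ _ => Finset.mem_univ _)]
  refine Finset.sum_le_sum fun i _ => ?_
  omega

/-- **Joins.** -/
theorem jp : ∃ T₁ : ℕ, ∀ (V ι : Type) [Fintype ι] (t : ℕ), T₁ ≤ t → ∀ (k : ℕ)
    (G : SimpleGraph V) (S A : Finset V) (p : V → ι), (S \ A).card ≤ k → A ⊆ S → A2S G S →
    (∀ a ∈ A, ∀ v ∈ S, v ≠ a → G.Adj a v) →
    (∀ x ∈ S, ∀ y ∈ S, x ∉ A → y ∉ A → p x ≠ p y → G.Adj x y) →
    t ≤ A.card + wt p (S \ A) → crossingNumber (K t) ≤ cS G S := by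
  obtain ⟨T₀, hfar⟩ := farS
  refine ⟨T₀ + 1000000, ?_⟩
  intro V ι _ t ht k
  induction k with
  | zero =>
    intro G S A p hk hAS hG hA hp hw
    have hSA : S \ A = ∅ := Finset.card_eq_zero.1 (by omega)
    have hSA' : S ⊆ A := Finset.sdiff_eq_empty_iff_subset.1 hSA
    rw [hSA] at hw
    have h0 := wt_le p (∅ : Finset V)
    rw [Finset.card_empty] at h0
    refine cS_clique G S t ((by omega : t ≤ A.card).trans (Finset.card_le_card hAS)) ?_
    intro x hx y hy hxy
    exact hA x (hSA' hx) y hy hxy.symm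
  | succ k ih =>
    intro G S A p hk hAS hG hA hp hw
    have hcard : S.card = A.card + (S \ A).card := by
      rw [Finset.card_sdiff_of_subset hAS]
      have := Finset.card_le_card hAS
      omega
    have hSbig : 1000000 ≤ S.card := by
      have := wt_le p (S \ A)
      omega
    -- a set of the form `(S \ A) \ Q`
    by_cases hne : (S \ A).Nonempty
    swap
    · refine ih G S A p ?_ hAS hG hA hp hw
      rw [Finset.not_nonempty_iff_eq_empty.1 hne, Finset.card_empty]
      exact Nat.zero_le _
    -- the parts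
    have mP : ∀ i v, v ∈ (S \ A).filter (fun v => p v = i) ↔ (v ∈ S ∧ v ∉ A) ∧ p v = i := by
      intro i v
      rw [Finset.mem_filter, Finset.mem_sdiff]
    by_cases ha : ∃ i, ((S \ A).filter (fun v => p v = i)).card = 1
    · obtain ⟨i, hi⟩ := ha
      obtain ⟨v, hv⟩ := Finset.card_eq_one.1 hi
      have hvP := (mP i v).1 (by rw [hv]; simp)
      have hon : ∀ y ∈ S, y ∉ A → p y = i → y = v := by
        intro y h1 h2 h3
        have : y ∈ (S \ A).filter (fun v => p v = i) := (mP i y).2 ⟨⟨h1, h2⟩, h3⟩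
        rw [hv, Finset.mem_singleton] at this
        exact this
      have e1 : S \ insert v A = (S \ A) \ {v} := by
        ext y
        simp only [Finset.mem_sdiff, Finset.mem_insert, Finset.mem_singleton]
        tauto
      have hvm : {v} ⊆ S \ A := by
        rw [Finset.singleton_subset_iff, Finset.mem_sdiff]; exact hvP.1
      refine ih G S (insert v A) p ?_ ?_ hG ?_ ?_ ?_
      · rw [e1, Finset.card_sdiff_of_subset hvm, Finset.card_singleton]
        omega
      · exact Finset.insert_subset hvP.1.1 hAS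
      · intro a ha y hy hya
        rcases Finset.mem_insert.1 ha with rfl | ha
        · by_cases hyA : y ∈ A
          · exact (hA y hyA a hvP.1.1 hya.symm).symm
          · refine hp a hvP.1.1 y hy hvP.1.2 hyA ?_
            intro h'
            rw [hvP.2] at h'
            exact hya (hon y hy hyA h'.symm)
        · exact hA a ha y hy hya
      · intro x hx y hy hxA hyA hxy
        rw [Finset.mem_insert, not_or] at hxA hyA
        exact hp x hx y hy hxA.2 hyA.2 hxy
      · rw [e1, Finset.card_insert_of_notMem hvP.1.2]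
        have h1 := wt_sdiff p (S \ A) {v} i (by
          intro y hy
          rw [Finset.mem_singleton] at hy
          rw [hy]; exact hvP.2)
        rw [hi] at h1
        omega
    by_cases hb : ∃ i, ((S \ A).filter (fun v => p v = i)).Nonempty ∧
        Even ((S \ A).filter (fun v => p v = i)).card
    · obtain ⟨i, ⟨v, hv⟩, hev⟩ := hb
      have hvP := (mP i v).1 hv
      have e1 : (S.erase v) \ A = (S \ A) \ {v} := by
        ext y
        simp only [Finset.mem_sdiff, Finset.mem_erase, Finset.mem_singleton]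
        tauto
      have hvm : {v} ⊆ S \ A := by
        rw [Finset.singleton_subset_iff, Finset.mem_sdiff]; exact hvP.1
      refine (ih G (S.erase v) A p ?_ ?_ ?_ ?_ ?_ ?_).trans
        (cS_mono G (Finset.erase_subset v S))
      · rw [e1, Finset.card_sdiff_of_subset hvm, Finset.card_singleton]
        omega
      · intro a ha
        rw [Finset.mem_erase]
        exact ⟨by rintro rfl; exact hvP.1.2 ha, hAS ha⟩
      · intro x hx y hy z hz
        exact hG x (Finset.mem_of_mem_erase hx) y (Finset.mem_of_mem_erase hy) z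
          (Finset.mem_of_mem_erase hz)
      · intro a ha y hy
        exact hA a ha y (Finset.mem_of_mem_erase hy)
      · intro x hx y hy
        exact hp x (Finset.mem_of_mem_erase hx) y (Finset.mem_of_mem_erase hy)
      · rw [e1]
        have h1 := wt_sdiff p (S \ A) {v} i (by
          intro y hy
          rw [Finset.mem_singleton] at hy
          rw [hy]; exact hvP.2)
        have h2 : ((S \ A) \ {v}).filter (fun v => p v = i) =
            ((S \ A).filter (fun v => p v = i)).erase v := by
          ext y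
          simp only [Finset.mem_filter, Finset.mem_sdiff, Finset.mem_erase,
            Finset.mem_singleton]
          tauto
        rw [h2, Finset.card_erase_of_mem hv] at h1
        obtain ⟨c, hc⟩ := hev
        have h3 : 0 < ((S \ A).filter (fun v => p v = i)).card := Finset.card_pos.2 ⟨v, hv⟩
        omega
    by_cases hc : ∃ i, ((S \ A).filter (fun v => p v = i)).Nonempty ∧
        127 * ((S \ A).filter (fun v => p v = i)).card ≤ 100 * S.card
    · obtain ⟨i, hPne, hPs⟩ := hc
      obtain ⟨P, hP⟩ : ∃ P, P = (S \ A).filter (fun v => p v = i) := ⟨_, rfl⟩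
      have mP' : ∀ v, v ∈ P ↔ (v ∈ S ∧ v ∉ A) ∧ p v = i := by
        intro v; rw [hP]; exact mP i v
      have hPc := Finset.card_pos.2 hPne
      have hodd : ¬ Even ((S \ A).filter (fun v => p v = i)).card := fun h' =>
        hb ⟨i, hPne, h'⟩
      have hne1 : ((S \ A).filter (fun v => p v = i)).card ≠ 1 := fun h' => ha ⟨i, h'⟩
      rw [← hP] at hPc hodd hne1 hPs
      rw [Nat.not_even_iff_odd] at hodd
      obtain ⟨c, hc⟩ := hodd
      have hPS : P ⊆ S := fun x hx => ((mP' x).1 hx).1.1
      obtain ⟨B, hBP, hBc, G', hcr, hG1, hG2⟩ := repS G S P hPS hG (c + 1) (by omega) (by omega)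
        (by
          intro x hx y hy hyP
          have hx' := (mP' x).1 hx
          by_cases hyA : y ∈ A
          · refine (hA y hyA x hx'.1.1 ?_).symm
            rintro rfl
            exact hx'.1.2 hyA
          · refine hp x hx'.1.1 y hy hx'.1.2 hyA ?_
            rw [hx'.2]
            intro h'
            exact hyP ((mP' y).2 ⟨⟨hy, hyA⟩, h'.symm⟩)) hPs hSbig
      refine le_trans ?_ hcr
      have hAP : ∀ a ∈ A, a ∉ P := fun a ha h' => ((mP' a).1 h').1.2 ha
      have e1 : ((S \ P) ∪ B) \ (A ∪ B) = (S \ A) \ P := by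
        ext y
        simp only [Finset.mem_sdiff, Finset.mem_union]
        constructor
        · rintro ⟨h1, h2⟩
          rw [not_or] at h2
          rcases h1 with h1 | h1
          · exact ⟨⟨h1.1, h2.1⟩, h1.2⟩
          · exact absurd h1 h2.2
        · rintro ⟨⟨h1, h2⟩, h3⟩
          refine ⟨Or.inl ⟨h1, h3⟩, ?_⟩
          rw [not_or]
          exact ⟨h2, fun h' => h3 (hBP h')⟩
      have hPSA : P ⊆ S \ A := by
        intro x hx
        rw [Finset.mem_sdiff]; exact ((mP' x).1 hx).1
      have hB2 : ∀ x ∈ (S \ P) ∪ B, x ∉ B → x ∈ S ∧ x ∉ P := by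
        intro x hx hxB
        rw [Finset.mem_union, Finset.mem_sdiff] at hx
        rcases hx with hx | hx
        · exact hx
        · exact absurd hx hxB
      refine ih G' ((S \ P) ∪ B) (A ∪ B) p ?_ ?_ ?_ ?_ ?_ ?_
      · rw [e1, Finset.card_sdiff_of_subset hPSA]
        omega
      · refine Finset.union_subset_union ?_ (Finset.Subset.refl _)
        intro a ha
        exact Finset.mem_sdiff.2 ⟨hAS ha, hAP a ha⟩
      · intro x hx y hy z hz hxy hxz hyz
        by_cases hxB : x ∈ B
        · exact Or.inl (hG2 x hxB y hy hxy.symm)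
        by_cases hyB : y ∈ B
        · exact Or.inl (hG2 y hyB x hx hxy).symm
        by_cases hzB : z ∈ B
        · exact Or.inr (Or.inl (hG2 z hzB x hx hxz).symm)
        have hx' := hB2 x hx hxB
        have hy' := hB2 y hy hyB
        have hz' := hB2 z hz hzB
        rcases hG x hx'.1 y hy'.1 z hz'.1 hxy hxz hyz with h | h | h
        · exact Or.inl (hG1 x y hx'.2 hy'.2 h)
        · exact Or.inr (Or.inl (hG1 x z hx'.2 hz'.2 h))
        · exact Or.inr (Or.inr (hG1 y z hy'.2 hz'.2 h))
      · intro a ha y hy hya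
        rcases Finset.mem_union.1 ha with ha | ha
        · by_cases hyB : y ∈ B
          · refine (hG2 y hyB a ?_ hya.symm).symm
            exact Finset.mem_union_left _ (Finset.mem_sdiff.2 ⟨hAS ha, hAP a ha⟩)
          · have hy' := hB2 y hy hyB
            exact hG1 a y (hAP a ha) hy'.2 (hA a ha y hy'.1 hya)
        · exact hG2 a ha y hy hya
      · intro x hx y hy hxA hyA hxy
        rw [Finset.mem_union, not_or] at hxA hyA
        have hx' := hB2 x hx hxA.2
        have hy' := hB2 y hy hyA.2
        exact hG1 x y hx'.2 hy'.2 (hp x hx'.1 y hy'.1 hxA.1 hyA.1 hxy)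
      · rw [e1]
        have h1 := wt_sdiff p (S \ A) P i (fun v hv => ((mP' v).1 hv).2)
        have h2 : ((S \ A) \ P).filter (fun v => p v = i) = ∅ := by
          rw [Finset.filter_eq_empty_iff]
          intro y hy hyi
          rw [Finset.mem_sdiff, Finset.mem_sdiff] at hy
          exact hy.2 ((mP' y).2 ⟨hy.1, hyi⟩)
        rw [h2, Finset.card_empty, ← hP] at h1
        have h3 : (A ∪ B).card = A.card + B.card := by
          rw [Finset.card_union_of_disjoint]
          rw [Finset.disjoint_left]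
          intro a ha hab
          exact hAP a ha (hBP hab)
        rw [h3]
        omega
    -- one big part
    obtain ⟨v, hv⟩ := hne
    obtain ⟨i, hi⟩ : ∃ i, i = p v := ⟨_, rfl⟩
    have hvP : v ∈ (S \ A).filter (fun v => p v = i) := Finset.mem_filter.2 ⟨hv, hi.symm⟩
    have big : ∀ j, ((S \ A).filter (fun v => p v = j)).Nonempty →
        100 * S.card < 127 * ((S \ A).filter (fun v => p v = j)).card := by
      intro j hj
      by_contra h'
      exact hc ⟨j, hj, not_lt.1 h'⟩
    have hbi := big i ⟨v, hvP⟩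
    have hall : (S \ A).filter (fun v => p v = i) = S \ A := by
      rw [Finset.filter_eq_self]
      intro y hy
      by_contra hyi
      have hyP : y ∈ (S \ A).filter (fun v => p v = p y) := Finset.mem_filter.2 ⟨hy, rfl⟩
      have hby := big (p y) ⟨y, hyP⟩
      have hdis : Disjoint ((S \ A).filter (fun v => p v = i))
          ((S \ A).filter (fun v => p v = p y)) := by
        rw [Finset.disjoint_left]
        intro z hz hz'
        rw [Finset.mem_filter] at hz hz'
        exact hyi (hz'.2.symm.trans hz.2)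
      have h1 := Finset.card_le_card (Finset.union_subset
        (Finset.filter_subset (fun v => p v = i) (S \ A))
        (Finset.filter_subset (fun v => p v = p y) (S \ A)))
      rw [Finset.card_union_of_disjoint hdis] at h1
      omega
    have hwt : wt p (S \ A) ≤ ((S \ A).card + 1) / 2 := by
      have h1 := wt_sdiff p (S \ A) (S \ A) i (by
        intro y hy
        rw [← hall] at hy
        exact (Finset.mem_filter.1 hy).2)
      have h0 := wt_le p (∅ : Finset V)
      rw [Finset.card_empty] at h0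
      rw [hall, Finset.sdiff_self, Finset.filter_empty, Finset.card_empty] at h1
      omega
    rw [hall] at hbi
    refine hfar V G S A t hAS hG hA ?_ ?_ ?_
    · omega
    · omega
    · omega

end Pool.Agent.H466.AL
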