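import Pool.Agent.H466.AL.Tut

set_option autoImplicit false

/-!
Graphs without three pairwise non-adjacent vertices: the lower bound for the crossing number.
-/

open Set Classical
open Pool.Agent.Helper770.Crossing Pool.Agent.NH90.CN

namespace Pool.Agent.H466.AL

theorem cS_le {V : Type} [Fintype V] (G : SimpleGraph V) (S : Finset V) :
    cS G S ≤ crossingNumber G :=
  cr_mono (G := G) (Function.Embedding.subtype (fun x => x ∈ S)) _ le_rfl

theorem alpha_two : ∃ t₀ : ℕ, ∀ (t : ℕ), t₀ ≤ t → ∀ (V : Type) [Fintype V] (G : SimpleGraph V),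
    A2 G → (t : ℕ∞) ≤ G.chromaticNumber → crossingNumber (K t) ≤ crossingNumber G := by
  obtain ⟨T₀, hfar⟩ := far
  obtain ⟨T₁, hjp⟩ := jp
  refine ⟨T₀ + T₁ + 1, ?_⟩
  intro t ht V _ G hG hχ
  have hcol : ¬ G.Colorable (t - 1) := by
    intro h
    have h1 := h.chromaticNumber_le
    have h2 : ((t : ℕ) : ℕ∞) ≤ ((t - 1 : ℕ) : ℕ∞) := hχ.trans h1
    have h3 : t ≤ t - 1 := by exact_mod_cast h2
    omega
  by_cases hn : 2 * t ≤ Fintype.card V + 1
  · refine hfar V G ∅ t hG (by simp) (by simp) (by simpa using hn) (by omega)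
  · obtain ⟨ι, _, S, p, hp, hw⟩ := tut G t (by omega) (by omega) hcol
    refine (hjp V ι t (by omega) (S \ ∅).card G S ∅ p le_rfl (by simp) ?_ (by simp) ?_ ?_).trans
      (cS_le G S)
    · intro x _ y _ z _
      exact hG x y z
    · intro x hx y hy _ _ hxy
      exact hp x hx y hy hxy
    · simpa using hw

end Pool.Agent.H466.AL
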