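import Pool.Agent.H466.AL.Basic

set_option autoImplicit false

/-!
A parallel copy of a polyline: geometry.
-/

open Set Classical Filter Topology
open Pool.Agent.Helper770.Crossing Pool.Agent.NH90.CN

namespace Pool.Agent.H466.AL.Par

/-- determinant -/
def cs (u v : ℂ) : ℝ := u.re * v.im - u.im * v.re

theorem cs_self (u : ℂ) : cs u u = 0 := by unfold cs; ring
theorem cs_add (u v w : ℂ) : cs u (v + w) = cs u v + cs u w := by
  unfold cs; simp only [Complex.add_re, Complex.add_im]; ring
theorem cs_sub (u v w : ℂ) : cs u (v - w) = cs u v - cs u w := by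
  unfold cs; simp only [Complex.sub_re, Complex.sub_im]; ring
theorem cs_smul (u v : ℂ) (r : ℝ) : cs u (r • v) = r * cs u v := by
  unfold cs; simp only [Complex.real_smul, Complex.mul_re, Complex.mul_im, Complex.ofReal_re,
    Complex.ofReal_im]; ring
theorem cs_neg (u v : ℂ) : cs u (-v) = - cs u v := by
  unfold cs; simp only [Complex.neg_re, Complex.neg_im]; ring
theorem cs_comm (u v : ℂ) : cs v u = - cs u v := by unfold cs; ring
theorem cs_zero (u : ℂ) : cs u 0 = 0 := by unfold cs; simp

theorem cs_seg {u x y c z : ℂ} (hz : z ∈ segment ℝ x y) :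
    ∃ s : ℝ, 0 ≤ s ∧ s ≤ 1 ∧ z = (1 - s) • x + s • y ∧
      cs u (z - c) = (1 - s) * cs u (x - c) + s * cs u (y - c) := by
  obtain ⟨a, b, ha, hb, hab, rfl⟩ := hz
  refine ⟨b, hb, by linarith, ?_, ?_⟩
  · rw [show 1 - b = a by linarith]
  · rw [show 1 - b = a by linarith, cs_sub, cs_sub, cs_sub, cs_add, cs_smul, cs_smul]
    linear_combination (cs u c) * hab

/-- a direction on the left of two directions that are not opposite -/
theorem exists_left {x y z : ℂ} (hxy : x ≠ y) (hyz : y ≠ z) (h1 : z ∉ segment ℝ x y)
    (h2 : x ∉ segment ℝ y z) : ∃ b : ℂ, 0 < cs (y - x) b ∧ 0 < cs (z - y) b := by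
  set u := y - x with hu
  set v := z - y with hv
  rcases lt_trichotomy (cs u v) 0 with h | h | h
  · refine ⟨u - v, ?_, ?_⟩
    · rw [cs_sub, cs_self]; linarith
    · rw [cs_sub, cs_self, cs_comm u v]; linarith
  · -- parallel
    have hu0 : u ≠ 0 := sub_ne_zero.2 hxy.symm
    have hn : 0 < u.re ^ 2 + u.im ^ 2 := by
      by_contra hc
      apply hu0
      have h3 : u.re ^ 2 = 0 := by nlinarith [sq_nonneg u.re, sq_nonneg u.im]
      have h4 : u.im ^ 2 = 0 := by nlinarith [sq_nonneg u.re, sq_nonneg u.im]
      exact Complex.ext (by simpa using h3) (by simpa using h4)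
    set r := (u.re * v.re + u.im * v.im) / (u.re ^ 2 + u.im ^ 2) with hr
    have hvr : v = r • u := by
      have h' : u.re * v.im = u.im * v.re := by unfold cs at h; linarith
      apply Complex.ext
      · rw [Complex.real_smul, Complex.re_ofReal_mul, hr]
        field_simp
        linear_combination (-u.im) * h'
      · rw [Complex.real_smul, Complex.im_ofReal_mul, hr]
        field_simp
        linear_combination (u.re) * h'
    have hr0 : 0 < r := by
      by_contra hc
      push Not at hc
      rcases le_total (-1) r with h3 | h3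
      · apply h1
        refine ⟨-r, 1 + r, by linarith, by linarith, by ring, ?_⟩
        have e : z = y + r • (y - x) := by
          rw [← hu, ← hvr, hv]; ring
        rw [e]
        simp only [Complex.real_smul]
        push_cast
        ring
      · apply h2
        have e : z - y = r • (y - x) := by rw [← hu, ← hvr]
        have hr' : r < 0 := by linarith
        have hrc : (r : ℂ) ≠ 0 := by exact_mod_cast hr'.ne
        refine ⟨1 + 1 / r, -1 / r, ?_, ?_, by ring, ?_⟩
        · have : -1 ≤ 1 / r := by
            rw [le_div_iff_of_neg hr']; linarith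
          linarith
        · apply le_of_lt
          apply div_pos_of_neg_of_neg <;> linarith
        · have e2 : z = y + r • (y - x) := by rw [← e]; ring
          rw [e2]
          simp only [Complex.real_smul]
          push_cast
          field_simp
          ring
    refine ⟨⟨-u.im, u.re⟩, ?_, ?_⟩
    · unfold cs; simp only; nlinarith
    · rw [hvr]
      unfold cs
      simp only [Complex.real_smul, Complex.re_ofReal_mul, Complex.im_ofReal_mul]
      nlinarith
  · refine ⟨v - u, ?_, ?_⟩
    · rw [cs_sub, cs_self]; linarith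
    · rw [cs_sub, cs_self, cs_comm u v]; linarith

theorem disj_small {a b c d : ℂ} (u v : ℂ)
    (h : Disjoint (segment ℝ a b) (segment ℝ c d)) :
    ∀ᶠ ε : ℝ in 𝓝[>] 0, Disjoint (segment ℝ (a + ε • u) (b + ε • v)) (segment ℝ c d) := by
  have hca : IsCompact (segment ℝ a b) := by
    rw [← convexHull_pair]
    exact (Set.toFinite ({a, b} : Set ℂ)).isCompact_convexHull (𝕜 := ℝ)
  have hcc : IsClosed (segment ℝ c d) := by
    rw [← convexHull_pair]
    exact ((Set.toFinite ({c, d} : Set ℂ)).isCompact_convexHull (𝕜 := ℝ)).isClosed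
  obtain ⟨f, r, s, h1, h2, h3⟩ := geometric_hahn_banach_compact_closed (convex_segment a b) hca
    (convex_segment c d) hcc h
  have ha : f a < r := h1 a (left_mem_segment ℝ a b)
  have hb : f b < r := h1 b (right_mem_segment ℝ a b)
  have e1 : ∀ᶠ ε : ℝ in 𝓝[>] 0, f (a + ε • u) < r := by
    have : Tendsto (fun ε : ℝ => f (a + ε • u)) (𝓝 0) (𝓝 (f (a + (0 : ℝ) • u))) := by
      apply Continuous.tendsto
      fun_prop
    rw [zero_smul, add_zero] at this
    exact (this.eventually (gt_mem_nhds ha)).filter_mono nhdsWithin_le_nhds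
  have e2 : ∀ᶠ ε : ℝ in 𝓝[>] 0, f (b + ε • v) < r := by
    have : Tendsto (fun ε : ℝ => f (b + ε • v)) (𝓝 0) (𝓝 (f (b + (0 : ℝ) • v))) := by
      apply Continuous.tendsto
      fun_prop
    rw [zero_smul, add_zero] at this
    exact (this.eventually (gt_mem_nhds hb)).filter_mono nhdsWithin_le_nhds
  filter_upwards [e1, e2] with ε k1 k2
  rw [Set.disjoint_left]
  intro z hz hz'
  have h4 := h3 z hz'
  have h5 : f z < r := by
    obtain ⟨α, β, hα, hβ, hαβ, rfl⟩ := hz
    rw [map_add, map_smul, map_smul, smul_eq_mul, smul_eq_mul]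
    have : α * f (a + ε • u) + β * f (b + ε • v) < α * r + β * r := by
      rcases hα.eq_or_lt with h6 | h6
      · have : β = 1 := by linarith
        rw [← h6, this]; linarith
      · nlinarith
    have h7 : α * r + β * r = r := by rw [← add_mul, hαβ, one_mul]
    linarith
  linarith

theorem ne_small {a x : ℂ} (u : ℂ) (h : a ≠ x) : ∀ᶠ ε : ℝ in 𝓝[>] 0, a + ε • u ≠ x := by
  have : Tendsto (fun ε : ℝ => a + ε • u) (𝓝 0) (𝓝 (a + (0 : ℝ) • u)) := by
    apply Continuous.tendsto
    fun_prop
  rw [zero_smul, add_zero] at this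
  exact (this.eventually_ne h).filter_mono nhdsWithin_le_nhds

theorem ne_small' {a : ℂ} {u : ℂ} (h : u ≠ 0) : ∀ᶠ ε : ℝ in 𝓝[>] 0, a + ε • u ≠ a := by
  filter_upwards [self_mem_nhdsWithin] with ε hε h'
  have h1 : ε • u = 0 := by simpa using h'
  rcases smul_eq_zero.1 h1 with h2 | h2
  · exact absurd h2 (ne_of_gt hε)
  · exact h h2

theorem ne_small2 {a x : ℂ} (u v : ℂ) (h : a ≠ x) :
    ∀ᶠ ε : ℝ in 𝓝[>] 0, a + ε • u ≠ x + ε • v := by
  have h1 := ne_small (u - v) h
  filter_upwards [h1] with ε h2 h3
  apply h2
  rw [smul_sub]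
  linear_combination h3

theorem pos_small {r : ℝ} (s : ℝ) (h : 0 < r) : ∀ᶠ ε : ℝ in 𝓝[>] 0, 0 < r + ε * s := by
  have : Tendsto (fun ε : ℝ => r + ε * s) (𝓝 0) (𝓝 (r + 0 * s)) := by
    apply Continuous.tendsto
    fun_prop
  rw [zero_mul, add_zero] at this
  exact (this.eventually (lt_mem_nhds h)).filter_mono nhdsWithin_le_nhds

/-- displaced points -/
noncomputable def qq (p b : ℕ → ℂ) (m : ℕ) (ε : ℝ) (i : ℕ) : ℂ :=
  if i = 0 ∨ i = m then p i else p i + ε • b i

theorem qq_eq (p b : ℕ → ℂ) (m : ℕ) (ε : ℝ) (i : ℕ) :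
    qq p b m ε i = p i + ε • (if i = 0 ∨ i = m then 0 else b i) := by
  unfold qq
  split_ifs <;> simp

/-- the geometric lemma -/
theorem gl (p : ℕ → ℂ) (m : ℕ) (Q : Finset ℂ) (S : Finset (ℂ × ℂ))
    (H1 : ∀ i ≤ m, ∀ j ≤ m, p i = p j → i = j)
    (H2 : ∀ i < m, ∀ l < m, i + 2 ≤ l →
      Disjoint (segment ℝ (p i) (p (i + 1))) (segment ℝ (p l) (p (l + 1))))
    (H3 : ∀ i, i + 2 ≤ m → p (i + 2) ∉ segment ℝ (p i) (p (i + 1)) ∧
      p i ∉ segment ℝ (p (i + 1)) (p (i + 2))) :
    ∃ q : ℕ → ℂ, q 0 = p 0 ∧ q m = p m ∧
      (∀ i ≤ m, ∀ j ≤ m, q i = q j → i = j) ∧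
      (∀ i, 0 < i → i < m → q i ∉ Q) ∧
      (∀ i < m, ∀ s ∈ S, Disjoint (segment ℝ (p i) (p (i + 1))) (segment ℝ s.1 s.2) →
        Disjoint (segment ℝ (q i) (q (i + 1))) (segment ℝ s.1 s.2)) ∧
      (∀ i < m, ∀ l < m, ¬ Xs s(q i, q (i + 1)) s(p l, p (l + 1))) := by
  -- directions
  have hb : ∀ i, ∃ b : ℂ, i + 2 ≤ m → 0 < cs (p (i + 1) - p i) b ∧
      0 < cs (p (i + 2) - p (i + 1)) b := by
    intro i
    by_cases hi : i + 2 ≤ m
    · obtain ⟨b, hb⟩ := exists_left (x := p i) (y := p (i + 1)) (z := p (i + 2))
        (fun h => by have := H1 i (by omega) (i + 1) (by omega) h; omega)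
        (fun h => by have := H1 (i + 1) (by omega) (i + 2) (by omega) h; omega)
        (H3 i hi).1 (H3 i hi).2
      exact ⟨b, fun _ => hb⟩
    · exact ⟨0, fun h => absurd h hi⟩
  choose b' hb' using hb
  let b : ℕ → ℂ := fun i => b' (i - 1)
  have hbl : ∀ i, i + 2 ≤ m → 0 < cs (p (i + 1) - p i) (b (i + 1)) := by
    intro i hi
    exact (hb' i hi).1
  have hbr : ∀ i, i + 2 ≤ m → 0 < cs (p (i + 2) - p (i + 1)) (b (i + 1)) := by
    intro i hi
    exact (hb' i hi).2
  have hb0 : ∀ i, 0 < i → i < m → b i ≠ 0 := by
    intro i h0 hm h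
    obtain ⟨j, rfl⟩ : ∃ j, i = j + 1 := ⟨i - 1, by omega⟩
    have := hbl j (by omega)
    rw [h, cs_zero] at this
    exact lt_irrefl _ this
  -- eventual conditions
  have E1 : ∀ᶠ ε : ℝ in 𝓝[>] 0, ∀ i ∈ Finset.range (m + 1), ∀ j ∈ Finset.range (m + 1), i ≠ j →
      qq p b m ε i ≠ qq p b m ε j := by
    rw [Filter.eventually_all_finset]
    intro i hi
    rw [Filter.eventually_all_finset]
    intro j hj
    rw [Finset.mem_range] at hi hj
    by_cases hij : i = j
    · exact Filter.Eventually.of_forall (fun ε h => absurd hij h)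
    · have := ne_small2 (if i = 0 ∨ i = m then 0 else b i) (if j = 0 ∨ j = m then 0 else b j)
        (show p i ≠ p j from fun h => hij (H1 i (by omega) j (by omega) h))
      filter_upwards [this] with ε h _
      rw [qq_eq, qq_eq]
      exact h
  have E2 : ∀ᶠ ε : ℝ in 𝓝[>] 0, ∀ i ∈ Finset.range m, ∀ x ∈ Q, 0 < i →
      qq p b m ε i ≠ x := by
    rw [Filter.eventually_all_finset]
    intro i hi
    rw [Filter.eventually_all_finset]
    intro x hx
    rw [Finset.mem_range] at hi
    by_cases h0 : 0 < i
    · have h1 : ¬ (i = 0 ∨ i = m) := by omega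
      by_cases hxp : p i = x
      · filter_upwards [ne_small' (a := p i) (hb0 i h0 hi)] with ε h _
        unfold qq
        rw [if_neg h1, ← hxp]
        exact h
      · filter_upwards [ne_small (b i) hxp] with ε h _
        unfold qq
        rw [if_neg h1]
        exact h
    · exact Filter.Eventually.of_forall (fun ε h => absurd h h0)
  have E3 : ∀ᶠ ε : ℝ in 𝓝[>] 0, ∀ i ∈ Finset.range m, ∀ s ∈ S,
      Disjoint (segment ℝ (p i) (p (i + 1))) (segment ℝ s.1 s.2) →
      Disjoint (segment ℝ (qq p b m ε i) (qq p b m ε (i + 1))) (segment ℝ s.1 s.2) := by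
    rw [Filter.eventually_all_finset]
    intro i hi
    rw [Filter.eventually_all_finset]
    intro s hs
    by_cases hd : Disjoint (segment ℝ (p i) (p (i + 1))) (segment ℝ s.1 s.2)
    · filter_upwards [disj_small (if i = 0 ∨ i = m then 0 else b i)
        (if i + 1 = 0 ∨ i + 1 = m then 0 else b (i + 1)) hd] with ε h _
      rw [qq_eq, qq_eq]
      exact h
    · exact Filter.Eventually.of_forall (fun ε h => absurd h hd)
  have E4 : ∀ᶠ ε : ℝ in 𝓝[>] 0, ∀ i ∈ Finset.range m, ∀ l ∈ Finset.range m,
      Disjoint (segment ℝ (p i) (p (i + 1))) (segment ℝ (p l) (p (l + 1))) →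
      Disjoint (segment ℝ (qq p b m ε i) (qq p b m ε (i + 1)))
        (segment ℝ (p l) (p (l + 1))) := by
    rw [Filter.eventually_all_finset]
    intro i hi
    rw [Filter.eventually_all_finset]
    intro l hl
    by_cases hd : Disjoint (segment ℝ (p i) (p (i + 1))) (segment ℝ (p l) (p (l + 1)))
    · filter_upwards [disj_small (if i = 0 ∨ i = m then 0 else b i)
        (if i + 1 = 0 ∨ i + 1 = m then 0 else b (i + 1)) hd] with ε h _
      rw [qq_eq, qq_eq]
      exact h
    · exact Filter.Eventually.of_forall (fun ε h => absurd h hd)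
  -- turning conditions
  have E5 : ∀ᶠ ε : ℝ in 𝓝[>] 0, ∀ i ∈ Finset.range m,
      0 < cs (p (i + 1) - p i) (p (i + 2) - p (i + 1)) →
      0 < cs (p (i + 1) - p i) (p (i + 2) - p (i + 1)) +
        ε * cs (p (i + 1) - p i) (b (i + 2)) ∧
      0 < cs (p (i + 1) - p i) (p (i + 2) - p (i + 1)) +
        ε * cs (p (i + 2) - p (i + 1)) (b i) := by
    rw [Filter.eventually_all_finset]
    intro i _
    by_cases h : 0 < cs (p (i + 1) - p i) (p (i + 2) - p (i + 1))
    · filter_upwards [pos_small (cs (p (i + 1) - p i) (b (i + 2))) h,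
        pos_small (cs (p (i + 2) - p (i + 1)) (b i)) h] with ε h1 h2 _
      exact ⟨h1, h2⟩
    · exact Filter.Eventually.of_forall (fun ε h' => absurd h' h)
  obtain ⟨ε, hε, e1, e2, e3, e4, e5⟩ := ((eventually_mem_nhdsWithin (a := (0 : ℝ))
    (s := Set.Ioi 0)).and (E1.and (E2.and (E3.and (E4.and E5))))).exists
  have hε0 : 0 < ε := hε
  -- values
  have q0 : qq p b m ε 0 = p 0 := by unfold qq; rw [if_pos (Or.inl rfl)]
  have qm : qq p b m ε m = p m := by unfold qq; rw [if_pos (Or.inr rfl)]
  have qi : ∀ i, 0 < i → i < m → qq p b m ε i = p i + ε • b i := by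
    intro i h0 h1
    unfold qq
    rw [if_neg (by omega)]
  refine ⟨qq p b m ε, q0, qm, ?_, ?_, ?_, ?_⟩
  · intro i hi j hj h
    by_contra hij
    exact e1 i (Finset.mem_range.2 (by omega)) j (Finset.mem_range.2 (by omega)) hij h
  · intro i h0 h1 hQ
    exact e2 i (Finset.mem_range.2 h1) _ hQ h0 rfl
  · intro i hi s hs h
    exact e3 i (Finset.mem_range.2 hi) s hs h
  · intro i hi l hl hX
    obtain ⟨hX1, hX2⟩ := hX
    have hsg : ∀ x y : ℂ, sg s(x, y) = segment ℝ x y := UNX.sg_mk
    rw [hsg, hsg] at hX2
    have hnd : ¬ Disjoint (segment ℝ (qq p b m ε i) (qq p b m ε (i + 1)))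
        (segment ℝ (p l) (p (l + 1))) := Set.not_disjoint_iff_nonempty_inter.2 hX2
    -- far apart
    have hnear : l = i ∨ l + 1 = i ∨ l = i + 1 := by
      by_contra hc
      apply hnd
      apply e4 i (Finset.mem_range.2 hi) l (Finset.mem_range.2 hl)
      rcases lt_or_ge i l with h | h
      · exact H2 i hi l hl (by omega)
      · exact (H2 l hl i hi (by omega)).symm
    -- ends
    have hend0 : i = 0 → l = 0 → False := by
      rintro rfl rfl
      apply hX1 (p 0)
      · rw [q0]; simp
      · simp
    have hendm : i + 1 = m → l + 1 = m → False := by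
      intro h1 h2
      apply hX1 (p m)
      · rw [h1, qm]; simp
      · rw [h2]; simp
    obtain ⟨z, hz1, hz2⟩ := hX2
    rcases hnear with rfl | hl' | hl'
    · -- the same segment
      have hi0 : 0 < l := by
        by_contra hc
        exact hend0 (by omega) (by omega)
      have him : l + 1 < m := by
        by_contra hc
        exact hendm (by omega) (by omega)
      obtain ⟨j, rfl⟩ : ∃ j, l = j + 1 := ⟨l - 1, by omega⟩
      obtain ⟨s, hs0, hs1, -, hs⟩ := cs_seg (u := p (j + 1 + 1) - p (j + 1)) (c := p (j + 1)) hz1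
      obtain ⟨s', hs0', hs1', -, hs'⟩ :=
        cs_seg (u := p (j + 1 + 1) - p (j + 1)) (c := p (j + 1)) hz2
      rw [sub_self, cs_zero, cs_self, mul_zero, mul_zero, add_zero] at hs'
      rw [hs'] at hs
      rw [qi _ hi0 (by omega), qi _ (by omega) him] at hs
      have g1 : 0 < cs (p (j + 1 + 1) - p (j + 1)) (p (j + 1) + ε • b (j + 1) - p (j + 1)) := by
        rw [add_sub_cancel_left, cs_smul]
        exact mul_pos hε0 (hbr j (by omega))
      have g2 : 0 < cs (p (j + 1 + 1) - p (j + 1))
          (p (j + 1 + 1) + ε • b (j + 1 + 1) - p (j + 1)) := by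
        rw [add_sub_right_comm, cs_add, cs_self, zero_add, cs_smul]
        exact mul_pos hε0 (hbl (j + 1) (by omega))
      rcases hs0.eq_or_lt with h | h
      · rw [← h] at hs
        linarith
      · nlinarith [mul_nonneg (sub_nonneg.2 hs1) g1.le, mul_pos h g2]
    · -- the previous segment
      subst hl'
      set x := p l with hx
      set y := p (l + 1) with hy
      set w := p (l + 2) with hw
      have qy : qq p b m ε (l + 1) = y + ε • b (l + 1) := qi _ (by omega) hi
      rw [qy] at hz1
      by_cases ht : 0 < cs (y - x) (w - y)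
      · -- left turn
        obtain ⟨s, hs0, hs1, -, hs⟩ := cs_seg (u := y - x) (c := x) hz1
        obtain ⟨s', hs0', hs1', -, hs'⟩ := cs_seg (u := y - x) (c := x) hz2
        rw [sub_self, cs_zero, cs_self, mul_zero, mul_zero, add_zero] at hs'
        rw [hs'] at hs
        have g1 : 0 < cs (y - x) (y + ε • b (l + 1) - x) := by
          rw [add_sub_right_comm, cs_add, cs_self, zero_add, cs_smul]
          exact mul_pos hε0 (hbl l (by omega))
        have g2 : 0 < cs (y - x) (qq p b m ε (l + 1 + 1) - x) := by
          by_cases hm : l + 2 = m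
          · have : qq p b m ε (l + 1 + 1) = w := by
              rw [show l + 1 + 1 = m by omega, qm, hw, hm]
            rw [this]
            have e : w - x = (w - y) + (y - x) := by ring
            rw [e, cs_add, cs_self, add_zero]
            exact ht
          · have : qq p b m ε (l + 1 + 1) = w + ε • b (l + 2) := qi _ (by omega) (by omega)
            rw [this]
            have e : w + ε • b (l + 2) - x = (w - y) + (y - x) + ε • b (l + 2) := by ring
            rw [e, cs_add, cs_add, cs_self, add_zero, cs_smul]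
            exact (e5 l (Finset.mem_range.2 hl) ht).1
        rcases hs0.eq_or_lt with h | h
        · rw [← h] at hs
          linarith
        · nlinarith [mul_nonneg (sub_nonneg.2 hs1) g1.le, mul_pos h g2]
      · push Not at ht
        obtain ⟨s, hs0, hs1, hzs, hs⟩ := cs_seg (u := w - y) (c := y) hz1
        obtain ⟨s', hs0', hs1', -, hs'⟩ := cs_seg (u := w - y) (c := y) hz2
        rw [sub_self, cs_zero, mul_zero, add_zero] at hs'
        have e : cs (w - y) (x - y) = cs (y - x) (w - y) := by unfold cs; simp; ring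
        rw [e] at hs'
        have k1 : cs (w - y) (z - y) ≤ 0 := by
          rw [hs']
          exact mul_nonpos_of_nonneg_of_nonpos (by linarith) ht
        have g1 : 0 < cs (w - y) (y + ε • b (l + 1) - y) := by
          rw [add_sub_cancel_left, cs_smul]
          exact mul_pos hε0 (hbr l (by omega))
        by_cases hm : l + 2 = m
        · have e3 : qq p b m ε (l + 1 + 1) = w := by
            rw [show l + 1 + 1 = m by omega, qm, hw, hm]
          rw [e3] at hs hzs
          rw [cs_self, mul_zero, add_zero] at hs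
          have h1 : s = 1 := by
            by_contra hc
            have : 0 < 1 - s := by
              rcases hs1.eq_or_lt with h | h
              · exact absurd h hc
              · linarith
            have := mul_pos this g1
            linarith
          rw [h1, sub_self, zero_smul, zero_add, one_smul] at hzs
          rw [hzs] at hz2
          exact (H3 l (by omega)).1 hz2
        · have e3 : qq p b m ε (l + 1 + 1) = w + ε • b (l + 2) := qi _ (by omega) (by omega)
          rw [e3] at hs
          have g2 : 0 < cs (w - y) (w + ε • b (l + 2) - y) := by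
            rw [add_sub_right_comm, cs_add, cs_self, zero_add, cs_smul]
            exact mul_pos hε0 (hbl (l + 1) (by omega))
          rcases hs0.eq_or_lt with h | h
          · rw [← h] at hs
            linarith
          · nlinarith [mul_nonneg (sub_nonneg.2 hs1) g1.le, mul_pos h g2]
    · -- the next segment
      subst hl'
      set x := p i with hx
      set y := p (i + 1) with hy
      set w := p (i + 2) with hw
      have qy : qq p b m ε (i + 1) = y + ε • b (i + 1) := qi _ (by omega) hl
      rw [qy] at hz1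
      by_cases ht : 0 < cs (y - x) (w - y)
      · obtain ⟨s, hs0, hs1, -, hs⟩ := cs_seg (u := w - y) (c := y) hz1
        obtain ⟨s', hs0', hs1', -, hs'⟩ := cs_seg (u := w - y) (c := y) hz2
        rw [sub_self, cs_zero] at hs'
        have hs'' : cs (w - y) (z - y) = 0 := by
          rw [hs', cs_self]; ring
        rw [hs''] at hs
        have g2 : 0 < cs (w - y) (y + ε • b (i + 1) - y) := by
          rw [add_sub_cancel_left, cs_smul]
          exact mul_pos hε0 (hbr i (by omega))
        have e : cs (w - y) (x - y) = cs (y - x) (w - y) := by unfold cs; simp; ring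
        have g1 : 0 < cs (w - y) (qq p b m ε i - y) := by
          by_cases h0 : i = 0
          · have : qq p b m ε i = x := by rw [h0, q0, hx, h0]
            rw [this, e]
            exact ht
          · have : qq p b m ε i = x + ε • b i := qi _ (by omega) hi
            rw [this, add_sub_right_comm, cs_add, cs_smul, e]
            exact (e5 i (Finset.mem_range.2 hi) ht).2
        rcases hs0.eq_or_lt with h | h
        · rw [← h] at hs
          linarith
        · nlinarith [mul_nonneg (sub_nonneg.2 hs1) g1.le, mul_pos h g2]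
      · push Not at ht
        obtain ⟨s, hs0, hs1, hzs, hs⟩ := cs_seg (u := y - x) (c := x) hz1
        obtain ⟨s', hs0', hs1', -, hs'⟩ := cs_seg (u := y - x) (c := x) hz2
        have e : w - x = (w - y) + (y - x) := by ring
        rw [cs_self, mul_zero, zero_add, e, cs_add, cs_self,
          add_zero] at hs'
        have k1 : cs (y - x) (z - x) ≤ 0 := by
          rw [hs']
          exact mul_nonpos_of_nonneg_of_nonpos (by linarith) ht
        have g2 : 0 < cs (y - x) (y + ε • b (i + 1) - x) := by
          rw [add_sub_right_comm, cs_add, cs_self, zero_add, cs_smul]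
          exact mul_pos hε0 (hbl i (by omega))
        by_cases h0 : i = 0
        · have e3 : qq p b m ε i = x := by rw [h0, q0, hx, h0]
          rw [e3] at hs hzs
          rw [sub_self, cs_zero, mul_zero, zero_add] at hs
          have h1 : s = 0 := by
            by_contra hc
            have : 0 < s := lt_of_le_of_ne hs0 (Ne.symm hc)
            have := mul_pos this g2
            linarith
          rw [h1, sub_zero, zero_smul, add_zero, one_smul] at hzs
          rw [hzs] at hz2
          exact (H3 i (by omega)).2 hz2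
        · obtain ⟨j, hj⟩ : ∃ j, i = j + 1 := ⟨i - 1, by omega⟩
          have e3 : qq p b m ε i = x + ε • b i := qi _ (by omega) hi
          rw [e3] at hs
          have g1 : 0 < cs (y - x) (x + ε • b i - x) := by
            rw [add_sub_cancel_left, cs_smul]
            have := hbr j (by omega)
            rw [show j + 2 = i + 1 by omega, show j + 1 = i by omega] at this
            exact mul_pos hε0 this
          rcases hs0.eq_or_lt with h | h
          · rw [← h] at hs
            linarith
          · nlinarith [mul_nonneg (sub_nonneg.2 hs1) g1.le, mul_pos h g2]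

end Pool.Agent.H466.AL.Par
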