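import Pool.Agent.H466.AL.Par

set_option autoImplicit false

/-!
A parallel copy of the concatenation of two polylines of a family.
-/

open Set Classical
open Pool.Agent.Helper770.Crossing Pool.Agent.NH90.CN

namespace Pool.Agent.H466.AL.Par

theorem segL_range (q : ℕ → ℂ) (m : ℕ) :
    segL ((List.range (m + 1)).map q) = (List.range m).map (fun i => s(q i, q (i + 1))) := by
  induction m generalizing q with
  | zero => simp [segL]
  | succ m ih =>
    have h1 : (List.range (m + 1 + 1)).map q = q 0 :: (List.range (m + 1)).map (fun i => q (i + 1)) := by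
      rw [List.range_succ_eq_map, List.map_cons, List.map_map]
      rfl
    have h2 : (List.range (m + 1)).map (fun i => q (i + 1)) =
        q 1 :: (List.range m).map (fun i => q (i + 2)) := by
      rw [List.range_succ_eq_map, List.map_cons, List.map_map]
      rfl
    have h3 := ih (fun i => q (i + 1))
    rw [h1, h2]
    rw [h2] at h3
    show s(q 0, q 1) :: segL (q 1 :: (List.range m).map (fun i => q (i + 2))) = _
    rw [h3, List.range_succ_eq_map, List.map_cons, List.map_map]
    rfl

theorem sum_range (f : ℕ → ℕ) (m : ℕ) :
    ((List.range m).map f).sum = ∑ i ∈ Finset.range m, f i := by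
  induction m with
  | zero => simp
  | succ m ih => rw [List.range_succ, List.map_append, List.sum_append, ih, Finset.sum_range_succ]; simp

theorem Nx_range (q : ℕ → ℂ) (m : ℕ) (l : List ℂ) :
    Nx ((List.range (m + 1)).map q) l = ∑ i ∈ Finset.range m, NS s(q i, q (i + 1)) l := by
  unfold Nx
  rw [segL_range, List.map_map, ← sum_range]
  rfl

theorem Nx_rev_left (l l' : List ℂ) : Nx l.reverse l' = Nx l l' := by
  rw [UNX.Nx_eq, UNX.Nx_eq, UNX.segL_reverse, UNX.cc_reverse_left]

theorem Nx_comm (l l' : List ℂ) : Nx l l' = Nx l' l := UNX.cc_comm _ _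

theorem Nx_zero {l l' : List ℂ} (h : ∀ s ∈ segL l, ∀ t ∈ segL l', ¬ Xs s t) : Nx l l' = 0 := by
  by_contra hc
  obtain ⟨s, hs, t, ht, hX⟩ := UNX.cc_pos (L := segL l) (L' := segL l') hc
  exact h s hs t ht hX

theorem no_Xs {l l' : List ℂ} (h : Nx l l' = 0) {s t : Sym2 ℂ} (hs : s ∈ segL l)
    (ht : t ∈ segL l') : ¬ Xs s t := by
  intro hX
  unfold Nx at h
  rw [List.sum_eq_zero_iff] at h
  have h1 := h (NS s l') (List.mem_map.2 ⟨s, hs, rfl⟩)
  unfold NS at h1
  rw [List.countP_eq_zero] at h1
  exact h1 t ht (by simpa using hX)

theorem segL_rev_mem {l : List ℂ} {s : Sym2 ℂ} : s ∈ segL l.reverse ↔ s ∈ segL l := by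
  rw [UNX.segL_reverse, List.mem_reverse]

/-- at most one segment of a polyline contains a given end -/
theorem cnt_end {l : List ℂ} (hn : l.Nodup) {w : ℂ} (hw : w ∈ l → En l w) :
    (segL l).countP (fun t => decide (w ∈ t)) ≤ if w ∈ l then 1 else 0 := by
  by_cases hwl : w ∈ l
  · rw [if_pos hwl]
    have key : ∀ l : List ℂ, l.Nodup → l.head? = some w →
        (segL l).countP (fun t => decide (w ∈ t)) ≤ 1 := by
      intro l hn hh
      cases l with
      | nil => simp [segL]
      | cons a l =>
        cases l with
        | nil => simp [segL]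
        | cons b l =>
          simp only [List.head?_cons, Option.some.injEq] at hh
          subst hh
          have h1 : (segL (b :: l)).countP (fun t => decide (a ∈ t)) = 0 := by
            rw [List.countP_eq_zero]
            intro t ht h2
            have h3 := UNX.mem_of_mem_segL ht (q := a) (by simpa using h2)
            exact (List.nodup_cons.1 hn).1 h3
          show (s(a, b) :: segL (b :: l)).countP _ ≤ 1
          rw [List.countP_cons, h1]
          split_ifs <;> simp
    rcases hw hwl with h | h
    · exact key l hn h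
    · have h2 := key l.reverse (List.nodup_reverse.2 hn) (by rw [List.head?_reverse]; exact h)
      rw [UNX.segL_reverse, List.countP_reverse] at h2
      exact h2
  · rw [if_neg hwl]
    apply le_of_eq
    rw [List.countP_eq_zero]
    intro t ht h2
    exact hwl (UNX.mem_of_mem_segL ht (by simpa using h2))

/-- the parallel copy -/
theorem par_list {I : Type} (A : Finset I) (W : I → List ℂ) (hP : PL A W) (hO : PO A W)
    (r1 r2 : I) (h1 : r1 ∈ A) (h2 : r2 ∈ A) (h12 : r1 ≠ r2) (a w b : ℂ) (hab : a ≠ b)
    (L1 L2 : List ℂ) (hL1 : L1 = W r1 ∨ L1 = (W r1).reverse)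
    (hL2 : L2 = W r2 ∨ L2 = (W r2).reverse)
    (ha1 : L1.head? = some a) (hw1 : L1.getLast? = some w) (hw2 : L2.head? = some w)
    (hb2 : L2.getLast? = some b)
    (n11 : Nx (W r1) (W r1) = 0) (n22 : Nx (W r2) (W r2) = 0) (n12 : Nx (W r1) (W r2) = 0) :
    ∃ l : List ℂ, 2 ≤ l.length ∧ l.Nodup ∧ l.head? = some a ∧ l.getLast? = some b ∧
      (∀ j ∈ A, ∀ q ∈ l, q ∈ W j → En l q ∧ En (W j) q) ∧
      ∀ j ∈ A, Nx l (W j) ≤ if j = r1 ∨ j = r2 then 0 else
        Nx (W r1) (W j) + Nx (W r2) (W j) + if w ∈ W j then 2 else 0 := by
  -- basic facts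
  have m1 : ∀ x, x ∈ L1 ↔ x ∈ W r1 := by
    intro x; rcases hL1 with rfl | rfl <;> simp
  have m2 : ∀ x, x ∈ L2 ↔ x ∈ W r2 := by
    intro x; rcases hL2 with rfl | rfl <;> simp
  have s1 : ∀ x, x ∈ segL L1 ↔ x ∈ segL (W r1) := by
    intro x; rcases hL1 with rfl | rfl
    · rfl
    · exact segL_rev_mem
  have s2 : ∀ x, x ∈ segL L2 ↔ x ∈ segL (W r2) := by
    intro x; rcases hL2 with rfl | rfl
    · rfl
    · exact segL_rev_mem
  have e1 : ∀ x, En (W r1) x ↔ x = a ∨ x = w := by
    intro x
    unfold En
    rcases hL1 with h | h
    · rw [← h, ha1, hw1]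
      simp only [Option.some.injEq, eq_comm]
    · have : W r1 = L1.reverse := by rw [h, List.reverse_reverse]
      rw [this, List.head?_reverse, List.getLast?_reverse, ha1, hw1]
      simp only [Option.some.injEq]
      rw [or_comm, eq_comm, @eq_comm _ w x]
  have e2 : ∀ x, En (W r2) x ↔ x = w ∨ x = b := by
    intro x
    unfold En
    rcases hL2 with h | h
    · rw [← h, hw2, hb2]
      simp only [Option.some.injEq, eq_comm]
    · have : W r2 = L2.reverse := by rw [h, List.reverse_reverse]
      rw [this, List.head?_reverse, List.getLast?_reverse, hw2, hb2]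
      simp only [Option.some.injEq]
      rw [or_comm, eq_comm, @eq_comm _ b x]
  have nd1 : L1.Nodup := by
    rcases hL1 with rfl | rfl
    · exact hP.nd r1 h1
    · exact List.nodup_reverse.2 (hP.nd r1 h1)
  have nd2 : L2.Nodup := by
    rcases hL2 with rfl | rfl
    · exact hP.nd r2 h2
    · exact List.nodup_reverse.2 (hP.nd r2 h2)
  have len1 : 2 ≤ L1.length := by
    rcases hL1 with rfl | rfl
    · exact hP.len r1 h1
    · rw [List.length_reverse]; exact hP.len r1 h1
  have len2 : 2 ≤ L2.length := by
    rcases hL2 with rfl | rfl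
    · exact hP.len r2 h2
    · rw [List.length_reverse]; exact hP.len r2 h2
  obtain ⟨T, hT⟩ : ∃ T, L2 = w :: T := by
    cases L2 with
    | nil => simp at hw2
    | cons c T => simp only [List.head?_cons, Option.some.injEq] at hw2; exact ⟨T, by rw [hw2]⟩
  obtain ⟨T1, hT1⟩ : ∃ T1, L1 = T1 ++ [w] := by
    obtain ⟨T1, hT1⟩ := List.getLast?_eq_some_iff.1 hw1
    exact ⟨T1, hT1⟩
  have haw : a ≠ w := by
    rintro rfl
    rw [hT1] at ha1 nd1 len1
    cases T1 with
    | nil => simp at len1
    | cons c T1 =>
      simp only [List.cons_append, List.head?_cons, Option.some.injEq] at ha1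
      subst ha1
      simp at nd1
  have hbw : b ≠ w := by
    rintro rfl
    rw [hT] at hb2 nd2 len2
    have : b ∈ T := by
      cases T with
      | nil => simp at len2
      | cons c T =>
        rw [List.getLast?_cons_cons] at hb2
        exact List.mem_of_getLast? hb2
    exact (List.nodup_cons.1 nd2).1 this
  -- the concatenation
  set P := T1 ++ w :: T with hPdef
  have hseg : segL P = segL L1 ++ segL L2 := by
    rw [hPdef, UNX.segL_append, ← hT1, ← hT]
  have hcommon : ∀ x, x ∈ W r1 → x ∈ W r2 → x = w := by
    intro x hx hx'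
    obtain ⟨k1, k2⟩ := hP.sep r1 h1 r2 h2 h12 x hx hx'
    rcases (e1 x).1 k1 with h | h
    · rcases (e2 x).1 k2 with h' | h'
      · exact h'
      · exact absurd (h.symm.trans h') hab
    · exact h
  have hPn : P.Nodup := by
    rw [hPdef, List.nodup_append]
    have nd1' : T1.Nodup := by
      rw [hT1] at nd1
      exact (List.nodup_append.1 nd1).1
    refine ⟨nd1', by rw [← hT]; exact nd2, ?_⟩
    intro x hx y hy hxy
    subst hxy
    have g1 : x ∈ W r1 := (m1 x).1 (by rw [hT1]; simp [hx])
    have g2 : x ∈ W r2 := (m2 x).1 (by rw [hT]; exact hy)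
    have g3 := hcommon x g1 g2
    subst g3
    rw [hT1] at nd1
    exact (List.nodup_append.1 nd1).2.2 x hx x (by simp) rfl
  obtain ⟨m, hm⟩ : ∃ m, P.length = m + 1 := ⟨P.length - 1, by
    have : P.length = T1.length + (T.length + 1) := by rw [hPdef]; simp
    omega⟩
  set p : ℕ → ℂ := fun i => P.getD i 0 with hp
  have hPr : P = (List.range (m + 1)).map p := by
    apply List.ext_getElem
    · simp [hm]
    · intro i h3 h4
      simp [hp, List.getD_eq_getElem?_getD, h3]
  have hmem : ∀ i ≤ m, p i ∈ P := by
    intro i hi
    rw [hPr]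
    exact List.mem_map.2 ⟨i, List.mem_range.2 (by omega), rfl⟩
  have hmem' : ∀ x, x ∈ P → x ∈ W r1 ∨ x ∈ W r2 := by
    intro x hx
    rw [hPdef, List.mem_append] at hx
    rcases hx with hx | hx
    · exact Or.inl ((m1 x).1 (by rw [hT1]; simp [hx]))
    · exact Or.inr ((m2 x).1 (by rw [hT]; exact hx))
  have H1 : ∀ i ≤ m, ∀ j ≤ m, p i = p j → i = j := by
    intro i hi j hj hij
    have hi' : i < P.length := by omega
    have hj' : j < P.length := by omega
    simp only [hp, List.getD_eq_getElem?_getD, List.getElem?_eq_getElem hi',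
      List.getElem?_eq_getElem hj', Option.getD_some] at hij
    exact (List.Nodup.getElem_inj_iff hPn).1 hij
  have hsegi : ∀ i < m, s(p i, p (i + 1)) ∈ segL P := by
    intro i hi
    rw [hPr, segL_range]
    exact List.mem_map.2 ⟨i, List.mem_range.2 hi, rfl⟩
  have hsegi' : ∀ s ∈ segL P, ∃ i < m, s = s(p i, p (i + 1)) := by
    intro s hs
    rw [hPr, segL_range] at hs
    obtain ⟨i, hi, rfl⟩ := List.mem_map.1 hs
    exact ⟨i, List.mem_range.1 hi, rfl⟩
  have hsegW : ∀ s ∈ segL P, s ∈ segL (W r1) ∨ s ∈ segL (W r2) := by
    intro s hs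
    rw [hseg, List.mem_append] at hs
    rcases hs with hs | hs
    · exact Or.inl ((s1 s).1 hs)
    · exact Or.inr ((s2 s).1 hs)
  have hnoX : ∀ s ∈ segL P, ∀ t ∈ segL P, ¬ Xs s t := by
    intro s hs t ht
    rcases hsegW s hs with hs | hs <;> rcases hsegW t ht with ht | ht
    · exact no_Xs n11 hs ht
    · exact no_Xs n12 hs ht
    · intro hX
      exact no_Xs n12 ht hs (UNX.Xs_symm hX)
    · exact no_Xs n22 hs ht
  have H2 : ∀ i < m, ∀ l < m, i + 2 ≤ l →
      Disjoint (segment ℝ (p i) (p (i + 1))) (segment ℝ (p l) (p (l + 1))) := by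
    intro i hi l hl hil
    rw [Set.disjoint_iff_inter_eq_empty]
    by_contra hne
    apply hnoX _ (hsegi i hi) _ (hsegi l hl)
    refine ⟨?_, ?_⟩
    · intro q hq hq'
      rw [Sym2.mem_iff] at hq hq'
      rcases hq with rfl | rfl <;> rcases hq' with h | h
      · have := H1 i (by omega) l (by omega) h; omega
      · have := H1 i (by omega) (l + 1) (by omega) h; omega
      · have := H1 (i + 1) (by omega) l (by omega) h; omega
      · have := H1 (i + 1) (by omega) (l + 1) (by omega) h; omega
    · rw [UNX.sg_mk, UNX.sg_mk]
      exact Set.nonempty_iff_ne_empty.2 hne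
  have hPO : ∀ s ∈ segL P, ∀ q ∈ P, q ∈ sg s → q ∈ s := by
    intro s hs q hq
    rcases hsegW s hs with hs | hs <;> rcases hmem' q hq with hq | hq
    · exact hO r1 h1 r1 h1 s hs q hq
    · exact hO r1 h1 r2 h2 s hs q hq
    · exact hO r2 h2 r1 h1 s hs q hq
    · exact hO r2 h2 r2 h2 s hs q hq
  have H3 : ∀ i, i + 2 ≤ m → p (i + 2) ∉ segment ℝ (p i) (p (i + 1)) ∧
      p i ∉ segment ℝ (p (i + 1)) (p (i + 2)) := by
    intro i hi
    constructor
    · intro h
      have := hPO _ (hsegi i (by omega)) _ (hmem (i + 2) hi) (by rw [UNX.sg_mk]; exact h)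
      rw [Sym2.mem_iff] at this
      rcases this with h | h
      · have := H1 (i + 2) (by omega) i (by omega) h; omega
      · have := H1 (i + 2) (by omega) (i + 1) (by omega) h; omega
    · intro h
      have := hPO _ (hsegi (i + 1) (by omega)) _ (hmem i (by omega)) (by rw [UNX.sg_mk]; exact h)
      rw [Sym2.mem_iff] at this
      rcases this with h | h
      · have := H1 i (by omega) (i + 1) (by omega) h; omega
      · have := H1 i (by omega) (i + 1 + 1) (by omega) h; omega
  -- apply the geometric lemma
  set Q : Finset ℂ := A.biUnion (fun j => (W j).toFinset) with hQ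
  obtain ⟨q, q0, qm, qinj, qQ, qS, qX⟩ := gl p m Q (Q ×ˢ Q) H1 H2 H3
  have memQ : ∀ j ∈ A, ∀ x ∈ W j, x ∈ Q := by
    intro j hj x hx
    rw [hQ, Finset.mem_biUnion]
    exact ⟨j, hj, List.mem_toFinset.2 hx⟩
  have hp0 : p 0 = a := by
    have : P.head? = some a := by
      rw [hPdef]
      rw [hT1] at ha1
      cases T1 with
      | nil => simp only [List.nil_append, List.head?_cons, Option.some.injEq] at ha1 ⊢; exact ha1
      | cons c T1 => simpa using ha1
    rw [hPr, List.range_succ_eq_map, List.map_cons, List.head?_cons, Option.some.injEq] at this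
    exact this
  have hpm : p m = b := by
    have : P.getLast? = some b := by
      rw [hPdef]
      rw [hT] at hb2
      rw [List.getLast?_append_of_ne_nil _ (List.cons_ne_nil _ _)]
      exact hb2
    rw [hPr, List.range_succ, List.map_append, List.map_cons, List.map_nil] at this
    simpa using this
  have hm0 : 0 < m := by
    have : P.length = T1.length + (T.length + 1) := by rw [hPdef]; simp
    have h4 : L2.length = T.length + 1 := by rw [hT]; simp
    omega
  refine ⟨(List.range (m + 1)).map q, ?_, ?_, ?_, ?_, ?_, ?_⟩
  · simp; omega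
  · refine List.Nodup.map_on ?_ List.nodup_range
    intro i hi j hj hij
    exact qinj i (by have := List.mem_range.1 hi; omega) j (by have := List.mem_range.1 hj; omega)
      hij
  · rw [List.range_succ_eq_map, List.map_cons, List.head?_cons, q0, hp0]
  · rw [List.range_succ, List.map_append, List.map_cons, List.map_nil]
    simp [qm, hpm]
  · intro j hj x hx hxj
    obtain ⟨i, hi, rfl⟩ := List.mem_map.1 hx
    rw [List.mem_range] at hi
    have hi' : i = 0 ∨ i = m := by
      by_contra hc
      push Not at hc
      exact qQ i (by omega) (by omega) (memQ j hj _ hxj)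
    rcases hi' with rfl | rfl
    · rw [q0, hp0] at hxj ⊢
      refine ⟨?_, ?_⟩
      · left
        rw [List.range_succ_eq_map, List.map_cons, List.head?_cons, q0, hp0]
      · by_cases hjr : j = r1
        · subst hjr; exact (e1 a).2 (Or.inl rfl)
        · have : a ∈ W r1 := (m1 a).1 (List.mem_of_head? ha1)
          exact (hP.sep r1 h1 j hj (Ne.symm hjr) a this hxj).2
    · rw [qm, hpm] at hxj ⊢
      refine ⟨?_, ?_⟩
      · right
        rw [List.range_succ, List.map_append, List.map_cons, List.map_nil]
        simp [qm, hpm]
      · by_cases hjr : j = r2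
        · subst hjr; exact (e2 b).2 (Or.inr rfl)
        · have : b ∈ W r2 := (m2 b).1 (List.mem_of_getLast? hb2)
          exact (hP.sep r2 h2 j hj (Ne.symm hjr) b this hxj).2
  · intro j hj
    split_ifs with hjr hwj
    · -- no crossings with the two polylines
      apply le_of_eq
      apply Nx_zero
      intro s hs t ht
      rw [segL_range] at hs
      obtain ⟨i, hi, rfl⟩ := List.mem_map.1 hs
      rw [List.mem_range] at hi
      have ht' : t ∈ segL P := by
        rw [hseg, List.mem_append]
        rcases hjr with rfl | rfl
        · exact Or.inl ((s1 t).2 ht)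
        · exact Or.inr ((s2 t).2 ht)
      obtain ⟨l, hl, rfl⟩ := hsegi' t ht'
      exact qX i hi l hl
    all_goals
      have hjr1 : j ≠ r1 := fun h => hjr (Or.inl h)
      have hjr2 : j ≠ r2 := fun h => hjr (Or.inr h)
      have hPx : Nx (W r1) (W j) + Nx (W r2) (W j) =
          ∑ i ∈ Finset.range m, NS s(p i, p (i + 1)) (W j) := by
        rw [← Nx_range, ← hPr, UNX.Nx_eq P, hseg, UNX.cc_append_left, ← UNX.Nx_eq, ← UNX.Nx_eq]
        congr 1
        · rcases hL1 with h | h
          · rw [h]
          · rw [h, Nx_rev_left]
        · rcases hL2 with h | h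
          · rw [h]
          · rw [h, Nx_rev_left]
      rw [Nx_range, hPx]
      have hend : w ∈ W j → En (W j) w := by
        intro h
        have : w ∈ W r1 := (m1 w).1 (List.mem_of_getLast? hw1)
        exact (hP.sep r1 h1 j hj (Ne.symm hjr1) w this h).2
      have hcnt := cnt_end (hP.nd j hj) hend
      have hterm : ∀ i ∈ Finset.range m, NS s(q i, q (i + 1)) (W j) ≤
          NS s(p i, p (i + 1)) (W j) +
            if (p i = w ∨ p (i + 1) = w) then (if w ∈ W j then 1 else 0) else 0 := by
        intro i hi
        rw [Finset.mem_range] at hi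
        have hX : ∀ t ∈ segL (W j), Xs s(q i, q (i + 1)) t →
            Xs s(p i, p (i + 1)) t ∨ ((p i = w ∨ p (i + 1) = w) ∧ w ∈ t) := by
          intro t ht hXt
          obtain ⟨l₁, c, d, l₂, hl, rfl⟩ := UNX.mem_segL ht
          have hcQ : c ∈ Q := memQ j hj c (by rw [hl]; simp)
          have hdQ : d ∈ Q := memQ j hj d (by rw [hl]; simp)
          have hcW : c ∈ W j := by rw [hl]; simp
          have hdW : d ∈ W j := by rw [hl]; simp
          by_cases hsh : ∃ x, x ∈ s(p i, p (i + 1)) ∧ x ∈ s(c, d)
          · right
            obtain ⟨x, hx1, hx2⟩ := hsh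
            have hxW : x ∈ W j := by
              rw [Sym2.mem_iff] at hx2
              rcases hx2 with rfl | rfl <;> assumption
            have hxP : x ∈ P := by
              rw [Sym2.mem_iff] at hx1
              rcases hx1 with rfl | rfl
              · exact hmem i (by omega)
              · exact hmem (i + 1) (by omega)
            have hx3 : x = a ∨ x = w ∨ x = b := by
              rcases hmem' x hxP with h | h
              · rcases (e1 x).1 (hP.sep r1 h1 j hj (Ne.symm hjr1) x h hxW).1 with h' | h'
                · exact Or.inl h'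
                · exact Or.inr (Or.inl h')
              · rcases (e2 x).1 (hP.sep r2 h2 j hj (Ne.symm hjr2) x h hxW).1 with h' | h'
                · exact Or.inr (Or.inl h')
                · exact Or.inr (Or.inr h')
            rw [Sym2.mem_iff] at hx1
            rcases hx3 with hx3 | hx3 | hx3
            · exfalso
              have hi0 : i = 0 := by
                rcases hx1 with h | h
                · exact H1 i (by omega) 0 (by omega) (by rw [← h, hx3, hp0])
                · have := H1 (i + 1) (by omega) 0 (by omega) (by rw [← h, hx3, hp0])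
                  omega
              apply hXt.1 x _ hx2
              rw [hi0, q0, hp0, hx3]
              simp
            · subst hx3
              refine ⟨?_, hx2⟩
              rcases hx1 with h | h
              · exact Or.inl h.symm
              · exact Or.inr h.symm
            · exfalso
              have hi0 : i + 1 = m := by
                rcases hx1 with h | h
                · have := H1 i (by omega) m (by omega) (by rw [← h, hx3, hpm])
                  omega
                · exact H1 (i + 1) (by omega) m (by omega) (by rw [← h, hx3, hpm])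
              apply hXt.1 x _ hx2
              rw [hi0, qm, hpm, hx3]
              simp
          · left
            refine ⟨fun x hx hx' => hsh ⟨x, hx, hx'⟩, ?_⟩
            rw [UNX.sg_mk, UNX.sg_mk]
            by_contra hne
            rw [Set.not_nonempty_iff_eq_empty, ← Set.disjoint_iff_inter_eq_empty] at hne
            have h5 := qS i hi (c, d) (Finset.mem_product.2 ⟨hcQ, hdQ⟩) hne
            have h6 := hXt.2
            rw [UNX.sg_mk, UNX.sg_mk] at h6
            exact (Set.not_disjoint_iff_nonempty_inter.2 h6) h5
        unfold NS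
        have h7 : (segL (W j)).countP (fun t => decide (Xs s(q i, q (i + 1)) t)) ≤
            (segL (W j)).countP (fun t => decide (Xs s(p i, p (i + 1)) t) ||
              decide ((p i = w ∨ p (i + 1) = w) ∧ w ∈ t)) := by
          apply List.countP_mono_left
          intro t ht h8
          have := hX t ht (by simpa using h8)
          simpa using this
        refine h7.trans ?_
        have h8 : ∀ (L : List (Sym2 ℂ)) (f g : Sym2 ℂ → Bool),
            L.countP (fun t => f t || g t) ≤ L.countP f + L.countP g := by
          intro L f g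
          induction L with
          | nil => simp
          | cons t L ih =>
            rw [List.countP_cons, List.countP_cons, List.countP_cons]
            cases f t <;> cases g t <;> simp <;> omega
        refine (h8 _ _ _).trans ?_
        apply Nat.add_le_add_left
        by_cases h9 : p i = w ∨ p (i + 1) = w
        · rw [if_pos h9]
          refine le_trans ?_ hcnt
          apply List.countP_mono_left
          intro t _ h11
          have : (p i = w ∨ p (i + 1) = w) ∧ w ∈ t := by simpa using h11
          simpa using this.2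
        · rw [if_neg h9]
          apply le_of_eq
          rw [List.countP_eq_zero]
          intro t _ h11
          have : (p i = w ∨ p (i + 1) = w) ∧ w ∈ t := by simpa using h11
          exact h9 this.1
      have hsum := Finset.sum_le_sum hterm
      rw [Finset.sum_add_distrib] at hsum
      refine hsum.trans ?_
    · rw [if_pos hwj]
      apply Nat.add_le_add_left
      rw [← Finset.sum_filter, Finset.sum_const, smul_eq_mul, mul_one]
      have hPw : w ∈ P := by rw [hPdef]; simp
      rw [hPr] at hPw
      obtain ⟨k, hk, hkw⟩ := List.mem_map.1 hPw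
      rw [List.mem_range] at hk
      refine (Finset.card_le_card (t := {k - 1, k}) ?_).trans Finset.card_le_two
      intro i hi
      rw [Finset.mem_filter, Finset.mem_range] at hi
      rw [Finset.mem_insert, Finset.mem_singleton]
      rcases hi.2 with h | h
      · right
        exact H1 i (by omega) k (by omega) (by rw [h, hkw])
      · left
        have := H1 (i + 1) (by omega) k (by omega) (by rw [h, hkw])
        omega
    · rw [if_neg hwj]
      simp

end Pool.Agent.H466.AL.Par
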