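import Pool.Agent.H466.AL.Avg
import Pool.Agent.H466.AL.Bip

set_option autoImplicit false

/-!
Replacing a part of `2t-1` vertices by a clique on `t` of its vertices.
-/

open Set Classical
open Pool.Agent.Helper770.Crossing Pool.Agent.NH90.CN

namespace Pool.Agent.H466.AL

variable {V : Type} [Fintype V]

/-- replacing `U` by a clique on `B` -/
def GB (G : SimpleGraph V) (U B : Finset V) : SimpleGraph V where
  Adj x y := x ≠ y ∧ (x ∈ B ∨ x ∉ U) ∧ (y ∈ B ∨ y ∉ U) ∧ (G.Adj x y ∨ (x ∈ B ∧ y ∈ B))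
  symm := ⟨fun x y h => ⟨h.1.symm, h.2.2.1, h.2.1,
    h.2.2.2.imp (fun h => h.symm) (fun h => ⟨h.2, h.1⟩)⟩⟩
  loopless := ⟨fun x h => h.1 rfl⟩

/-- the number of edges of `G'` that use `a` -/
noncomputable def ld (G G' : SimpleGraph V) (mid : Sym2 V → V) (a : Sym2 V) : ℕ :=
  ((eF G').filter (fun e => a ∈ pth G mid e)).card

theorem ld_sum (G G' : SimpleGraph V) (mid : Sym2 V → V) (F : Sym2 V → ℕ) :
    ∑ e ∈ eF G', ∑ a ∈ pth G mid e, F a = ∑ a, ld G G' mid a * F a := by
  have h1 : ∀ e, ∑ a ∈ pth G mid e, F a = ∑ a, if a ∈ pth G mid e then F a else 0 := by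
    intro e
    rw [Finset.sum_ite_mem, Finset.univ_inter]
  rw [Finset.sum_congr rfl fun e _ => h1 e, Finset.sum_comm]
  refine Finset.sum_congr rfl fun a _ => ?_
  rw [← Finset.sum_filter, Finset.sum_const, smul_eq_mul]
  rfl

theorem sum_cst {G : SimpleGraph V} (D : Drawing G) (G' : SimpleGraph V) (mid : Sym2 V → V) :
    ∑ e ∈ eF G', ∑ f ∈ (eF G').erase e, cst D mid e f ≤
      ∑ a, ∑ b, ld G G' mid a * ld G G' mid b * DX D a b +
        ∑ e ∈ eF G', ∑ f ∈ eF G', (if e = f then 0 else lcc G mid e f) := by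
  have h1 : ∑ e ∈ eF G', ∑ f ∈ (eF G').erase e, cst D mid e f ≤
      ∑ e ∈ eF G', ∑ f ∈ eF G', (∑ a ∈ pth G mid e, ∑ b ∈ pth G mid f, DX D a b) +
      ∑ e ∈ eF G', ∑ f ∈ eF G', (if e = f then 0 else lcc G mid e f) := by
    rw [← Finset.sum_add_distrib]
    refine Finset.sum_le_sum fun e he => ?_
    rw [← Finset.sum_add_distrib]
    calc ∑ f ∈ (eF G').erase e, cst D mid e f
        = ∑ f ∈ (eF G').erase e, ((∑ a ∈ pth G mid e, ∑ b ∈ pth G mid f, DX D a b) +
          (if e = f then 0 else lcc G mid e f)) := by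
          refine Finset.sum_congr rfl fun f hf => ?_
          rw [if_neg (Finset.mem_erase.1 hf).1.symm]
          rfl
      _ ≤ _ := Finset.sum_le_sum_of_subset (Finset.erase_subset _ _)
  refine h1.trans (Nat.add_le_add_right (le_of_eq ?_) _)
  calc ∑ e ∈ eF G', ∑ f ∈ eF G', (∑ a ∈ pth G mid e, ∑ b ∈ pth G mid f, DX D a b)
      = ∑ e ∈ eF G', ∑ a ∈ pth G mid e, ∑ f ∈ eF G', ∑ b ∈ pth G mid f, DX D a b :=
        Finset.sum_congr rfl fun e _ => Finset.sum_comm
    _ = ∑ a, ld G G' mid a * ∑ f ∈ eF G', ∑ b ∈ pth G mid f, DX D a b :=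
        ld_sum G G' mid (fun a => ∑ f ∈ eF G', ∑ b ∈ pth G mid f, DX D a b)
    _ = ∑ a, ld G G' mid a * ∑ b, ld G G' mid b * DX D a b :=
        Finset.sum_congr rfl fun a _ => by rw [ld_sum G G' mid (fun b => DX D a b)]
    _ = _ := by
        refine Finset.sum_congr rfl fun a _ => ?_
        rw [Finset.mul_sum]
        refine Finset.sum_congr rfl fun b _ => ?_
        ring

section loads

variable {G : SimpleGraph V} {U B : Finset V} (hB : B ⊆ U)
  (m : Sym2 V → {x // x ∉ U})

/-- the middle vertex -/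
def md {U : Finset V} (m : Sym2 V → {x // x ∉ U}) (e : Sym2 V) : V := (m e).1

include hB in
theorem mem_GB_not {e : Sym2 V} (he : e ∈ (GB G U B).edgeSet) (hG : e ∉ G.edgeSet) :
    ∀ v ∈ e, v ∈ B ∧ v ∈ U := by
  induction e with
  | _ x y =>
    have h : (GB G U B).Adj x y := he
    obtain ⟨h1, h2, h3, h4⟩ := h
    rcases h4 with h4 | h4
    · exact absurd h4 hG
    · intro v hv
      rcases Sym2.mem_iff.1 hv with rfl | rfl
      · exact ⟨h4.1, hB h4.1⟩
      · exact ⟨h4.2, hB h4.2⟩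

omit [Fintype V] in
theorem mem_pth {mid : Sym2 V → V} {a e : Sym2 V} (h : a ∈ pth G mid e) :
    (e ∈ G.edgeSet ∧ a = e) ∨ (e ∉ G.edgeSet ∧ ∃ v ∈ e, a = s(v, mid e)) := by
  unfold pth at h
  split_ifs at h with h1
  · exact Or.inl ⟨h1, Finset.mem_singleton.1 h⟩
  · rw [Finset.mem_image] at h
    obtain ⟨v, hv, hv'⟩ := h
    exact Or.inr ⟨h1, v, Sym2.mem_toFinset.1 hv, hv'.symm⟩

include hB in
theorem ld_out (a : Sym2 V) (ha : ∀ v ∈ a, v ∉ U) : ld G (GB G U B) (md m) a ≤ 1 := by
  unfold ld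
  rw [Finset.card_le_one]
  have key : ∀ e ∈ (eF (GB G U B)).filter (fun e => a ∈ pth G (md m) e), e = a := by
    intro e he
    rw [Finset.mem_filter, DEL.mem_eF] at he
    rcases mem_pth he.2 with h | ⟨h1, v, hv, hv'⟩
    · exact h.2.symm
    · exfalso
      have h2 := (mem_GB_not hB he.1 h1 v hv).2
      exact ha v (by rw [hv']; simp) h2
  intro e he e' he'
  rw [key e he, key e' he']

include hB in
theorem ld_in (a : Sym2 V) (u : V) (hua : u ∈ a) (huU : u ∈ U) (w : {x // x ∉ U})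
    (hw : ∀ v ∈ a, v ∉ U → v = w.1) :
    (ld G (GB G U B) (md m) a : ℝ) ≤ Lam G B m u w := by
  have hsub : (eF (GB G U B)).filter (fun e => a ∈ pth G (md m) e) ⊆
      (({a} : Finset (Sym2 V)).filter (fun _ => u ∈ B)) ∪
      ((nb G u).filter (fun z => u ∈ B ∧ z ∈ B ∧ m s(u, z) = w)).image (fun z => s(u, z)) := by
    intro e he
    rw [Finset.mem_filter, DEL.mem_eF] at he
    rw [Finset.mem_union]
    rcases mem_pth he.2 with h | ⟨h1, v, hv, hv'⟩
    · left
      rw [Finset.mem_filter, Finset.mem_singleton]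
      refine ⟨h.2.symm, ?_⟩
      obtain ⟨h3, h4⟩ := h
      rw [← h4] at he
      obtain ⟨v, hv⟩ := hua
      subst hv
      have h5 : (GB G U B).Adj u v := he.1
      rcases h5.2.1 with h6 | h6
      · exact h6
      · exact absurd huU h6
    · right
      have hme : md m e ∉ U := (m e).2
      have huv : u = v := by
        rw [hv', Sym2.mem_iff] at hua
        rcases hua with h | h
        · exact h
        · exact absurd huU (by rw [h]; exact hme)
      subst huv
      have hmw : m e = w := Subtype.ext (hw (md m e) (by rw [hv']; simp) hme)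
      obtain ⟨z, rfl⟩ := hv
      have h5 : (GB G U B).Adj u z := he.1
      have h6 := mem_GB_not hB he.1 h1
      rw [Finset.mem_image]
      refine ⟨z, ?_, rfl⟩
      rw [Finset.mem_filter, mem_nb]
      exact ⟨⟨h5.1.symm, h1⟩, (h6 u (by simp)).1, (h6 z (by simp)).1, hmw⟩
  have h1 := Finset.card_le_card hsub
  have h2 := h1.trans (Finset.card_union_le _ _)
  have h3 := h2.trans (Nat.add_le_add_left Finset.card_image_le _)
  unfold ld Lam
  rw [sum_ind]
  have h4 : ((({a} : Finset (Sym2 V)).filter (fun _ => u ∈ B)).card : ℝ) = ind (u ∈ B) := by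
    unfold ind
    by_cases h : u ∈ B
    · rw [if_pos h, Finset.filter_true_of_mem (fun _ _ => h)]; simp
    · rw [if_neg h, Finset.filter_false_of_mem (fun _ _ => h)]; simp
  rw [← h4]
  have h5 : ((((eF (GB G U B)).filter (fun e => a ∈ pth G (md m) e)).card : ℕ) : ℝ) ≤
      (((({a} : Finset (Sym2 V)).filter (fun _ => u ∈ B)).card +
      ((nb G u).filter (fun z => u ∈ B ∧ z ∈ B ∧ m s(u, z) = w)).card : ℕ) : ℝ) := by
    exact_mod_cast h3
  refine h5.trans (le_of_eq ?_)
  push_cast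
  congr

end loads

section local_cost

variable (G : SimpleGraph V) {U B : Finset V} (hB : B ⊆ U) (m : Sym2 V → {x // x ∉ U})

/-- the added pairs -/
noncomputable def Qp (G : SimpleGraph V) (U B : Finset V) : Finset (Sym2 V) :=
  (eF (GB G U B)).filter (fun e => e ∉ G.edgeSet)

theorem deg_le (G' : SimpleGraph V) (w : V) :
    ((eF G').filter (fun f => w ∈ f)).card ≤ Fintype.card V := by
  have : (eF G').filter (fun f => w ∈ f) ⊆ Finset.univ.image (fun v => s(w, v)) := by
    intro f hf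
    obtain ⟨v, hv⟩ := (Finset.mem_filter.1 hf).2
    exact Finset.mem_image.2 ⟨v, Finset.mem_univ _, hv.symm⟩
  exact (Finset.card_le_card this).trans (Finset.card_image_le.trans (le_of_eq Finset.card_univ))

include hB in
theorem Qp_card : (Qp G U B).card ≤ (B.card + 1).choose 2 := by
  rw [← Finset.card_sym2]
  refine Finset.card_le_card ?_
  intro e he
  unfold Qp at he
  rw [Finset.mem_filter, DEL.mem_eF] at he
  rw [Finset.mem_sym2_iff]
  intro v hv
  exact (mem_GB_not hB he.1 he.2 v hv).1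

theorem lcc_sum (q : ℕ) (hq : (Qp G U B).card ≤ q) :
    ((∑ e ∈ eF (GB G U B), ∑ f ∈ eF (GB G U B),
      (if e = f then 0 else lcc G (md m) e f) : ℕ) : ℝ) ≤
      4 * q * Fintype.card V + 4 * ∑ e ∈ Qp G U B, ∑ f ∈ (Qp G U B).erase e,
        ind (m e = m f) := by
  have h1 : ∀ e ∈ eF (GB G U B), ∀ f ∈ eF (GB G U B),
      (if e = f then 0 else lcc G (md m) e f) ≤
      (if e ∉ G.edgeSet then (if md m e ∈ f then 2 else 0) else 0) +
      (if f ∉ G.edgeSet then (if md m f ∈ e then 2 else 0) else 0) +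
      (if e ∉ G.edgeSet then (if f ∉ G.edgeSet then (if e ≠ f ∧ m e = m f then 4 else 0)
        else 0) else 0) := by
    intro e _ f _
    by_cases hef : e = f
    · rw [if_pos hef]; exact Nat.zero_le _
    · rw [if_neg hef]
      unfold lcc
      have : (md m e = md m f) ↔ (m e = m f) := ⟨fun h => Subtype.ext h, fun h => by
        unfold md; rw [h]⟩
      rw [this]
      by_cases h1 : e ∉ G.edgeSet <;> by_cases h2 : f ∉ G.edgeSet <;>
        simp [h1, h2, hef]
  have h2 : ∑ e ∈ eF (GB G U B), ∑ f ∈ eF (GB G U B),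
      (if e = f then 0 else lcc G (md m) e f) ≤
      ∑ e ∈ Qp G U B, ∑ f ∈ eF (GB G U B), (if md m e ∈ f then 2 else 0) +
      ∑ f ∈ Qp G U B, ∑ e ∈ eF (GB G U B), (if md m f ∈ e then 2 else 0) +
      ∑ e ∈ Qp G U B, ∑ f ∈ Qp G U B, (if e ≠ f ∧ m e = m f then 4 else 0) := by
    refine (Finset.sum_le_sum fun e he => Finset.sum_le_sum fun f hf => h1 e he f hf).trans
      (le_of_eq ?_)
    simp only [Finset.sum_add_distrib]
    congr 1
    · congr 1
      · unfold Qp
        rw [Finset.sum_filter]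
        refine Finset.sum_congr rfl fun e _ => ?_
        split_ifs
        · simp
        · rfl
      · rw [Finset.sum_comm]
        unfold Qp
        rw [Finset.sum_filter]
        refine Finset.sum_congr rfl fun e _ => ?_
        split_ifs
        · simp
        · rfl
    · unfold Qp
      rw [Finset.sum_filter]
      refine Finset.sum_congr rfl fun e _ => ?_
      split_ifs
      · simp
      · rw [Finset.sum_filter]
  have h3 : ∀ e, ∑ f ∈ eF (GB G U B), (if md m e ∈ f then 2 else 0) ≤ 2 * Fintype.card V := by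
    intro e
    rw [← Finset.sum_filter, Finset.sum_const, smul_eq_mul, mul_comm]
    exact Nat.mul_le_mul_left 2 (deg_le _ _)
  have h4 : ∑ e ∈ Qp G U B, ∑ f ∈ eF (GB G U B), (if md m e ∈ f then 2 else 0) ≤
      q * (2 * Fintype.card V) := by
    refine (Finset.sum_le_card_nsmul _ _ _ fun e _ => h3 e).trans ?_
    rw [smul_eq_mul]
    exact Nat.mul_le_mul_right _ hq
  have h5 : ((∑ e ∈ Qp G U B, ∑ f ∈ Qp G U B, (if e ≠ f ∧ m e = m f then 4 else 0) : ℕ) : ℝ) =
      4 * ∑ e ∈ Qp G U B, ∑ f ∈ (Qp G U B).erase e, ind (m e = m f) := by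
    push_cast
    rw [Finset.mul_sum]
    refine Finset.sum_congr rfl fun e he => ?_
    rw [← Finset.add_sum_erase _ _ he, Finset.mul_sum]
    have : (if e ≠ e ∧ m e = m e then (4 : ℝ) else 0) = 0 := by simp
    rw [this, zero_add]
    refine Finset.sum_congr rfl fun f hf => ?_
    have hne := (Finset.mem_erase.1 hf).1.symm
    unfold ind
    by_cases h : m e = m f
    · rw [if_pos ⟨hne, h⟩, if_pos h]; norm_num
    · rw [if_neg (fun h' => h h'.2), if_neg h]; norm_num
  have h6 : ((∑ e ∈ eF (GB G U B), ∑ f ∈ eF (GB G U B),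
      (if e = f then 0 else lcc G (md m) e f) : ℕ) : ℝ) ≤
      ((q * (2 * Fintype.card V) + q * (2 * Fintype.card V) : ℕ) : ℝ) +
      ((∑ e ∈ Qp G U B, ∑ f ∈ Qp G U B, (if e ≠ f ∧ m e = m f then 4 else 0) : ℕ) : ℝ) := by
    exact_mod_cast h2.trans (Nat.add_le_add_right (Nat.add_le_add h4 h4) _)
  rw [h5] at h6
  refine h6.trans (le_of_eq ?_)
  push_cast
  ring

end local_cost

end Pool.Agent.H466.AL
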