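import Pool.Agent.H466.AL.Rep2

set_option autoImplicit false

/-!
Replacing a part of `2t-1` vertices by a clique on `t` of its vertices: conclusion.
-/

open Set Classical
open Pool.Agent.Helper770.Crossing Pool.Agent.NH90.CN

namespace Pool.Agent.H466.AL

variable {V : Type} [Fintype V]

theorem loc_bd (G : SimpleGraph V) (U : Finset V) (t : ℕ) (r : ℝ)
    (hr : r = Fintype.card {x // x ∉ U}) (hr0 : 0 < r) (N Mt : ℝ)
    (hN : N = ((U.card.choose t : ℕ) : ℝ))
    (hMt : Mt = (Fintype.card (Sym2 V → {x // x ∉ U}) : ℝ)) (q : ℕ)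
    (hq : q = (t + 1).choose 2) :
    ∑ B ∈ Finset.powersetCard t U, ∑ m : Sym2 V → {x // x ∉ U},
      ((∑ e ∈ eF (GB G U B), ∑ f ∈ eF (GB G U B),
      (if e = f then 0 else lcc G (md m) e f) : ℕ) : ℝ) ≤
      N * Mt * (4 * q * Fintype.card V + 4 * ((q : ℝ) ^ 2 / r)) := by
  have hMn : 0 ≤ Mt := by rw [hMt]; positivity
  have key : ∀ B ∈ Finset.powersetCard t U, ∑ m : Sym2 V → {x // x ∉ U},
      ((∑ e ∈ eF (GB G U B), ∑ f ∈ eF (GB G U B),
      (if e = f then 0 else lcc G (md m) e f) : ℕ) : ℝ) ≤
      Mt * (4 * q * Fintype.card V + 4 * ((q : ℝ) ^ 2 / r)) := by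
    intro B hB
    obtain ⟨hBU, hBt⟩ := Finset.mem_powersetCard.1 hB
    have hqB : (Qp G U B).card ≤ q := by
      rw [hq, ← hBt]
      exact Qp_card G hBU
    have h1 : ∑ m : Sym2 V → {x // x ∉ U},
      ((∑ e ∈ eF (GB G U B), ∑ f ∈ eF (GB G U B),
      (if e = f then 0 else lcc G (md m) e f) : ℕ) : ℝ) ≤
      ∑ m : Sym2 V → {x // x ∉ U}, (4 * q * Fintype.card V + 4 * ∑ e ∈ Qp G U B,
        ∑ f ∈ (Qp G U B).erase e, ind (m e = m f)) :=
      Finset.sum_le_sum fun m _ => lcc_sum G m q hqB
    refine h1.trans ?_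
    rw [Finset.sum_add_distrib, Finset.sum_const, nsmul_eq_mul, Finset.card_univ, ← hMt, mul_add]
    refine add_le_add le_rfl ?_
    rw [← Finset.mul_sum]
    have h2 : ∑ m : Sym2 V → {x // x ∉ U}, ∑ e ∈ Qp G U B,
        ∑ f ∈ (Qp G U B).erase e, ind (m e = m f) ≤ (q : ℝ) * (q * (Mt / r)) := by
      rw [Finset.sum_comm]
      have h3 : ∀ e ∈ Qp G U B, ∑ m : Sym2 V → {x // x ∉ U},
          ∑ f ∈ (Qp G U B).erase e, ind (m e = m f) ≤ q * (Mt / r) := by
        intro e he
        rw [Finset.sum_comm]
        have h4 : ∀ f ∈ (Qp G U B).erase e, ∑ m : Sym2 V → {x // x ∉ U}, ind (m e = m f) ≤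
            Mt / r := by
          intro f hf
          rw [le_div_iff₀ hr0, hr, hMt]
          have h5 := mcnt3 (ι := Sym2 V) (κ := {x // x ∉ U}) (Finset.mem_erase.1 hf).1.symm
          have h7 : ∑ m : Sym2 V → {x // x ∉ U}, ind (m e = m f) = ((Finset.univ.filter
              (fun m : Sym2 V → {x // x ∉ U} => m e = m f)).card : ℝ) := by
            rw [sum_ind]
            congr
          have h8 : ((Finset.univ.filter
              (fun m : Sym2 V → {x // x ∉ U} => m e = m f)).card : ℝ) *
              Fintype.card {x // x ∉ U} ≤ Fintype.card (Sym2 V → {x // x ∉ U}) := by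
            refine le_trans (le_of_eq ?_) (Nat.cast_le.2 h5)
            push_cast
            congr
          rw [h7]
          exact h8
        refine (Finset.sum_le_card_nsmul _ _ _ h4).trans ?_
        rw [nsmul_eq_mul]
        refine mul_le_mul_of_nonneg_right ?_ (by positivity)
        exact_mod_cast (Finset.card_erase_le.trans hqB)
      refine (Finset.sum_le_card_nsmul _ _ _ h3).trans ?_
      rw [nsmul_eq_mul]
      refine mul_le_mul_of_nonneg_right ?_ (by positivity)
      exact_mod_cast hqB
    calc 4 * ∑ m : Sym2 V → {x // x ∉ U}, ∑ e ∈ Qp G U B,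
        ∑ f ∈ (Qp G U B).erase e, ind (m e = m f) ≤ 4 * ((q : ℝ) * (q * (Mt / r))) :=
          mul_le_mul_of_nonneg_left h2 (by norm_num)
      _ = Mt * (4 * ((q : ℝ) ^ 2 / r)) := by ring
  refine (Finset.sum_le_card_nsmul _ _ _ key).trans (le_of_eq ?_)
  rw [nsmul_eq_mul, Finset.card_powersetCard, ← hN]
  ring

/-- **Replacement.** -/
theorem rep (G : SimpleGraph V) (hG : A2 G) (U : Finset V) (t : ℕ) (ht : 2 ≤ t)
    (hU : U.card + 1 = 2 * t) (hj : ∀ x ∈ U, ∀ y ∉ U, G.Adj x y)
    (h1 : 127 * U.card ≤ 100 * Fintype.card V) (h2 : 1000000 ≤ Fintype.card V) :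
    ∃ B ⊆ U, B.card = t ∧ crossingNumber (GB G U B) ≤ crossingNumber G := by
  have hnb : ∀ u ∈ U, nb G u ⊆ U := by
    intro u hu z hz
    by_contra hzU
    exact (mem_nb.1 hz).2 (hj u hu z hzU)
  by_cases hd : ∃ u ∈ U, t ≤ (nb G u).card
  · obtain ⟨u, hu, hut⟩ := hd
    obtain ⟨B, hB, hBt⟩ := Finset.exists_subset_card_eq hut
    refine ⟨B, hB.trans (hnb u hu), hBt, ?_⟩
    refine cr_mono (G := G) (Function.Embedding.refl V) _ ?_
    intro x y hxy
    obtain ⟨k1, k2, k3, k4⟩ := hxy
    rcases k4 with k4 | k4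
    · exact k4
    · exact nb_clique hG u x (hB k4.1) y (hB k4.2) k1
  · have hD : ∀ u ∈ U, (nb G u).card < t := by
      intro u hu
      by_contra h
      exact hd ⟨u, hu, not_lt.1 h⟩
    obtain ⟨r, hr⟩ : ∃ r : ℝ, r = Fintype.card {x // x ∉ U} := ⟨_, rfl⟩
    obtain ⟨N, hN⟩ : ∃ N : ℝ, N = ((U.card.choose t : ℕ) : ℝ) := ⟨_, rfl⟩
    obtain ⟨Mt, hMt⟩ : ∃ Mt : ℝ, Mt = (Fintype.card (Sym2 V → {x // x ∉ U}) : ℝ) := ⟨_, rfl⟩
    have hcc : Fintype.card {x // x ∉ U} + U.card = Fintype.card V := by
      rw [kcard, Finset.card_compl]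
      have := Finset.card_le_univ U
      omega
    have htr : (2 : ℝ) ≤ t := by exact_mod_cast ht
    have hUr : (U.card : ℝ) = 2 * t - 1 := by
      have : (U.card : ℝ) + 1 = 2 * t := by exact_mod_cast hU
      linarith
    have hn : (Fintype.card V : ℝ) = r + (2 * t - 1) := by
      rw [hr, ← hUr]; exact_mod_cast hcc.symm
    have h1r : (127 : ℝ) * U.card ≤ 100 * Fintype.card V := by exact_mod_cast h1
    have h2r : (1000000 : ℝ) ≤ Fintype.card V := by exact_mod_cast h2
    have hr1 : 27 * (2 * (t : ℝ) - 1) ≤ 100 * r := by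
      rw [hUr, hn] at h1r; linarith
    have hr2 : 200000 ≤ r := by
      rw [hUr] at h1r
      rw [hn] at h1r h2r
      linarith
    have hr0 : 0 < r := by linarith
    have hMpos : 0 < Mt := by
      rw [hMt]
      have hκ1 : 0 < Fintype.card {x // x ∉ U} := by
        have : (0 : ℝ) < Fintype.card {x // x ∉ U} := by rw [← hr]; linarith
        exact_mod_cast this
      haveI : Nonempty {x // x ∉ U} := Fintype.card_pos_iff.1 hκ1
      exact_mod_cast Fintype.card_pos
    have hNn : 0 ≤ N := by rw [hN]; positivity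
    have hNM : 0 ≤ N * Mt := mul_nonneg hNn hMpos.le
    obtain ⟨D, hfin, hgood, hcr⟩ := exists_good G
    -- the deterministic bound
    have det : ∀ B ∈ Finset.powersetCard t U, ∀ m : Sym2 V → {x // x ∉ U},
        2 * (crossingNumber (GB G U B) : ℝ) ≤
        ∑ a, ∑ b, (ld G (GB G U B) (md m) a : ℝ) * ld G (GB G U B) (md m) b * DX D a b +
        ((∑ e ∈ eF (GB G U B), ∑ f ∈ eF (GB G U B),
          (if e = f then 0 else lcc G (md m) e f) : ℕ) : ℝ) := by
      intro B hB m
      have hBU := (Finset.mem_powersetCard.1 hB).1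
      have k1 := reroute D (md m) hfin hgood (GB G U B) (by
        intro e he heG v hv
        rw [DEL.mem_eF] at he
        exact hj v (mem_GB_not hBU he heG v hv).2 _ (m e).2)
      have k2 := k1.trans (sum_cst D (GB G U B) (md m))
      exact_mod_cast k2
    have tot : ∑ B ∈ Finset.powersetCard t U, ∑ _m : Sym2 V → {x // x ∉ U},
        2 * (crossingNumber (GB G U B) : ℝ) ≤
        ∑ a, ∑ b, (∑ B ∈ Finset.powersetCard t U, ∑ m : Sym2 V → {x // x ∉ U},
          ((ld G (GB G U B) (md m) a : ℝ) * ld G (GB G U B) (md m) b)) * DX D a b +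
        ∑ B ∈ Finset.powersetCard t U, ∑ m : Sym2 V → {x // x ∉ U},
          ((∑ e ∈ eF (GB G U B), ∑ f ∈ eF (GB G U B),
          (if e = f then 0 else lcc G (md m) e f) : ℕ) : ℝ) := by
      refine (Finset.sum_le_sum fun B hB => Finset.sum_le_sum fun m _ => det B hB m).trans
        (le_of_eq ?_)
      simp only [Finset.sum_add_distrib]
      congr 1
      calc ∑ B ∈ Finset.powersetCard t U, ∑ m : Sym2 V → {x // x ∉ U}, ∑ a, ∑ b,
            (ld G (GB G U B) (md m) a : ℝ) * ld G (GB G U B) (md m) b * DX D a b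
          = ∑ B ∈ Finset.powersetCard t U, ∑ a, ∑ m : Sym2 V → {x // x ∉ U}, ∑ b,
            (ld G (GB G U B) (md m) a : ℝ) * ld G (GB G U B) (md m) b * DX D a b :=
            Finset.sum_congr rfl fun B _ => Finset.sum_comm
        _ = ∑ a, ∑ B ∈ Finset.powersetCard t U, ∑ m : Sym2 V → {x // x ∉ U}, ∑ b,
            (ld G (GB G U B) (md m) a : ℝ) * ld G (GB G U B) (md m) b * DX D a b :=
            Finset.sum_comm
        _ = ∑ a, ∑ B ∈ Finset.powersetCard t U, ∑ b, ∑ m : Sym2 V → {x // x ∉ U},
            (ld G (GB G U B) (md m) a : ℝ) * ld G (GB G U B) (md m) b * DX D a b :=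
            Finset.sum_congr rfl fun a _ => Finset.sum_congr rfl fun B _ => Finset.sum_comm
        _ = ∑ a, ∑ b, ∑ B ∈ Finset.powersetCard t U, ∑ m : Sym2 V → {x // x ∉ U},
            (ld G (GB G U B) (md m) a : ℝ) * ld G (GB G U B) (md m) b * DX D a b :=
            Finset.sum_congr rfl fun a _ => Finset.sum_comm
        _ = _ := by
            simp only [← Finset.sum_mul]
    have hloc := loc_bd G U t r hr hr0 N Mt hN hMt _ rfl
    obtain ⟨q, hq⟩ : ∃ q, q = (t + 1).choose 2 := ⟨_, rfl⟩
    rw [← hq] at hloc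
    have hqr : (q : ℝ) = t * (t + 1) / 2 := by
      have := Nat.add_one_mul_choose_eq t 1
      rw [Nat.choose_one_right, ← hq] at this
      have h3 : ((t : ℝ) + 1) * t = q * (1 + 1) := by exact_mod_cast this
      linarith
    -- the pairs of arcs
    have hb1 := cr_le_sum' D hfin (bip G U) (bip_le G U)
    have hbr : (2 : ℝ) * crossingNumber (bip G U) ≤
        ∑ a ∈ eF (bip G U), ∑ b ∈ eF (bip G U), (DX D a b : ℝ) := by exact_mod_cast hb1
    have main : ∑ a, ∑ b, (∑ B ∈ Finset.powersetCard t U, ∑ m : Sym2 V → {x // x ∉ U},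
          ((ld G (GB G U B) (md m) a : ℝ) * ld G (GB G U B) (md m) b)) * DX D a b ≤
        N * Mt * (2 * crossingNumber G - 3 / 100 * (2 * crossingNumber (bip G U))) := by
      calc _ ≤ ∑ a, ∑ b, N * Mt * ((DX D a b : ℝ) - 3 / 100 *
            (if a ∈ eF (bip G U) then (if b ∈ eF (bip G U) then (DX D a b : ℝ) else 0) else 0)) := by
            refine Finset.sum_le_sum fun a _ => Finset.sum_le_sum fun b _ => ?_
            by_cases h0 : DX D a b = 0
            · rw [h0]; simp
            · obtain ⟨e1, e2, e3⟩ := DX_good hgood h0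
              have k1 := pair_bd G U t ht hU hj r hr hr1 hr2 N Mt hN hMt hD a b e3
              have hDX : (0 : ℝ) ≤ DX D a b := Nat.cast_nonneg _
              refine (mul_le_mul_of_nonneg_right k1 hDX).trans ?_
              rw [mul_assoc]
              refine mul_le_mul_of_nonneg_left ?_ hNM
              by_cases h3 : a ∈ eF (bip G U)
              · rw [if_pos h3]
                have h4 : ∃ v ∈ a, v ∈ U := by
                  rw [DEL.mem_eF] at h3
                  induction a with
                  | _ x y =>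
                    have h5 : (bip G U).Adj x y := h3
                    rcases h5.2 with h6 | h6
                    · exact ⟨x, by simp, h6.1⟩
                    · exact ⟨y, by simp, h6.2⟩
                rw [if_pos (Or.inl h4)]
                split_ifs <;> linarith
              · rw [if_neg h3]
                split_ifs <;> linarith
        _ = N * Mt * (∑ a, ∑ b, (DX D a b : ℝ) - 3 / 100 *
            ∑ a ∈ eF (bip G U), ∑ b ∈ eF (bip G U), (DX D a b : ℝ)) := by
            simp only [← Finset.mul_sum, Finset.sum_sub_distrib]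
            congr 3
            rw [← Finset.sum_filter_add_sum_filter_not Finset.univ (fun a => a ∈ eF (bip G U))]
            have z : ∑ x ∈ Finset.univ.filter (fun a => a ∉ eF (bip G U)),
                ∑ b, (if x ∈ eF (bip G U) then (if b ∈ eF (bip G U) then
                  (DX D x b : ℝ) else 0) else 0) = 0 := by
              refine Finset.sum_eq_zero fun x hx => ?_
              have := (Finset.mem_filter.1 hx).2
              refine Finset.sum_eq_zero fun b _ => ?_
              rw [if_neg this]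
            rw [z, add_zero, Finset.filter_mem_eq_inter, Finset.univ_inter]
            refine Finset.sum_congr rfl fun a ha => ?_
            rw [← Finset.sum_filter_add_sum_filter_not Finset.univ (fun a => a ∈ eF (bip G U))]
            have z : ∑ b ∈ Finset.univ.filter (fun a => a ∉ eF (bip G U)),
                (if a ∈ eF (bip G U) then (if b ∈ eF (bip G U) then
                  (DX D a b : ℝ) else 0) else 0) = 0 := by
              refine Finset.sum_eq_zero fun x hx => ?_
              have := (Finset.mem_filter.1 hx).2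
              rw [if_pos ha, if_neg this]
            rw [z, add_zero, Finset.filter_mem_eq_inter, Finset.univ_inter]
            refine Finset.sum_congr rfl fun b hb => ?_
            rw [if_pos ha, if_pos hb]
        _ ≤ _ := by
            refine mul_le_mul_of_nonneg_left ?_ hNM
            have hcr' : (2 : ℝ) * crossingNumber G = ∑ a, ∑ b, (DX D a b : ℝ) := by
              exact_mod_cast hcr
            rw [← hcr']
            linarith
    -- the bipartite part
    obtain ⟨l, hl⟩ : ∃ l, (Uᶜ : Finset V).card = l + 2 := by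
      refine ⟨(Uᶜ : Finset V).card - 2, ?_⟩
      have : (2 : ℝ) ≤ (Uᶜ : Finset V).card := by rw [← kcard, ← hr]; linarith
      have : 2 ≤ (Uᶜ : Finset V).card := by exact_mod_cast this
      omega
    have hrl : r = l + 2 := by rw [hr, kcard, hl]; push_cast; ring
    have hbc := bip_cr G U hj (2 * t - 3) l (by omega) hl (by omega) (by
      have : (1 : ℝ) ≤ l := by linarith
      exact_mod_cast this)
    have hk : ((2 * t - 3 : ℕ) : ℝ) = 2 * t - 3 := by
      rw [Nat.cast_sub (by omega)]; push_cast; ring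
    rw [hk] at hbc
    have e1 : ((2 * (t : ℝ) - 3 + 2) * (2 * t - 3 + 1)) * (((l : ℝ) + 2) * (l + 1)) =
        ((2 * t - 1) * (2 * t - 2)) * (r * (r - 1)) := by rw [hrl]; ring
    rw [e1] at hbc
    have hnum := rnum3 t r q htr hr1 hr2 hqr
    have fin : ∑ B ∈ Finset.powersetCard t U, ∑ _m : Sym2 V → {x // x ∉ U},
        2 * (crossingNumber (GB G U B) : ℝ) ≤ N * Mt * (2 * crossingNumber G) := by
      refine tot.trans ((add_le_add main hloc).trans ?_)
      rw [← mul_add]
      refine mul_le_mul_of_nonneg_left ?_ hNM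
      rw [hn]
      linarith
    have fin2 : ∑ B ∈ Finset.powersetCard t U, (crossingNumber (GB G U B) : ℝ) ≤
        ∑ _B ∈ Finset.powersetCard t U, (crossingNumber G : ℝ) := by
      have k1 : ∑ B ∈ Finset.powersetCard t U, ∑ _m : Sym2 V → {x // x ∉ U},
        2 * (crossingNumber (GB G U B) : ℝ) =
        (2 * Mt) * ∑ B ∈ Finset.powersetCard t U, (crossingNumber (GB G U B) : ℝ) := by
        rw [Finset.mul_sum]
        refine Finset.sum_congr rfl fun B _ => ?_
        rw [Finset.sum_const, nsmul_eq_mul, Finset.card_univ, ← hMt]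
        ring
      rw [k1] at fin
      rw [Finset.sum_const, nsmul_eq_mul, Finset.card_powersetCard, ← hN]
      have k2 : (2 * Mt) * ∑ B ∈ Finset.powersetCard t U, (crossingNumber (GB G U B) : ℝ) ≤
          (2 * Mt) * (N * crossingNumber G) := by
        refine fin.trans (le_of_eq ?_)
        ring
      exact le_of_mul_le_mul_left k2 (by positivity)
    have hne : (Finset.powersetCard t U).Nonempty := by
      rw [Finset.powersetCard_nonempty]
      omega
    obtain ⟨B, hB, hBle⟩ := Finset.exists_le_of_sum_le hne fin2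
    obtain ⟨hBU, hBt⟩ := Finset.mem_powersetCard.1 hB
    exact ⟨B, hBU, hBt, by exact_mod_cast hBle⟩

end Pool.Agent.H466.AL
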